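import Pool.Agent.H249.ER.Ide

/-! # Balls, isomorphisms, cylinders -/

set_option autoImplicit false

open Finset BigOperators
open scoped Classical

namespace Pool.Agent.H249.ER

open Pool.Agent.Q287.SR (pairs erWeight Ex mem_pairs_of_edge)

/-! ## Distances -/

lemma edist_zero {V : Type} (G : SimpleGraph V) (v x : V) : G.edist v x ≤ ((0 : ℕ) : ℕ∞) ↔ v = x := by
  rw [Nat.cast_zero, nonpos_iff_eq_zero, SimpleGraph.edist_eq_zero_iff]

lemma edist_succ {V : Type} (G : SimpleGraph V) (v x : V) (k : ℕ) :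
    G.edist v x ≤ ((k + 1 : ℕ) : ℕ∞) ↔ ∃ y, G.edist v y ≤ (k : ℕ∞) ∧ (y = x ∨ G.Adj y x) := by
  constructor
  · intro h
    rw [SimpleGraph.edist_comm] at h
    have hne : G.edist x v ≠ ⊤ := ne_top_of_le_ne_top (ENat.natCast_ne_top _) h
    obtain ⟨q, hq⟩ := SimpleGraph.exists_walk_of_edist_ne_top hne
    rw [← hq] at h
    have hl : q.length ≤ k + 1 := by exact_mod_cast h
    cases q with
    | nil => exact ⟨v, by simp, Or.inl rfl⟩
    | @cons _ y _ hadj q' =>
      refine ⟨y, ?_, Or.inr hadj.symm⟩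
      rw [SimpleGraph.edist_comm]
      refine le_trans (SimpleGraph.Walk.edist_le q') ?_
      rw [SimpleGraph.Walk.length_cons] at hl
      exact_mod_cast (show q'.length ≤ k by omega)
  · rintro ⟨y, hy, rfl | h⟩
    · exact le_trans hy (by exact_mod_cast Nat.le_succ k)
    · refine le_trans (SimpleGraph.edist_triangle (v := y)) ?_
      have : G.edist y x ≤ 1 := by
        rw [SimpleGraph.edist_eq_one_iff_adj.2 h]
      push_cast
      exact add_le_add hy this

lemma eq_iff_le (a : ℕ∞) (r : ℕ) : a = (r : ℕ∞) ↔ a ≤ (r : ℕ∞) ∧ ∀ k : ℕ, k < r → ¬ a ≤ (k : ℕ∞) := by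
  constructor
  · rintro rfl
    refine ⟨le_refl _, fun k hk h => ?_⟩
    have : r ≤ k := by exact_mod_cast h
    omega
  · rintro ⟨h1, h2⟩
    obtain ⟨d, rfl⟩ := ENat.ne_top_iff_exists.1 (ne_top_of_le_ne_top (ENat.natCast_ne_top _) h1)
    have hd : d ≤ r := by exact_mod_cast h1
    rcases lt_or_eq_of_le hd with h | h
    · exact absurd (le_refl _) (h2 d h)
    · rw [h]

lemma mem_ball {n : ℕ} {G : SimpleGraph (Fin n)} {v x : Fin n} {r : ℕ} : x ∈ ball G v r ↔ G.edist v x ≤ (r : ℕ∞) := by
  simp [ball]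

lemma mem_bd {n : ℕ} {G : SimpleGraph (Fin n)} {v x : Fin n} {r : ℕ} : x ∈ bd G v r ↔ G.edist v x = (r : ℕ∞) := by
  simp [bd]

/-- distances in the ball -/
lemma res_edist {n : ℕ} (G : SimpleGraph (Fin n)) (v : Fin n) (r : ℕ) :
    ∀ k : ℕ, k ≤ r → ∀ x, (res (ball G v r) G).edist v x ≤ (k : ℕ∞) ↔ G.edist v x ≤ (k : ℕ∞) := by
  intro k
  induction k with
  | zero =>
    intro _ x
    rw [edist_zero, edist_zero]
  | succ k ih =>
    intro hk x
    have ihk := ih (by omega)
    rw [edist_succ, edist_succ]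
    constructor
    · rintro ⟨y, hy, h⟩
      refine ⟨y, (ihk y).1 hy, ?_⟩
      rcases h with h | h
      · exact Or.inl h
      · exact Or.inr h.1
    · rintro ⟨y, hy, h⟩
      refine ⟨y, (ihk y).2 hy, ?_⟩
      rcases h with h | h
      · exact Or.inl h
      · refine Or.inr ⟨h, ?_, ?_⟩
        · rw [mem_ball]
          exact le_trans hy (by exact_mod_cast (show k ≤ r by omega))
        · rw [mem_ball]
          exact le_trans ((edist_succ G v x k).2 ⟨y, hy, Or.inr h⟩) (by exact_mod_cast hk)

theorem t_BA1 : S_BA1 := by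
  intro n G v x r hx
  rw [mem_ball] at hx
  obtain ⟨d, hd⟩ := ENat.ne_top_iff_exists.1 (ne_top_of_le_ne_top (ENat.natCast_ne_top _) hx)
  have hdr : d ≤ r := by rw [← hd] at hx; exact_mod_cast hx
  rw [← hd, eq_iff_le]
  refine ⟨(res_edist G v r d hdr x).2 (by rw [hd]), fun k hk h => ?_⟩
  have := (res_edist G v r k (by omega) x).1 h
  rw [← hd] at this
  have : d ≤ k := by exact_mod_cast this
  omega

/-! ## Isomorphisms as maps -/

lemma ballIso_iff {V W : Type} (G : SimpleGraph V) (v : V) (r : ℕ) (F : SimpleGraph W) (u : W) :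
    BallIso G v r F u ↔ ∃ f, Emb G v r F u f := by
  constructor
  · rintro ⟨e, he⟩
    refine ⟨fun x => (e x : V), ?_, he, ?_, ?_⟩
    · intro x y hxy
      exact e.injective (Subtype.ext hxy)
    · intro x y
      have := e.map_rel_iff' (a := x) (b := y)
      exact this
    · ext z
      constructor
      · rintro ⟨x, rfl⟩
        exact (e x).2
      · intro hz
        exact ⟨e.symm ⟨z, hz⟩, by simp⟩
  · rintro ⟨f, hinj, hfu, hadj, hrange⟩
    let g : W → {x | G.edist v x ≤ (r : ℕ∞)} := fun x => ⟨f x, by rw [← hrange]; exact ⟨x, rfl⟩⟩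
    have hg : Function.Bijective g := by
      constructor
      · intro x y hxy
        exact hinj (congrArg Subtype.val hxy)
      · rintro ⟨z, hz⟩
        rw [← hrange] at hz
        obtain ⟨x, hx⟩ := hz
        exact ⟨x, Subtype.ext hx⟩
    refine ⟨⟨Equiv.ofBijective g hg, ?_⟩, hfu⟩
    intro a b
    exact hadj a b

lemma emb_edist {V W : Type} {G : SimpleGraph V} {v : V} {r : ℕ} {F : SimpleGraph W} {u : W} {f : W → V}
    (h : Emb G v r F u f) : ∀ k : ℕ, k ≤ r → ∀ x, G.edist v (f x) ≤ (k : ℕ∞) ↔ F.edist u x ≤ (k : ℕ∞) := by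
  obtain ⟨hinj, hfu, hadj, hrange⟩ := h
  intro k
  induction k with
  | zero =>
    intro _ x
    rw [edist_zero, edist_zero, ← hfu]
    exact ⟨fun h => hinj h, fun h => by rw [h]⟩
  | succ k ih =>
    intro hk x
    have ihk := ih (by omega)
    rw [edist_succ, edist_succ]
    constructor
    · rintro ⟨y, hy, h⟩
      have hy' : y ∈ Set.range f := by
        rw [hrange]
        exact le_trans hy (by exact_mod_cast (show k ≤ r by omega))
      obtain ⟨z, rfl⟩ := hy'
      refine ⟨z, (ihk z).1 hy, ?_⟩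
      rcases h with h | h
      · exact Or.inl (hinj h)
      · exact Or.inr ((hadj z x).1 h)
    · rintro ⟨y, hy, h⟩
      refine ⟨f y, (ihk y).2 hy, ?_⟩
      rcases h with h | h
      · exact Or.inl (by rw [h])
      · exact Or.inr ((hadj y x).2 h)

lemma emb_eq {V W : Type} {G : SimpleGraph V} {v : V} {r : ℕ} {F : SimpleGraph W} {u : W} {f : W → V}
    (h : Emb G v r F u f) (x : W) : G.edist v (f x) = (r : ℕ∞) ↔ F.edist u x = (r : ℕ∞) := by
  rw [eq_iff_le, eq_iff_le, emb_edist h r le_rfl x]
  constructor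
  · rintro ⟨h1, h2⟩
    exact ⟨h1, fun k hk h3 => h2 k hk ((emb_edist h k hk.le x).2 h3)⟩
  · rintro ⟨h1, h2⟩
    exact ⟨h1, fun k hk h3 => h2 k hk ((emb_edist h k hk.le x).1 h3)⟩

theorem t_BA2 : S_BA2 := by
  intro n G v r m F u
  rw [ballIso_iff, ballIso_iff]
  have hset : {x | G.edist v x ≤ (r : ℕ∞)} = {x | (res (ball G v r) G).edist v x ≤ (r : ℕ∞)} := by
    ext x
    exact (res_edist G v r r le_rfl x).symm
  refine exists_congr (fun f => ?_)
  unfold Emb
  rw [← hset]
  constructor
  · rintro ⟨h1, h2, h3, h4⟩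
    refine ⟨h1, h2, fun x y => ?_, h4⟩
    rw [← h3 x y]
    have hm : ∀ z, f z ∈ ball G v r := fun z => by
      rw [mem_ball]
      have : f z ∈ Set.range f := ⟨z, rfl⟩
      rw [h4] at this
      exact this
    exact ⟨fun h => h.1, fun h => ⟨h, hm x, hm y⟩⟩
  · rintro ⟨h1, h2, h3, h4⟩
    refine ⟨h1, h2, fun x y => ?_, h4⟩
    rw [← h3 x y]
    have hm : ∀ z, f z ∈ ball G v r := fun z => by
      rw [mem_ball]
      have : f z ∈ Set.range f := ⟨z, rfl⟩
      rw [h4] at this
      exact this
    exact ⟨fun h => ⟨h, hm x, hm y⟩, fun h => h.1⟩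

theorem t_BA3 : S_BA3 := by
  intro n G v r m F u h
  rw [ballIso_iff] at h
  obtain ⟨f, hf⟩ := h
  have hf' := hf
  obtain ⟨hinj, hfu, hadj, hrange⟩ := hf
  have hmem : ∀ x, f x ∈ ball G v r := fun x => by
    rw [mem_ball]
    have : f x ∈ Set.range f := ⟨x, rfl⟩
    rw [hrange] at this
    exact this
  refine ⟨?_, ?_, ?_⟩
  · have : ball G v r = Finset.univ.image f := by
      ext z
      rw [Finset.mem_image, mem_ball]
      constructor
      · intro hz
        have : z ∈ Set.range f := by rw [hrange]; exact hz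
        obtain ⟨x, hx⟩ := this
        exact ⟨x, Finset.mem_univ _, hx⟩
      · rintro ⟨x, _, rfl⟩
        exact mem_ball.1 (hmem x)
    rw [this, Finset.card_image_of_injective _ hinj, Finset.card_univ, Fintype.card_fin]
  · have : bd G v r = (bd F u r).image f := by
      ext z
      rw [Finset.mem_image, mem_bd]
      constructor
      · intro hz
        have : z ∈ Set.range f := by rw [hrange]; exact hz.le
        obtain ⟨x, rfl⟩ := this
        exact ⟨x, mem_bd.2 ((emb_eq hf' x).1 hz), rfl⟩
      · rintro ⟨x, hx, rfl⟩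
        exact (emb_eq hf' x).2 (mem_bd.1 hx)
    rw [this, Finset.card_image_of_injective _ hinj]
  · intro x
    exact (emb_edist hf' r le_rfl x).1 (mem_ball.1 (hmem x))

theorem t_CYB : S_CYB := by
  intro n G₀ G v r
  constructor
  · intro h
    -- same adjacency at vertices of distance `< r`
    have hadj : ∀ x y, G₀.edist v x < (r : ℕ∞) → (G.Adj x y ↔ G₀.Adj x y) := by
      intro x y hx
      by_cases hxy : x = y
      · subst hxy
        simp
      · have he : s(x, y) ∈ DB G₀ v r := by
          unfold DB pairs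
          simp only [Finset.mem_filter, Finset.mem_univ, true_and, Sym2.mk_isDiag_iff]
          exact ⟨hxy, Or.inr ⟨x, by simp, hx⟩⟩
        exact h _ he
    have hd : ∀ k : ℕ, k ≤ r → ∀ x, G.edist v x ≤ (k : ℕ∞) ↔ G₀.edist v x ≤ (k : ℕ∞) := by
      intro k
      induction k with
      | zero =>
        intro _ x
        rw [edist_zero, edist_zero]
      | succ k ih =>
        intro hk x
        have ihk := ih (by omega)
        rw [edist_succ, edist_succ]
        refine exists_congr (fun y => ?_)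
        rw [ihk y]
        refine and_congr_right (fun hy => ?_)
        rw [hadj y x (lt_of_le_of_lt hy (by exact_mod_cast (show k < r by omega)))]
    have hball : ball G v r = ball G₀ v r := by
      ext x
      rw [mem_ball, mem_ball]
      exact hd r le_rfl x
    refine ⟨hball, ?_⟩
    ext x y
    show (G.Adj x y ∧ x ∈ ball G v r ∧ y ∈ ball G v r) ↔ (G₀.Adj x y ∧ x ∈ ball G₀ v r ∧ y ∈ ball G₀ v r)
    rw [hball]
    refine and_congr_left (fun hxy => ?_)
    by_cases hne : x = y
    · subst hne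
      simp
    · have he : s(x, y) ∈ DB G₀ v r := by
        unfold DB pairs
        simp only [Finset.mem_filter, Finset.mem_univ, true_and, Sym2.mk_isDiag_iff]
        refine ⟨hne, Or.inl ?_⟩
        intro z hz
        rw [Sym2.mem_iff] at hz
        rcases hz with rfl | rfl
        · exact hxy.1
        · exact hxy.2
      exact h _ he
  · rintro ⟨h1, h2⟩
    have hd : ∀ x, G.edist v x = G₀.edist v x ∨ (x ∉ ball G v r ∧ x ∉ ball G₀ v r) := by
      intro x
      by_cases hx : x ∈ ball G v r
      · left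
        rw [← t_BA1 n G v x r hx, h2, t_BA1 n G₀ v x r (by rw [← h1]; exact hx)]
      · right
        exact ⟨hx, by rw [← h1]; exact hx⟩
    have hin : ∀ x y, x ∈ ball G₀ v r → y ∈ ball G₀ v r → (G.Adj x y ↔ G₀.Adj x y) := by
      intro x y hx hy
      have e1 : (res (ball G v r) G).Adj x y ↔ G.Adj x y := by
        rw [h1]
        exact ⟨fun h => h.1, fun h => ⟨h, hx, hy⟩⟩
      have e2 : (res (ball G₀ v r) G₀).Adj x y ↔ G₀.Adj x y := ⟨fun h => h.1, fun h => ⟨h, hx, hy⟩⟩
      rw [← e1, ← e2, h2]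
    have hstep : ∀ (H : SimpleGraph (Fin n)) (x y : Fin n), H.edist v x < (r : ℕ∞) → H.Adj x y → y ∈ ball H v r := by
      intro H x y hx hxy
      obtain ⟨d, hd⟩ := ENat.ne_top_iff_exists.1 (ne_top_of_lt hx)
      rw [← hd] at hx
      have hdr : d < r := by exact_mod_cast hx
      rw [mem_ball]
      refine le_trans ((edist_succ H v y d).2 ⟨x, by rw [hd], Or.inr hxy⟩) ?_
      exact_mod_cast (show d + 1 ≤ r by omega)
    have hout : ∀ x y, G₀.edist v x < (r : ℕ∞) → (G.Adj x y ↔ G₀.Adj x y) := by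
      intro x y hx
      have hx0 : x ∈ ball G₀ v r := mem_ball.2 hx.le
      have hxG : G.edist v x < (r : ℕ∞) := by
        rcases hd x with h | h
        · rw [h]; exact hx
        · exact absurd hx0 h.2
      by_cases hy : y ∈ ball G₀ v r
      · exact hin x y hx0 hy
      · constructor
        · intro h
          exfalso
          apply hy
          rw [← h1]
          exact hstep G x y hxG h
        · intro h
          exact absurd (hstep G₀ x y hx h) hy
    intro e he
    unfold DB at he
    rw [Finset.mem_filter] at he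
    induction e with
    | _ x y =>
      show G.Adj x y ↔ G₀.Adj x y
      rcases he.2 with h | ⟨z, hz, hz2⟩
      · exact hin x y (h x (by simp)) (h y (by simp))
      · rw [Sym2.mem_iff] at hz
        rcases hz with rfl | rfl
        · exact hout _ _ hz2
        · rw [SimpleGraph.adj_comm, hout _ _ hz2, SimpleGraph.adj_comm]

end Pool.Agent.H249.ER
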