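import Pool.Agent.H249.ER.Bal

/-! # Sums over components; the number of embeddings -/

set_option autoImplicit false

open Finset BigOperators
open scoped Classical

namespace Pool.Agent.H249.ER

theorem t_SQC : S_SQC := by
  intro n G v₀ x
  have : Fintype G.ConnectedComponent := Fintype.ofFinite _
  let s : G.ConnectedComponent → ℝ := fun c => ∑ v, if G.connectedComponentMk v = c then x v else 0
  have h1 : ∑ v, ∑ w, (if G.Reachable v w then x v * x w else 0) = ∑ c, s c ^ 2 := by
    have e1 : ∀ c, s c ^ 2 = ∑ v, ∑ w, (if G.connectedComponentMk v = c then x v else 0) *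
        (if G.connectedComponentMk w = c then x w else 0) := by
      intro c
      rw [sq, Finset.sum_mul_sum]
    have e2 : ∑ c, s c ^ 2 = ∑ c, ∑ v, ∑ w, (if G.connectedComponentMk v = c then x v else 0) *
        (if G.connectedComponentMk w = c then x w else 0) := Finset.sum_congr rfl (fun c _ => e1 c)
    rw [e2]
    symm
    rw [Finset.sum_comm]
    refine Finset.sum_congr rfl (fun v _ => ?_)
    rw [Finset.sum_comm]
    refine Finset.sum_congr rfl (fun w _ => ?_)
    rw [Finset.sum_eq_single (G.connectedComponentMk v)]
    · by_cases h : G.Reachable v w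
      · rw [if_pos h, if_pos rfl, if_pos (SimpleGraph.ConnectedComponent.eq.2 h.symm)]
      · rw [if_neg h, if_neg (fun h2 => h (SimpleGraph.ConnectedComponent.eq.1 h2).symm), mul_zero]
    · intro c _ hc
      rw [if_neg (Ne.symm hc), zero_mul]
    · intro h
      exact absurd (Finset.mem_univ _) h
  rw [h1]
  have h2 : ∑ v ∈ comp G v₀, x v = s (G.connectedComponentMk v₀) := by
    unfold comp
    rw [Finset.sum_filter]
    refine Finset.sum_congr rfl (fun v _ => ?_)
    by_cases h : G.Reachable v₀ v
    · rw [if_pos h, if_pos (SimpleGraph.ConnectedComponent.eq.2 h.symm)]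
    · rw [if_neg h, if_neg (fun h2 => h (SimpleGraph.ConnectedComponent.eq.1 h2).symm)]
  rw [h2]
  exact Finset.single_le_sum (f := fun c => s c ^ 2) (fun c _ => sq_nonneg _) (Finset.mem_univ _)

theorem t_TOR : S_TOR := by
  intro V G v r m F u
  refine ⟨ballIso_iff G v r F u, ?_, ?_⟩
  · unfold aut
    have hfin : Finite (F ≃g F) := Finite.of_injective (fun e : F ≃g F => (e : Fin m → Fin m)) DFunLike.coe_injective
    rw [Nat.card_pos_iff]
    exact ⟨⟨⟨SimpleGraph.Iso.refl, rfl⟩⟩, inferInstance⟩
  · intro h
    rw [ballIso_iff] at h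
    obtain ⟨f₀, hinj, hfu, hadj, hrange⟩ := h
    unfold aut
    symm
    let Φ : {e : F ≃g F // e u = u} → {f : Fin m → V // Emb G v r F u f} := fun e =>
      ⟨fun x => f₀ (e.1 x), by
        refine ⟨fun x y hxy => e.1.injective (hinj hxy), ?_, ?_, ?_⟩
        · show f₀ (e.1 u) = v
          rw [e.2, hfu]
        · intro x y
          rw [hadj]
          exact e.1.map_rel_iff'
        · rw [← hrange]
          ext z
          constructor
          · rintro ⟨x, rfl⟩
            exact ⟨e.1 x, rfl⟩
          · rintro ⟨x, rfl⟩
            exact ⟨e.1.symm x, by simp⟩⟩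
    refine Nat.card_eq_of_bijective Φ ⟨?_, ?_⟩
    · intro e e' he
      apply Subtype.ext
      ext x
      have := congrFun (congrArg Subtype.val he) x
      exact congrArg Fin.val (hinj this)
    · rintro ⟨f, hf⟩
      obtain ⟨finj, ffu, fadj, frange⟩ := hf
      have hx : ∀ x, ∃ y, f₀ y = f x := by
        intro x
        have : f x ∈ Set.range f₀ := by rw [hrange, ← frange]; exact ⟨x, rfl⟩
        exact this
      choose g hg using hx
      have gbij : Function.Bijective g := by
        constructor
        · intro x y hxy
          apply finj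
          rw [← hg x, ← hg y, hxy]
        · intro y
          have : f₀ y ∈ Set.range f := by rw [frange, ← hrange]; exact ⟨y, rfl⟩
          obtain ⟨x, hx⟩ := this
          refine ⟨x, hinj ?_⟩
          rw [hg x, hx]
      let e : F ≃g F := ⟨Equiv.ofBijective g gbij, by
        intro a b
        show F.Adj (g a) (g b) ↔ F.Adj a b
        rw [← hadj, hg a, hg b, fadj]⟩
      refine ⟨⟨e, ?_⟩, ?_⟩
      · show g u = u
        apply hinj
        rw [hg u, ffu, hfu]
      · apply Subtype.ext
        funext x
        exact hg x

end Pool.Agent.H249.ER
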