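import Pool.Agent.H249.ER.Conn
import Pool.Agent.H249.ER.Tor

/-! # The probability of a given ball -/

set_option autoImplicit false

open Finset BigOperators
open scoped Classical

namespace Pool.Agent.H249.ER

open Pool.Agent.Q287.SR (pairs erWeight Ex Ex_const Ex_add Ex_mul Ex_sum Ex_mono Ex_nonneg mem_pairs_of_edge)

/-- the inner vertices -/
noncomputable def inn {m : ℕ} (F : SimpleGraph (Fin m)) (u : Fin m) (r : ℕ) : Finset (Fin m) :=
  Finset.univ.filter (fun x => F.edist u x < (r : ℕ∞))

lemma card_inn {m : ℕ} {F : SimpleGraph (Fin m)} {u : Fin m} {r : ℕ} (h : Cov F u r) :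
    (inn F u r).card = m - (bd F u r).card := by
  have h1 : inn F u r = Finset.univ \ bd F u r := by
    ext x
    simp only [inn, bd, Finset.mem_filter, Finset.mem_univ, true_and, Finset.mem_sdiff]
    exact ⟨fun h2 => h2.ne, fun h2 => lt_of_le_of_ne (h x) h2⟩
  rw [h1, Finset.card_sdiff_of_subset (Finset.subset_univ _), Finset.card_univ, Fintype.card_fin]

/-- the edges on which the event depends -/
noncomputable def Df {n m : ℕ} (F : SimpleGraph (Fin m)) (u : Fin m) (r : ℕ) (f : Fin m → Fin n) :
    Finset (Sym2 (Fin n)) :=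
  inside (Finset.univ.image f) ∪ between ((inn F u r).image f) (Finset.univ.image f)ᶜ

lemma map_adj {n m : ℕ} (F : SimpleGraph (Fin m)) {f : Fin m → Fin n} (hf : Function.Injective f) (x y : Fin m) :
    (F.map f).Adj (f x) (f y) ↔ F.Adj x y := by
  constructor
  · intro h
    rw [SimpleGraph.map_adj'] at h
    obtain ⟨_, a, b, hab, ha, hb⟩ := h
    rw [← hf ha, ← hf hb]
    exact hab
  · intro h
    rw [SimpleGraph.map_adj']
    exact ⟨fun h2 => h.ne (hf h2), x, y, h, rfl, rfl⟩

lemma map_adj_range {n m : ℕ} (F : SimpleGraph (Fin m)) {f : Fin m → Fin n} {z z' : Fin n}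
    (h : (F.map f).Adj z z') : (∃ x, f x = z) ∧ (∃ y, f y = z') := by
  rw [SimpleGraph.map_adj'] at h
  obtain ⟨_, a, b, _, ha, hb⟩ := h
  exact ⟨⟨a, ha⟩, ⟨b, hb⟩⟩

lemma emb_iff_cyl {n m : ℕ} {F : SimpleGraph (Fin m)} {u : Fin m} {r : ℕ} (hc : Cov F u r) {f : Fin m → Fin n}
    (hf : Function.Injective f) {v : Fin n} (hu : f u = v) (G : SimpleGraph (Fin n)) :
    Emb G v r F u f ↔ Cyl (F.map f) (Df F u r f) G := by
  constructor
  · intro h
    have h' := h
    obtain ⟨-, -, hadj, hrange⟩ := h
    have hmem : ∀ z, G.edist v z ≤ (r : ℕ∞) → ∃ x, f x = z := by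
      intro z hz
      have : z ∈ Set.range f := by rw [hrange]; exact hz
      exact this
    intro e he
    unfold Df at he
    rw [Finset.mem_union] at he
    rcases he with he | he
    · induction e with
      | _ z z' =>
        unfold inside at he
        rw [Finset.mem_filter] at he
        obtain ⟨x, _, rfl⟩ := Finset.mem_image.1 (he.2 z (by simp))
        obtain ⟨y, _, rfl⟩ := Finset.mem_image.1 (he.2 z' (by simp))
        rw [SimpleGraph.mem_edgeSet, SimpleGraph.mem_edgeSet, hadj, map_adj F hf]
    · obtain ⟨⟨a, b⟩, hab, rfl⟩ := Finset.mem_image.1 he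
      rw [Finset.mem_product] at hab
      obtain ⟨x, hx, rfl⟩ := Finset.mem_image.1 hab.1
      have hb : ¬ ∃ y, f y = b := by
        rintro ⟨y, hy⟩
        exact Finset.mem_compl.1 hab.2 (Finset.mem_image.2 ⟨y, Finset.mem_univ _, hy⟩)
      rw [SimpleGraph.mem_edgeSet, SimpleGraph.mem_edgeSet]
      constructor
      · intro hG
        exfalso
        apply hb
        apply hmem
        simp only [inn, Finset.mem_filter, Finset.mem_univ, true_and] at hx
        obtain ⟨d, hd⟩ := ENat.ne_top_iff_exists.1 (ne_top_of_lt hx)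
        have hdr : d < r := by rw [← hd] at hx; exact_mod_cast hx
        have h1 : G.edist v (f x) ≤ (d : ℕ∞) := (emb_edist h' d hdr.le x).2 (by rw [hd])
        refine le_trans ((edist_succ G v b d).2 ⟨f x, h1, Or.inr hG⟩) ?_
        exact_mod_cast (show d + 1 ≤ r by omega)
      · intro h2
        exact absurd (map_adj_range F h2).2 hb
  · intro h
    have hadj : ∀ x y, G.Adj (f x) (f y) ↔ F.Adj x y := by
      intro x y
      by_cases hxy : x = y
      · subst hxy
        simp
      · have hne : f x ≠ f y := fun h2 => hxy (hf h2)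
        have he : s(f x, f y) ∈ Df F u r f := by
          unfold Df
          apply Finset.mem_union_left
          rw [mem_inside hne]
          exact ⟨Finset.mem_image_of_mem f (Finset.mem_univ x), Finset.mem_image_of_mem f (Finset.mem_univ y)⟩
        have h1 := h _ he
        rw [SimpleGraph.mem_edgeSet, SimpleGraph.mem_edgeSet, map_adj F hf] at h1
        exact h1
    have hdown : ∀ k : ℕ, ∀ x, F.edist u x ≤ (k : ℕ∞) → G.edist v (f x) ≤ (k : ℕ∞) := by
      intro k
      induction k with
      | zero =>
        intro x hx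
        rw [edist_zero] at hx ⊢
        rw [← hu, hx]
      | succ k ih =>
        intro x hx
        rw [edist_succ] at hx ⊢
        obtain ⟨y, hy, h2⟩ := hx
        refine ⟨f y, ih y hy, ?_⟩
        rcases h2 with h2 | h2
        · exact Or.inl (by rw [h2])
        · exact Or.inr ((hadj y x).2 h2)
    have hup : ∀ k : ℕ, k ≤ r → ∀ z, G.edist v z ≤ (k : ℕ∞) → ∃ x, f x = z ∧ F.edist u x ≤ (k : ℕ∞) := by
      intro k
      induction k with
      | zero =>
        intro _ z hz
        rw [edist_zero] at hz
        exact ⟨u, by rw [hu, hz], by rw [edist_zero]⟩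
      | succ k ih =>
        intro hk z hz
        rw [edist_succ] at hz
        obtain ⟨y, hy, h2⟩ := hz
        obtain ⟨x, rfl, hx⟩ := ih (by omega) y hy
        rcases h2 with h2 | h2
        · exact ⟨x, h2, le_trans hx (by exact_mod_cast Nat.le_succ k)⟩
        · by_cases hz : ∃ x', f x' = z
          · obtain ⟨x', rfl⟩ := hz
            refine ⟨x', rfl, ?_⟩
            rw [edist_succ]
            exact ⟨x, hx, Or.inr ((hadj x x').1 h2)⟩
          · exfalso
            have he : s(f x, z) ∈ Df F u r f := by
              unfold Df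
              apply Finset.mem_union_right
              refine Finset.mem_image.2 ⟨(f x, z), Finset.mem_product.2 ⟨Finset.mem_image.2 ⟨x, ?_, rfl⟩, ?_⟩, rfl⟩
              · simp only [inn, Finset.mem_filter, Finset.mem_univ, true_and]
                exact lt_of_le_of_lt hx (by exact_mod_cast (show k < r by omega))
              · rw [Finset.mem_compl, Finset.mem_image]
                rintro ⟨x', _, hx'⟩
                exact hz ⟨x', hx'⟩
            have h1 := h _ he
            rw [SimpleGraph.mem_edgeSet, SimpleGraph.mem_edgeSet] at h1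
            exact hz (map_adj_range F (h1.1 h2)).2
    refine ⟨hf, hu, hadj, ?_⟩
    ext z
    constructor
    · rintro ⟨x, rfl⟩
      exact hdown r x (hc x)
    · intro hz
      obtain ⟨x, hx, _⟩ := hup r le_rfl z hz
      exact ⟨x, hx⟩

lemma inside_image {n m : ℕ} {f : Fin m → Fin n} (hf : Function.Injective f) :
    inside (Finset.univ.image f) = (pairs m).image (Sym2.map f) := by
  ext e
  induction e with
  | _ a b =>
    by_cases hab : a = b
    · subst hab
      constructor
      · intro h
        unfold inside at h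
        rw [Finset.mem_filter] at h
        have := h.1
        simp [pairs] at this
      · intro h
        obtain ⟨e', he', h2⟩ := Finset.mem_image.1 h
        induction e' with
        | _ x y =>
          simp only [pairs, Finset.mem_filter, Finset.mem_univ, true_and, Sym2.mk_isDiag_iff] at he'
          rw [Sym2.map_mk, Sym2.eq_iff] at h2
          exfalso
          apply he'
          rcases h2 with ⟨h3, h4⟩ | ⟨h3, h4⟩ <;> exact hf (h3.trans h4.symm)
    · rw [mem_inside hab]
      constructor
      · rintro ⟨h1, h2⟩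
        obtain ⟨x, _, rfl⟩ := Finset.mem_image.1 h1
        obtain ⟨y, _, rfl⟩ := Finset.mem_image.1 h2
        refine Finset.mem_image.2 ⟨s(x, y), ?_, by simp⟩
        simp only [pairs, Finset.mem_filter, Finset.mem_univ, true_and, Sym2.mk_isDiag_iff]
        exact fun h => hab (by rw [h])
      · intro h
        obtain ⟨e', _, h2⟩ := Finset.mem_image.1 h
        induction e' with
        | _ x y =>
          rw [Sym2.map_mk, Sym2.eq_iff] at h2
          rcases h2 with ⟨h3, h4⟩ | ⟨h3, h4⟩
          · exact ⟨Finset.mem_image.2 ⟨x, Finset.mem_univ _, h3⟩, Finset.mem_image.2 ⟨y, Finset.mem_univ _, h4⟩⟩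
          · exact ⟨Finset.mem_image.2 ⟨y, Finset.mem_univ _, h4⟩, Finset.mem_image.2 ⟨x, Finset.mem_univ _, h3⟩⟩

lemma weight_eq (m : ℕ) (p : ℝ) (F : SimpleGraph (Fin m)) :
    erWeight m p F = p ^ (Nat.card F.edgeSet) * (1 - p) ^ (m.choose 2 - Nat.card F.edgeSet) := by
  have hc : Nat.card F.edgeSet = ((pairs m).filter (fun e => e ∈ F.edgeSet)).card := by
    rw [Nat.card_eq_fintype_card, ← Set.toFinset_card]
    congr 1
    ext e
    simp only [Set.mem_toFinset, Finset.mem_filter]
    exact ⟨fun h => ⟨mem_pairs_of_edge h, h⟩, fun h => h.2⟩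
  have hp : (pairs m).card = m.choose 2 := by
    have := Sym2.card_subtype_not_diag (α := Fin m)
    rw [Fintype.card_fin, Fintype.card_subtype] at this
    unfold pairs
    convert this
  have h2 := Finset.card_filter_add_card_filter_not (s := pairs m) (fun e => e ∈ F.edgeSet)
  rw [hp] at h2
  unfold erWeight
  rw [Finset.prod_ite, Finset.prod_const, Finset.prod_const, hc]
  congr 2
  omega

lemma disj_ib {n : ℕ} (S R : Finset (Fin n)) : Disjoint (inside R) (between S Rᶜ) := by
  rw [Finset.disjoint_left]
  intro e he he2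
  unfold between at he2
  obtain ⟨⟨a, b⟩, hab, rfl⟩ := Finset.mem_image.1 he2
  rw [Finset.mem_product] at hab
  unfold inside at he
  rw [Finset.mem_filter] at he
  exact Finset.mem_compl.1 hab.2 (he.2 b (by simp))

lemma Pr_emb (hcyl : S_CYL) {n m : ℕ} (p : ℝ) {F : SimpleGraph (Fin m)} {u : Fin m} {r : ℕ} (hc : Cov F u r)
    {f : Fin m → Fin n} (hf : Function.Injective f) {v : Fin n} (hu : f u = v) :
    Pr n p (fun G => Emb G v r F u f) = p ^ (Nat.card F.edgeSet) *
      (1 - p) ^ (m.choose 2 - Nat.card F.edgeSet + (m - (bd F u r).card) * (n - m)) := by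
  have hR : (Finset.univ.image f).card = m := by
    rw [Finset.card_image_of_injective _ hf, Finset.card_univ, Fintype.card_fin]
  have hdis : Disjoint ((inn F u r).image f) (Finset.univ.image f)ᶜ := by
    rw [Finset.disjoint_left]
    intro z hz hz2
    obtain ⟨x, _, rfl⟩ := Finset.mem_image.1 hz
    exact Finset.mem_compl.1 hz2 (Finset.mem_image_of_mem f (Finset.mem_univ x))
  have e1 : Pr n p (fun G => Emb G v r F u f) = Pr n p (Cyl (F.map f) (Df F u r f)) := by
    congr 1
    funext G
    exact propext (emb_iff_cyl hc hf hu G)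
  have hsub : Df F u r f ⊆ pairs n := by
    unfold Df
    refine Finset.union_subset ?_ (between_subset hdis)
    unfold inside
    exact Finset.filter_subset _ _
  let g : Sym2 (Fin n) → ℝ := fun e => @ite ℝ (e ∈ (F.map f).edgeSet) (Classical.propDecidable _) p (1 - p)
  have hg : Pr n p (Cyl (F.map f) (Df F u r f)) = ∏ e ∈ Df F u r f, g e := by
    rw [hcyl n p _ _ hsub]
    refine Finset.prod_congr rfl (fun e _ => ?_)
    simp only [g]
    split_ifs <;> rfl
  rw [e1, hg]
  unfold Df
  rw [Finset.prod_union (disj_ib _ _)]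
  have e2 : ∏ e ∈ inside (Finset.univ.image f), g e = erWeight m p F := by
    rw [inside_image hf, Finset.prod_image (fun _ _ _ _ h => Sym2.map.injective hf h)]
    unfold erWeight
    refine Finset.prod_congr rfl (fun e _ => ?_)
    induction e with
    | _ x y =>
      have : (Sym2.map f s(x, y) ∈ (F.map f).edgeSet) ↔ (s(x, y) ∈ F.edgeSet) := by
        rw [Sym2.map_mk, SimpleGraph.mem_edgeSet, SimpleGraph.mem_edgeSet, map_adj F hf]
      by_cases h : s(x, y) ∈ F.edgeSet
      · rw [if_pos h]
        exact if_pos (this.2 h)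
      · rw [if_neg h]
        exact if_neg (fun h2 => h (this.1 h2))
  have hneg : ∀ e ∈ between ((inn F u r).image f) (Finset.univ.image f)ᶜ, g e = 1 - p := by
    intro e he
    apply if_neg
    obtain ⟨⟨a, b⟩, hab, rfl⟩ := Finset.mem_image.1 he
    rw [Finset.mem_product] at hab
    intro h
    rw [SimpleGraph.mem_edgeSet] at h
    obtain ⟨y, hy⟩ := (map_adj_range F h).2
    exact Finset.mem_compl.1 hab.2 (Finset.mem_image.2 ⟨y, Finset.mem_univ _, hy⟩)
  have e3 : ∏ e ∈ between ((inn F u r).image f) (Finset.univ.image f)ᶜ, g e =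
      (1 - p) ^ ((m - (bd F u r).card) * (n - m)) := by
    rw [Finset.prod_congr rfl hneg, Finset.prod_const, card_between hdis,
      Finset.card_compl, hR, Fintype.card_fin, Finset.card_image_of_injective _ hf, card_inn hc, mul_comm]
  rw [e2, e3, weight_eq, pow_add]
  ring

/-- the injective maps with a given value -/
lemma card_inj {n m : ℕ} (u : Fin m) (v : Fin n) :
    (Finset.univ.filter (fun f : Fin m → Fin n => Function.Injective f ∧ f u = v)).card =
      (n - 1).descFactorial (m - 1) := by
  have hn : 0 < n := v.pos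
  have hm : 0 < m := u.pos
  have h1 : ∀ w : Fin n, (Finset.univ.filter (fun f : Fin m → Fin n => Function.Injective f ∧ f u = w)).card =
      (Finset.univ.filter (fun f : Fin m → Fin n => Function.Injective f ∧ f u = v)).card := by
    intro w
    refine Finset.card_bij (fun f _ x => Equiv.swap w v (f x)) ?_ ?_ ?_
    · intro f hf
      simp only [Finset.mem_filter, Finset.mem_univ, true_and] at hf ⊢
      refine ⟨fun x y hxy => hf.1 ((Equiv.swap w v).injective hxy), ?_⟩
      rw [hf.2, Equiv.swap_apply_left]
    · intro f _ g _ h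
      funext x
      exact (Equiv.swap w v).injective (congrFun h x)
    · intro g hg
      simp only [Finset.mem_filter, Finset.mem_univ, true_and] at hg
      refine ⟨fun x => Equiv.swap w v (g x), ?_, by funext x; simp⟩
      simp only [Finset.mem_filter, Finset.mem_univ, true_and]
      refine ⟨fun x y hxy => hg.1 ((Equiv.swap w v).injective hxy), ?_⟩
      rw [hg.2, Equiv.swap_apply_right]
  have h2 : ∑ w : Fin n, (Finset.univ.filter (fun f : Fin m → Fin n => Function.Injective f ∧ f u = w)).card =
      n.descFactorial m := by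
    have h3 : (Finset.univ.filter (fun f : Fin m → Fin n => Function.Injective f)).card = n.descFactorial m := by
      have := Fintype.card_embedding_eq (α := Fin m) (β := Fin n)
      rw [Fintype.card_fin, Fintype.card_fin] at this
      rw [← this, ← Fintype.card_subtype]
      exact Fintype.card_congr (Equiv.subtypeInjectiveEquivEmbedding (Fin m) (Fin n))
    rw [← h3, Finset.card_eq_sum_card_fiberwise (f := fun f : Fin m → Fin n => f u) (t := Finset.univ)
      (fun _ _ => Finset.mem_univ _)]
    refine Finset.sum_congr rfl (fun w _ => ?_)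
    rw [Finset.filter_filter]
  rw [Finset.sum_congr rfl (fun w _ => h1 w), Finset.sum_const, Finset.card_univ, Fintype.card_fin, smul_eq_mul] at h2
  obtain ⟨n', rfl⟩ : ∃ n', n = n' + 1 := ⟨n - 1, by omega⟩
  obtain ⟨m', rfl⟩ : ∃ m', m = m' + 1 := ⟨m - 1, by omega⟩
  rw [Nat.succ_descFactorial_succ] at h2
  exact Nat.eq_of_mul_eq_mul_left (Nat.succ_pos n') h2

theorem t_CNT (htor : S_TOR) (hcyl : S_CYL) : S_CNT := by
  intro n p v r m F u hc
  have h1 : Pr n p (fun G => BallIso G v r F u) * aut F u = ∑ f : Fin m → Fin n, Pr n p (fun G => Emb G v r F u f) := by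
    rw [Finset.sum_congr rfl (fun f _ => Pr_eq p (fun G => Emb G v r F u f)), ← Ex_sum, Pr_eq, mul_comm, ← Ex_mul]
    congr 1
    funext G
    obtain ⟨t1, t2, t3⟩ := htor (Fin n) G v r m F u
    rw [Finset.sum_boole]
    by_cases h : BallIso G v r F u
    · rw [if_pos h, mul_one, ← t3 h, Nat.card_eq_fintype_card, Fintype.card_subtype]
    · rw [if_neg h, mul_zero, Finset.filter_false_of_mem, Finset.card_empty, Nat.cast_zero]
      intro f _ hf
      exact h (t1.2 ⟨f, hf⟩)
  rw [h1]
  have h2 : ∀ f : Fin m → Fin n, Pr n p (fun G => Emb G v r F u f) =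
      if Function.Injective f ∧ f u = v then p ^ (Nat.card F.edgeSet) *
        (1 - p) ^ (m.choose 2 - Nat.card F.edgeSet + (m - (bd F u r).card) * (n - m)) else 0 := by
    intro f
    by_cases h : Function.Injective f ∧ f u = v
    · rw [if_pos h]
      exact Pr_emb hcyl p hc h.1 h.2
    · rw [if_neg h, Pr_eq]
      have : (fun G : SimpleGraph (Fin n) => if Emb G v r F u f then (1 : ℝ) else 0) = fun _ => 0 := by
        funext G
        rw [if_neg]
        intro h3
        exact h ⟨h3.1, h3.2.1⟩
      rw [this, Ex_const]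
  rw [Finset.sum_congr rfl (fun f _ => h2 f), ← Finset.sum_filter, Finset.sum_const, card_inj u v, nsmul_eq_mul]
  ring

end Pool.Agent.H249.ER
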