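import Pool.Agent.H249.ER.Bal

/-! # Connections between two balls -/

set_option autoImplicit false

open Finset BigOperators
open scoped Classical

namespace Pool.Agent.H249.ER

open Pool.Agent.Q287.SR (pairs erWeight Ex Ex_const Ex_add Ex_mul Ex_sum Ex_mono Ex_nonneg)

lemma ball_step {n : ℕ} {H : SimpleGraph (Fin n)} {v x y : Fin n} {r : ℕ} (hx : H.edist v x < (r : ℕ∞))
    (hxy : H.Adj x y) : y ∈ ball H v r := by
  obtain ⟨d, hd⟩ := ENat.ne_top_iff_exists.1 (ne_top_of_lt hx)
  rw [← hd] at hx
  have hdr : d < r := by exact_mod_cast hx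
  rw [mem_ball]
  refine le_trans ((edist_succ H v y d).2 ⟨x, by rw [hd], Or.inr hxy⟩) ?_
  exact_mod_cast (show d + 1 ≤ r by omega)

lemma bd_eq {n : ℕ} (hba : S_BA1) {G G₀ : SimpleGraph (Fin n)} {v : Fin n} {r : ℕ} (h1 : ball G v r = ball G₀ v r)
    (h2 : res (ball G v r) G = res (ball G₀ v r) G₀) : bd G v r = bd G₀ v r := by
  ext x
  rw [mem_bd, mem_bd]
  constructor
  · intro h
    have hx : x ∈ ball G v r := mem_ball.2 h.le
    rw [← hba n G₀ v x r (by rw [← h1]; exact hx), ← h2, hba n G v x r hx, h]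
  · intro h
    have hx : x ∈ ball G₀ v r := mem_ball.2 h.le
    rw [← hba n G v x r (by rw [h1]; exact hx), h2, hba n G₀ v x r hx, h]

/-- the ball data -/
noncomputable def bdat {n : ℕ} (v w : Fin n) (r s : ℕ) (G : SimpleGraph (Fin n)) :
    (Finset (Fin n) × SimpleGraph (Fin n)) × (Finset (Fin n) × SimpleGraph (Fin n)) :=
  ((ball G v r, res (ball G v r) G), (ball G w s, res (ball G w s) G))

lemma bdat_eq {n : ℕ} {v w : Fin n} {r s : ℕ} {G G₀ : SimpleGraph (Fin n)} :
    bdat v w r s G = bdat v w r s G₀ ↔ (ball G v r = ball G₀ v r ∧ res (ball G v r) G = res (ball G₀ v r) G₀) ∧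
      (ball G w s = ball G₀ w s ∧ res (ball G w s) G = res (ball G₀ w s) G₀) := by
  unfold bdat
  rw [Prod.mk.injEq, Prod.mk.injEq, Prod.mk.injEq]

lemma cyl_union {n : ℕ} {G₀ G : SimpleGraph (Fin n)} {D D' : Finset (Sym2 (Fin n))} :
    Cyl G₀ (D ∪ D') G ↔ (Cyl G₀ D G ∧ Cyl G₀ D' G) := by
  unfold Cyl
  constructor
  · intro h
    exact ⟨fun e he => h e (Finset.mem_union_left _ he), fun e he => h e (Finset.mem_union_right _ he)⟩
  · rintro ⟨h1, h2⟩ e he
    rw [Finset.mem_union] at he
    rcases he with he | he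
    · exact h1 e he
    · exact h2 e he

lemma dep_cyl {n : ℕ} (G₀ : SimpleGraph (Fin n)) (D : Finset (Sym2 (Fin n))) :
    Dep D (fun G => if Cyl G₀ D G then (1 : ℝ) else 0) := by
  intro G G' h
  have : Cyl G₀ D G ↔ Cyl G₀ D G' := by
    unfold Cyl
    constructor
    · intro h1 e he
      rw [← h e he]; exact h1 e he
    · intro h1 e he
      rw [h e he]; exact h1 e he
  show (if Cyl G₀ D G then (1 : ℝ) else 0) = (if Cyl G₀ D G' then (1 : ℝ) else 0)
  by_cases h2 : Cyl G₀ D G
  · rw [if_pos h2, if_pos (this.1 h2)]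
  · rw [if_neg h2, if_neg (fun h3 => h2 (this.2 h3))]

/-- the expectation as a sum over the classes -/
lemma Ex_classes {n : ℕ} (p : ℝ) (v w : Fin n) (r s : ℕ) (f : SimpleGraph (Fin n) → ℝ) :
    Ex n p f = ∑ d ∈ Finset.univ.image (bdat v w r s), Ex n p (fun G => if bdat v w r s G = d then f G else 0) := by
  rw [← Ex_sum]
  congr 1
  funext G
  rw [Finset.sum_ite_eq]
  rw [if_pos (Finset.mem_image_of_mem _ (Finset.mem_univ G))]

lemma DB_disj {n : ℕ} {G₀ : SimpleGraph (Fin n)} {v : Fin n} {r : ℕ} {B : Finset (Fin n)} {x : Fin n}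
    (hB : ∀ z ∈ B, z ∈ ball G₀ v r → z = x) (hx : ¬ G₀.edist v x < (r : ℕ∞)) :
    Disjoint (DB G₀ v r) (inside B) := by
  rw [Finset.disjoint_left]
  intro e he he2
  unfold DB at he
  unfold inside at he2
  rw [Finset.mem_filter] at he he2
  induction e with
  | _ a b =>
    have hne : a ≠ b := by
      have := he2.1
      simp only [pairs, Finset.mem_filter, Finset.mem_univ, true_and, Sym2.mk_isDiag_iff] at this
      exact this
    rcases he.2 with h | ⟨z, hz, hz2⟩
    · apply hne
      rw [hB a (he2.2 a (by simp)) (h a (by simp)), hB b (he2.2 b (by simp)) (h b (by simp))]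
    · have hzb : z ∈ ball G₀ v r := mem_ball.2 hz2.le
      have := hB z (he2.2 z hz) hzb
      rw [this] at hz2
      exact hx hz2

theorem t_CON (hind : S_IND) (hba : S_BA1) (hcyb : S_CYB) (hpth : S_PTH) : S_CON := by
  intro n p h0 h1 v w r s τ hτ Φ hΦ hdet
  rw [Ex_classes p v w r s, Ex_classes p v w r s (fun G => if Disjoint (ball G v r) (ball G w s) then
        Φ G * (bd G v r).card * (bd G w s).card else 0), Finset.mul_sum]
  refine Finset.sum_le_sum (fun d hd => ?_)
  obtain ⟨G₀, _, rfl⟩ := Finset.mem_image.1 hd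
  by_cases hdis : Disjoint (ball G₀ v r) (ball G₀ w s)
  · set D := DB G₀ v r ∪ DB G₀ w s with hD
    have hcls : ∀ G, bdat v w r s G = bdat v w r s G₀ ↔ Cyl G₀ D G := by
      intro G
      rw [bdat_eq, cyl_union, hcyb, hcyb]
    set P := Pr n p (fun G => bdat v w r s G = bdat v w r s G₀) with hP
    have hP0 : 0 ≤ P := Pr_nonneg h0 h1 _
    -- the right side
    have hR : Ex n p (fun G => if bdat v w r s G = bdat v w r s G₀ then
        (if Disjoint (ball G v r) (ball G w s) then Φ G * (bd G v r).card * (bd G w s).card else 0) else 0) =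
        (Φ G₀ * (bd G₀ v r).card * (bd G₀ w s).card) * P := by
      rw [hP, Pr_eq, ← Ex_mul]
      congr 1
      funext G
      by_cases h : bdat v w r s G = bdat v w r s G₀
      · rw [if_pos h, if_pos h, mul_one]
        obtain ⟨⟨a1, a2⟩, ⟨a3, a4⟩⟩ := bdat_eq.1 h
        rw [if_pos (by rw [a1, a3]; exact hdis), bd_eq hba a1 a2, bd_eq hba a3 a4, hdet G G₀ a1 a2 a3 a4]
      · rw [if_neg h, if_neg h, mul_zero]
    rw [hR]
    -- the left side
    have hL : ∀ G, (if bdat v w r s G = bdat v w r s G₀ then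
        (if Disjoint (ball G v r) (ball G w s) ∧ G.Reachable v w then Φ G else 0) else 0) ≤
        ∑ x ∈ bd G₀ v r, ∑ y ∈ bd G₀ w s, Φ G₀ * ((if Cyl G₀ D G then 1 else 0) *
          (if (res ((ball G₀ v r ∪ ball G₀ w s)ᶜ ∪ {x, y}) G).Reachable x y then 1 else 0)) := by
      intro G
      have hterm : ∀ x y, 0 ≤ Φ G₀ * ((if Cyl G₀ D G then (1 : ℝ) else 0) *
          (if (res ((ball G₀ v r ∪ ball G₀ w s)ᶜ ∪ {x, y}) G).Reachable x y then 1 else 0)) := by
        intro x y
        refine mul_nonneg (hΦ G₀) (mul_nonneg ?_ ?_) <;> split_ifs <;> norm_num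
      by_cases h : bdat v w r s G = bdat v w r s G₀
      · rw [if_pos h]
        by_cases h2 : Disjoint (ball G v r) (ball G w s) ∧ G.Reachable v w
        · rw [if_pos h2]
          obtain ⟨⟨a1, a2⟩, ⟨a3, a4⟩⟩ := bdat_eq.1 h
          obtain ⟨x, hx, y, hy, hxy, ⟨z, hz, hxz⟩, ⟨z', hz', hyz'⟩⟩ := hpth n G (ball G v r) (ball G w s) v w
            (mem_ball.2 (by simp)) (mem_ball.2 (by simp)) h2.1 h2.2
          have hxbd : x ∈ bd G v r := by
            rw [mem_bd]
            refine le_antisymm (mem_ball.1 hx) ?_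
            by_contra hlt
            exact hz (ball_step (not_le.1 hlt) hxz)
          have hybd : y ∈ bd G w s := by
            rw [mem_bd]
            refine le_antisymm (mem_ball.1 hy) ?_
            by_contra hlt
            exact hz' (ball_step (not_le.1 hlt) hyz')
          rw [bd_eq hba a1 a2] at hxbd
          rw [bd_eq hba a3 a4] at hybd
          rw [a1, a3] at hxy
          refine le_trans (le_of_eq ?_) (le_trans (Finset.single_le_sum
            (f := fun y => Φ G₀ * ((if Cyl G₀ D G then (1 : ℝ) else 0) *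
              (if (res ((ball G₀ v r ∪ ball G₀ w s)ᶜ ∪ {x, y}) G).Reachable x y then 1 else 0)))
            (fun y _ => hterm x y) hybd) (Finset.single_le_sum
            (f := fun x => ∑ y ∈ bd G₀ w s, Φ G₀ * ((if Cyl G₀ D G then (1 : ℝ) else 0) *
              (if (res ((ball G₀ v r ∪ ball G₀ w s)ᶜ ∪ {x, y}) G).Reachable x y then 1 else 0)))
            (fun x _ => Finset.sum_nonneg (fun y _ => hterm x y)) hxbd))
          rw [if_pos ((hcls G).1 h), if_pos hxy, hdet G G₀ a1 a2 a3 a4]
          ring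
        · rw [if_neg h2]
          exact Finset.sum_nonneg (fun x _ => Finset.sum_nonneg (fun y _ => hterm x y))
      · rw [if_neg h]
        exact Finset.sum_nonneg (fun x _ => Finset.sum_nonneg (fun y _ => hterm x y))
    refine le_trans (Ex_mono h0 h1 hL) ?_
    rw [Ex_sum]
    have hxy : ∀ x ∈ bd G₀ v r, ∀ y ∈ bd G₀ w s, Ex n p (fun G => Φ G₀ * ((if Cyl G₀ D G then 1 else 0) *
          (if (res ((ball G₀ v r ∪ ball G₀ w s)ᶜ ∪ {x, y}) G).Reachable x y then 1 else 0))) ≤ Φ G₀ * (P * τ) := by
      intro x hx y hy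
      rw [Ex_mul]
      refine mul_le_mul_of_nonneg_left ?_ (hΦ G₀)
      have hxb : x ∈ ball G₀ v r := mem_ball.2 (mem_bd.1 hx).le
      have hyb : y ∈ ball G₀ w s := mem_ball.2 (mem_bd.1 hy).le
      have hne : x ≠ y := by
        rintro rfl
        exact Finset.disjoint_left.1 hdis hxb hyb
      have hdj : Disjoint D (inside ((ball G₀ v r ∪ ball G₀ w s)ᶜ ∪ {x, y})) := by
        rw [hD, Finset.disjoint_union_left]
        constructor
        · refine DB_disj (x := x) ?_ (by rw [mem_bd.1 hx]; exact lt_irrefl _)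
          intro z hz hz2
          rw [Finset.mem_union, Finset.mem_compl, Finset.mem_insert, Finset.mem_singleton] at hz
          rcases hz with hz | rfl | rfl
          · exact absurd (Finset.mem_union_left _ hz2) hz
          · rfl
          · exact absurd hyb (Finset.disjoint_left.1 hdis hz2)
        · refine DB_disj (x := y) ?_ (by rw [mem_bd.1 hy]; exact lt_irrefl _)
          intro z hz hz2
          rw [Finset.mem_union, Finset.mem_compl, Finset.mem_insert, Finset.mem_singleton] at hz
          rcases hz with hz | rfl | rfl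
          · exact absurd (Finset.mem_union_right _ hz2) hz
          · exact absurd hz2 (Finset.disjoint_left.1 hdis hxb)
          · rfl
      rw [hind n p D _ _ _ hdj (dep_cyl G₀ D)
        (dep_res _ (fun H => if H.Reachable x y then (1 : ℝ) else 0)), ← Pr_eq, ← Pr_eq]
      have e1 : Pr n p (fun G => Cyl G₀ D G) = P := by
        rw [hP]
        congr 1
        funext G
        exact propext (hcls G).symm
      rw [e1]
      refine mul_le_mul_of_nonneg_left ?_ hP0
      exact le_trans (Pr_mono h0 h1 (fun G hG => hG.mono (res_le _ _))) (hτ x y hne)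
    have hsum : ∀ x ∈ bd G₀ v r, Ex n p (fun G => ∑ y ∈ bd G₀ w s, Φ G₀ * ((if Cyl G₀ D G then 1 else 0) *
          (if (res ((ball G₀ v r ∪ ball G₀ w s)ᶜ ∪ {x, y}) G).Reachable x y then 1 else 0))) ≤
          (bd G₀ w s).card * (Φ G₀ * (P * τ)) := by
      intro x hx
      rw [Ex_sum]
      refine le_trans (Finset.sum_le_sum (fun y hy => hxy x hx y hy)) ?_
      rw [Finset.sum_const, nsmul_eq_mul]
    refine le_trans (Finset.sum_le_sum hsum) ?_
    rw [Finset.sum_const, nsmul_eq_mul]
    apply le_of_eq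
    ring
  · have z1 : Ex n p (fun G => if bdat v w r s G = bdat v w r s G₀ then
        (if Disjoint (ball G v r) (ball G w s) ∧ G.Reachable v w then Φ G else 0) else 0) = 0 := by
      rw [show (fun G => if bdat v w r s G = bdat v w r s G₀ then
        (if Disjoint (ball G v r) (ball G w s) ∧ G.Reachable v w then Φ G else 0) else 0) = fun _ => (0 : ℝ) from ?_,
        Ex_const]
      funext G
      by_cases h : bdat v w r s G = bdat v w r s G₀
      · obtain ⟨⟨a1, -⟩, ⟨a3, -⟩⟩ := bdat_eq.1 h
        rw [if_pos h, if_neg]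
        rintro ⟨h2, -⟩
        rw [a1, a3] at h2
        exact hdis h2
      · rw [if_neg h]
    have z2 : Ex n p (fun G => if bdat v w r s G = bdat v w r s G₀ then
        (if Disjoint (ball G v r) (ball G w s) then Φ G * (bd G v r).card * (bd G w s).card else 0) else 0) = 0 := by
      rw [show (fun G => if bdat v w r s G = bdat v w r s G₀ then
        (if Disjoint (ball G v r) (ball G w s) then Φ G * (bd G v r).card * (bd G w s).card else 0) else 0) =
        fun _ => (0 : ℝ) from ?_, Ex_const]
      funext G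
      by_cases h : bdat v w r s G = bdat v w r s G₀
      · obtain ⟨⟨a1, -⟩, ⟨a3, -⟩⟩ := bdat_eq.1 h
        rw [if_pos h, if_neg]
        intro h2
        rw [a1, a3] at h2
        exact hdis h2
      · rw [if_neg h]
    rw [z1, z2, mul_zero]

end Pool.Agent.H249.ER
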