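import Pool.Agent.Q287.SR.Cyl

/-!
# The largest component of the critical random graph: definitions

`Ex n p f` (`Pool.Agent.Q287.SR`, by helper287) is the expectation of `f` under `G(n, p)`: the sum over all graphs `G`
on `Fin n` of `f G` times `∏_e (p or 1 - p)`.
-/

set_option autoImplicit false

open Finset BigOperators MeasureTheory ProbabilityTheory
open scoped Classical

namespace Pool.Agent.H249.ER

open Pool.Agent.Q287.SR (pairs erWeight Ex)

/-- the probability of an event under `G(n, p)` -/
noncomputable def Pr (n : ℕ) (p : ℝ) (A : SimpleGraph (Fin n) → Prop) : ℝ :=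
  Ex n p (fun G => if A G then 1 else 0)

/-- the connected component of `v` -/
noncomputable def comp {n : ℕ} (G : SimpleGraph (Fin n)) (v : Fin n) : Finset (Fin n) :=
  Finset.univ.filter (fun w => G.Reachable v w)

/-- the vertices at distance at most `r` from `v` -/
noncomputable def ball {n : ℕ} (G : SimpleGraph (Fin n)) (v : Fin n) (r : ℕ) : Finset (Fin n) :=
  Finset.univ.filter (fun w => G.edist v w ≤ (r : ℕ∞))

/-- the vertices at distance `r` from `v` -/
noncomputable def bd {n : ℕ} (G : SimpleGraph (Fin n)) (v : Fin n) (r : ℕ) : Finset (Fin n) :=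
  Finset.univ.filter (fun w => G.edist v w = (r : ℕ∞))

/-- the graph on all vertices with the edges of `G` inside `A` -/
def res {n : ℕ} (A : Finset (Fin n)) (G : SimpleGraph (Fin n)) : SimpleGraph (Fin n) where
  Adj x y := G.Adj x y ∧ x ∈ A ∧ y ∈ A
  symm := ⟨fun _ _ h => ⟨h.1.symm, h.2.2, h.2.1⟩⟩
  loopless := ⟨fun x h => G.loopless.irrefl x h.1⟩

/-- `B_r(G, v) ≅ (F, u)`: there is an isomorphism from `F` to the subgraph of `G` induced by the vertices at distance
at most `r` from `v`, which takes `u` to `v`. -/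
def BallIso {V W : Type} (G : SimpleGraph V) (v : V) (r : ℕ) (F : SimpleGraph W) (u : W) : Prop :=
  ∃ e : F ≃g G.induce {x | G.edist v x ≤ (r : ℕ∞)}, (e u : V) = v

/-- the same, with the isomorphism given as a map `f : W → V` -/
def Emb {V W : Type} (G : SimpleGraph V) (v : V) (r : ℕ) (F : SimpleGraph W) (u : W) (f : W → V) : Prop :=
  Function.Injective f ∧ f u = v ∧ (∀ x y, G.Adj (f x) (f y) ↔ F.Adj x y) ∧
    Set.range f = {x | G.edist v x ≤ (r : ℕ∞)}

/-- `C` is a largest connected component of `G` -/
def IsLargest {n : ℕ} (G : SimpleGraph (Fin n)) (C : Finset (Fin n)) : Prop :=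
  (∃ v, C = comp G v) ∧ ∀ v, (comp G v).card ≤ C.card

/-- the edge probability `1/n + λ/n^(4/3)` -/
noncomputable def pc (lam : ℝ) (n : ℕ) : ℝ := 1 / n + lam / (n : ℝ) ^ (4 / 3 : ℝ)

/-! ### The tree with one infinite ray -/

/-- `ω (j, w)` is the number of children of the word `w` in the `j`-th Galton–Watson tree; the children are the words
`i :: w`, `i < ω (j, w)`. -/
def inT (ω : ℕ × List ℕ → ℕ) (j : ℕ) : List ℕ → Prop
  | [] => True
  | i :: w => inT ω j w ∧ i < ω (j, w)

/-- The tree `T_∞` with root `(0, [])`: the ray `(0, []), (1, []), (2, []), …`, and for every `j` the Galton–Watson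
tree of the words `(j, w)` with the root `(j, [])`. Hence `(j, [])` has the child `(j + 1, [])` and `ω (j, [])` other
children. (The pairs which are not in the tree are isolated vertices.) -/
def kesten (ω : ℕ × List ℕ → ℕ) : SimpleGraph (ℕ × List ℕ) where
  Adj a b := (a.2 = [] ∧ b = (a.1 + 1, [])) ∨ (b.2 = [] ∧ a = (b.1 + 1, [])) ∨
    (∃ i, b = (a.1, i :: a.2) ∧ inT ω a.1 (i :: a.2)) ∨ (∃ i, a = (b.1, i :: b.2) ∧ inT ω b.1 (i :: b.2))
  symm := ⟨by
    rintro a b (h | h | h | h)
    · exact Or.inr (Or.inl h)
    · exact Or.inl h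
    · exact Or.inr (Or.inr (Or.inr h))
    · exact Or.inr (Or.inr (Or.inl h))⟩
  loopless := ⟨by
    rintro ⟨j, w⟩ (h | h | ⟨i, h, -⟩ | ⟨i, h, -⟩)
    · have := congrArg Prod.fst h.2
      simp at this
    · have := congrArg Prod.fst h.2
      simp at this
    · have := congrArg (fun x => x.2.length) h
      simp at this
    · have := congrArg (fun x => x.2.length) h
      simp at this⟩

/-- the law of independent Poisson variables of parameter `1` -/
noncomputable def poi : Measure (ℕ × List ℕ → ℕ) :=
  Measure.infinitePi (fun _ : ℕ × List ℕ => poissonMeasure 1)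

/-! ### Rooted finite graphs -/

/-- all vertices of `F` are at distance at most `r` from `u` -/
def Cov {m : ℕ} (F : SimpleGraph (Fin m)) (u : Fin m) (r : ℕ) : Prop := ∀ x, F.edist u x ≤ (r : ℕ∞)

/-- the number of automorphisms of `(F, u)` -/
noncomputable def aut {m : ℕ} (F : SimpleGraph (Fin m)) (u : Fin m) : ℕ := Nat.card {e : F ≃g F // e u = u}

/-- The probability `|∂F| e^{-(m - |∂F|)} / |Aut(F, u)|` of `(F, u)` as the ball of radius `r` of `T_∞`; `∂F` is the
set of the vertices at distance `r` from `u`. It is zero if `F` is not a tree of height at most `r`. -/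
noncomputable def alpha {m : ℕ} (F : SimpleGraph (Fin m)) (u : Fin m) (r : ℕ) : ℝ :=
  if F.IsTree ∧ Cov F u r then ((bd F u r).card : ℝ) * Real.exp (-((m : ℝ) - (bd F u r).card)) / aut F u else 0

end Pool.Agent.H249.ER
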