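import Pool.Agent.H249.ER.Two

/-! # The deviation for two connected vertices -/

set_option autoImplicit false

open Finset BigOperators
open scoped Classical

namespace Pool.Agent.H249.ER

open Pool.Agent.Q287.SR (pairs erWeight Ex Ex_const Ex_add Ex_mul Ex_sum Ex_mono Ex_nonneg)

lemma ind_dat (hba2 : S_BA2) {n : ℕ} {G G₀ : SimpleGraph (Fin n)} {v : Fin n} {r m : ℕ} {F : SimpleGraph (Fin m)}
    {u : Fin m} (h : res (ball G v r) G = res (ball G₀ v r) G₀) : ind G v r F u = ind G₀ v r F u := by
  unfold ind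
  have := ballIso_dat hba2 (F := F) (u := u) h
  by_cases h2 : BallIso G v r F u
  · rw [if_pos h2, if_pos (this.1 h2)]
  · rw [if_neg h2, if_neg (fun h3 => h2 (this.2 h3))]

lemma ball_zero {n : ℕ} (G : SimpleGraph (Fin n)) (w : Fin n) : ball G w 0 = {w} := by
  ext x
  rw [mem_ball, edist_zero, Finset.mem_singleton, eq_comm]

lemma bd_zero {n : ℕ} (G : SimpleGraph (Fin n)) (w : Fin n) : bd G w 0 = {w} := by
  ext x
  rw [mem_bd, Nat.cast_zero, SimpleGraph.edist_eq_zero_iff, Finset.mem_singleton, eq_comm]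

lemma ind_bd (hba3 : S_BA3) {n : ℕ} (G : SimpleGraph (Fin n)) (v : Fin n) (r : ℕ) {m : ℕ} (F : SimpleGraph (Fin m))
    (u : Fin m) : ind G v r F u * (bd G v r).card = ind G v r F u * (bd F u r).card := by
  unfold ind
  by_cases h : BallIso G v r F u
  · rw [if_pos h, (hba3 n G v r m F u h).2.1]
  · rw [if_neg h, zero_mul, zero_mul]

lemma Ex_ind {n : ℕ} (p : ℝ) (v : Fin n) (r : ℕ) {m : ℕ} (F : SimpleGraph (Fin m)) (u : Fin m) :
    Ex n p (fun G => ind G v r F u) = Pr n p (fun G => BallIso G v r F u) := by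
  rw [Pr_eq]
  rfl

/-- lower bound for one ball -/
lemma one_lower (hsy2 : S_SY2) (hcon : S_CON) (hba2 : S_BA2) (hba3 : S_BA3) (hdi2 : S_DI2) {n : ℕ} {p : ℝ}
    (h0 : 0 ≤ p) (h1 : p < 1) {v w : Fin n} (hvw : v ≠ w) (r : ℕ) {m : ℕ} (F : SimpleGraph (Fin m)) (u : Fin m) :
    Pr n p (fun G => G.Reachable v w) * (1 - ((n * p) ^ r - (bd F u r).card * Pr n p (fun G => BallIso G v r F u))) -
      Pr n p (fun G => G.edist v w ≤ ((2 * r : ℕ) : ℕ∞)) ≤
    Ex n p (fun G => if G.Reachable v w then ind G v r F u else 0) := by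
  set τ := Pr n p (fun G => G.Reachable v w) with hτ
  set e := Pr n p (fun G => G.edist v w ≤ ((2 * r : ℕ) : ℕ∞)) with he
  have hτ0 : 0 ≤ τ := Pr_nonneg h0 h1.le _
  have s1 : Ex n p (fun G => if G.Reachable v w then ind G v r F u else 0) =
      τ - Ex n p (fun G => if G.Reachable v w then 1 - ind G v r F u else 0) := by
    rw [hτ, Pr_eq, ← Ex_sub]
    congr 1
    funext G
    split_ifs <;> ring
  have hdet : BallDet v w r 0 (fun G => 1 - ind G v r F u) := by
    intro G G' _ h2 _ _
    show 1 - ind G v r F u = 1 - ind G' v r F u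
    rw [ind_dat hba2 h2]
  have s2 := hcon n p h0 h1.le v w r 0 τ (fun x y hxy => le_of_eq (hsy2 n p x y v w hxy hvw))
    (fun G => 1 - ind G v r F u) (fun G => sub_nonneg.2 (ind_le_one G v r F u)) hdet
  have s3 : Ex n p (fun G => if G.Reachable v w then 1 - ind G v r F u else 0) ≤
      e + Ex n p (fun G => if Disjoint (ball G v r) (ball G w 0) ∧ G.Reachable v w then 1 - ind G v r F u else 0) := by
    rw [he, Pr_eq, ← Ex_add]
    refine Ex_mono h0 h1.le (fun G => ?_)
    have i0 := ind_nonneg G v r F u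
    have i1 := ind_le_one G v r F u
    have hE : (0 : ℝ) ≤ if G.edist v w ≤ ((2 * r : ℕ) : ℕ∞) then 1 else 0 := by split_ifs <;> norm_num
    by_cases hR : G.Reachable v w
    · rw [if_pos hR]
      by_cases hD : Disjoint (ball G v r) (ball G w 0)
      · rw [if_pos (c := Disjoint (ball G v r) (ball G w 0) ∧ G.Reachable v w) ⟨hD, hR⟩]
        linarith
      · have : G.edist v w ≤ ((2 * r : ℕ) : ℕ∞) := by
          rw [ball_zero, Finset.disjoint_singleton_right, not_not, mem_ball] at hD
          exact le_trans hD (by exact_mod_cast (show r ≤ 2 * r by omega))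
        rw [if_pos this, if_neg (c := Disjoint (ball G v r) (ball G w 0) ∧ G.Reachable v w) (fun h => hD h.1)]
        linarith
    · rw [if_neg hR, if_neg (c := Disjoint (ball G v r) (ball G w 0) ∧ G.Reachable v w) (fun h => hR h.2)]
      linarith
  have s4 : Ex n p (fun G => if Disjoint (ball G v r) (ball G w 0) then
      (1 - ind G v r F u) * (bd G v r).card * (bd G w 0).card else 0) ≤
      (n * p) ^ r - (bd F u r).card * Pr n p (fun G => BallIso G v r F u) := by
    have s5 : Ex n p (fun G => if Disjoint (ball G v r) (ball G w 0) then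
      (1 - ind G v r F u) * (bd G v r).card * (bd G w 0).card else 0) ≤
      Ex n p (fun G => ((bd G v r).card : ℝ) - (bd F u r).card * ind G v r F u) := by
      refine Ex_mono h0 h1.le (fun G => ?_)
      have e1 : ((bd G v r).card : ℝ) - (bd F u r).card * ind G v r F u = (1 - ind G v r F u) * (bd G v r).card := by
        have := ind_bd hba3 G v r F u
        linarith
      rw [e1, bd_zero, Finset.card_singleton, Nat.cast_one, mul_one]
      have i1 := sub_nonneg.2 (ind_le_one G v r F u)
      split_ifs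
      · exact le_refl _
      · exact mul_nonneg i1 (by positivity)
    refine le_trans s5 ?_
    rw [Ex_sub, Ex_mul, Ex_ind]
    have := hdi2 n p h0 h1.le v r
    linarith
  have s6 := mul_le_mul_of_nonneg_left s4 hτ0
  rw [s1]
  linarith

theorem t_DEV (hsy2 : S_SY2) (hsy3 : S_SY3) (hcon : S_CON) (htwo : S_TWO) (hba2 : S_BA2) (hba3 : S_BA3)
    (hdi2 : S_DI2) : S_DEV := by
  intro n p h0 h1 v w hvw r m F u a ha
  set τ := Pr n p (fun G => G.Reachable v w) with hτ
  set e := Pr n p (fun G => G.edist v w ≤ ((2 * r : ℕ) : ℕ∞)) with he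
  set q := Pr n p (fun G => BallIso G v r F u) with hq
  have hq' : Pr n p (fun G => BallIso G w r F u) = q := hsy3 n p w v r m F u
  set b : ℝ := ((bd F u r).card : ℝ) with hb
  have hb0 : 0 ≤ b := by positivity
  have hτ0 : 0 ≤ τ := Pr_nonneg h0 h1.le _
  have hq0 : 0 ≤ q := Pr_nonneg h0 h1.le _
  have ha0 : 0 ≤ a := by rw [ha]; exact mul_nonneg hb0 hq0
  -- expansion
  have x1 : Ex n p (fun G => if G.Reachable v w then (ind G v r F u - a) * (ind G w r F u - a) else 0) =
      Ex n p (fun G => if G.Reachable v w then ind G v r F u * ind G w r F u else 0) +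
      ((-a) * Ex n p (fun G => if G.Reachable v w then ind G v r F u else 0) +
      ((-a) * Ex n p (fun G => if G.Reachable v w then ind G w r F u else 0) + a ^ 2 * τ)) := by
    rw [hτ, Pr_eq, ← Ex_mul, ← Ex_mul, ← Ex_mul, ← Ex_add, ← Ex_add, ← Ex_add]
    congr 1
    funext G
    split_ifs <;> ring
  -- the lower bounds
  have l1 := one_lower hsy2 hcon hba2 hba3 hdi2 h0 h1 hvw r F u
  have l2 := one_lower hsy2 hcon hba2 hba3 hdi2 h0 h1 hvw.symm r F u
  rw [← hτ, ← he, ← hq, ← hb, ← ha] at l1
  have c1 : Pr n p (fun G => G.Reachable w v) = τ := by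
    rw [hτ]
    congr 1
    funext G
    exact propext ⟨fun h => h.symm, fun h => h.symm⟩
  have c2 : Pr n p (fun G => G.edist w v ≤ ((2 * r : ℕ) : ℕ∞)) = e := by
    rw [he]
    congr 1
    funext G
    rw [SimpleGraph.edist_comm]
  have c3 : Ex n p (fun G => if G.Reachable w v then ind G w r F u else 0) =
      Ex n p (fun G => if G.Reachable v w then ind G w r F u else 0) := by
    congr 1
    funext G
    by_cases h : G.Reachable v w
    · rw [if_pos h, if_pos h.symm]
    · rw [if_neg h, if_neg (fun h2 => h h2.symm)]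
  rw [c1, c2, c3, hq', ← hb, ← ha] at l2
  -- the upper bound
  have u1 : Ex n p (fun G => if G.Reachable v w then ind G v r F u * ind G w r F u else 0) ≤
      e + Ex n p (fun G => if Disjoint (ball G v r) (ball G w r) ∧ G.Reachable v w then
        ind G v r F u * ind G w r F u else 0) := by
    rw [he, Pr_eq, ← Ex_add]
    refine Ex_mono h0 h1.le (fun G => ?_)
    have i0 := ind_nonneg G v r F u
    have i1 := ind_le_one G v r F u
    have j0 := ind_nonneg G w r F u
    have j1 := ind_le_one G w r F u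
    have ij : ind G v r F u * ind G w r F u ≤ 1 := by nlinarith
    have hE : (0 : ℝ) ≤ if G.edist v w ≤ ((2 * r : ℕ) : ℕ∞) then 1 else 0 := by split_ifs <;> norm_num
    by_cases hR : G.Reachable v w
    · rw [if_pos hR]
      by_cases hD : Disjoint (ball G v r) (ball G w r)
      · rw [if_pos (c := Disjoint (ball G v r) (ball G w r) ∧ G.Reachable v w) ⟨hD, hR⟩]
        linarith
      · have : G.edist v w ≤ ((2 * r : ℕ) : ℕ∞) := by
          rw [Finset.not_disjoint_iff] at hD
          obtain ⟨x, hx, hx'⟩ := hD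
          rw [mem_ball] at hx hx'
          refine le_trans (SimpleGraph.edist_triangle (v := x)) ?_
          rw [SimpleGraph.edist_comm (u := x) (v := w)]
          refine le_trans (add_le_add hx hx') ?_
          exact_mod_cast (show r + r ≤ 2 * r by omega)
        rw [if_pos this, if_neg (c := Disjoint (ball G v r) (ball G w r) ∧ G.Reachable v w) (fun h => hD h.1)]
        linarith
    · rw [if_neg hR, if_neg (c := Disjoint (ball G v r) (ball G w r) ∧ G.Reachable v w) (fun h => hR h.2)]
      linarith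
  have hdet : BallDet v w r r (fun G => ind G v r F u * ind G w r F u) := by
    intro G G' _ h2 _ h4
    show ind G v r F u * ind G w r F u = ind G' v r F u * ind G' w r F u
    rw [ind_dat hba2 h2, ind_dat hba2 h4]
  have u2 := hcon n p h0 h1.le v w r r τ (fun x y hxy => le_of_eq (hsy2 n p x y v w hxy hvw))
    (fun G => ind G v r F u * ind G w r F u)
    (fun G => mul_nonneg (ind_nonneg G v r F u) (ind_nonneg G w r F u)) hdet
  have u3 : Ex n p (fun G => if Disjoint (ball G v r) (ball G w r) then
      ind G v r F u * ind G w r F u * (bd G v r).card * (bd G w r).card else 0) =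
      b ^ 2 * Pr n p (fun G => BallIso G v r F u ∧ BallIso G w r F u ∧ Disjoint (ball G v r) (ball G w r)) := by
    rw [Pr_eq, ← Ex_mul]
    congr 1
    funext G
    by_cases hD : Disjoint (ball G v r) (ball G w r)
    · rw [if_pos hD]
      have e1 : ind G v r F u * ind G w r F u * (bd G v r).card * (bd G w r).card =
          (ind G v r F u * (bd G v r).card) * (ind G w r F u * (bd G w r).card) := by ring
      rw [e1, ind_bd hba3, ind_bd hba3, ← hb]
      unfold ind
      by_cases h1 : BallIso G v r F u <;> by_cases h2 : BallIso G w r F u <;> simp [h1, h2, hD] <;> ring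
    · rw [if_neg hD, if_neg (fun h => hD h.2.2), mul_zero]
  have u4 := htwo n p h0 h1 v w r m F u
  rw [hq', ← hq] at u4
  have hpm : 0 < (1 - p) ^ (m ^ 2) := by apply pow_pos; linarith
  have u5 : Pr n p (fun G => BallIso G v r F u ∧ BallIso G w r F u ∧ Disjoint (ball G v r) (ball G w r)) ≤
      q * q * ((1 - p) ^ (m ^ 2))⁻¹ := by
    rw [← div_eq_mul_inv, le_div_iff₀ hpm]
    exact u4
  have u6 : Ex n p (fun G => if G.Reachable v w then ind G v r F u * ind G w r F u else 0) ≤
      e + τ * (a ^ 2 * ((1 - p) ^ (m ^ 2))⁻¹) := by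
    refine le_trans u1 (add_le_add le_rfl (le_trans u2 ?_))
    refine mul_le_mul_of_nonneg_left ?_ hτ0
    rw [u3, ha]
    calc b ^ 2 * _ ≤ b ^ 2 * (q * q * ((1 - p) ^ (m ^ 2))⁻¹) := mul_le_mul_of_nonneg_left u5 (sq_nonneg _)
      _ = (b * q) ^ 2 * ((1 - p) ^ (m ^ 2))⁻¹ := by ring
  rw [x1]
  have m1 := mul_le_mul_of_nonneg_left l1 ha0
  have m2 := mul_le_mul_of_nonneg_left l2 ha0
  nlinarith

end Pool.Agent.H249.ER
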