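import Pool.Agent.H249.ER.Two

/-! # Distances -/

set_option autoImplicit false

open Finset BigOperators
open scoped Classical

namespace Pool.Agent.H249.ER

open Pool.Agent.Q287.SR (pairs erWeight Ex Ex_const Ex_add Ex_mul Ex_sum Ex_mono Ex_nonneg present Ex_present)

lemma Pr_adj {n : ℕ} (p : ℝ) {x w : Fin n} (h : x ≠ w) : Ex n p (fun G => if G.Adj x w then (1 : ℝ) else 0) = p := by
  have h1 := Ex_present p (D := ({s(x, w)} : Finset (Sym2 (Fin n)))) (by
    intro e he
    rw [Finset.mem_singleton] at he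
    rw [he]
    simp only [pairs, Finset.mem_filter, Finset.mem_univ, true_and, Sym2.mk_isDiag_iff]
    exact h)
  rw [Finset.card_singleton, pow_one] at h1
  rw [← h1]
  congr 1
  funext G
  unfold present
  by_cases hG : G.Adj x w
  · rw [if_pos hG, if_pos]
    intro e he
    rw [Finset.mem_singleton] at he
    rw [he]
    exact hG
  · rw [if_neg hG, if_neg]
    intro h2
    exact hG (h2 s(x, w) (Finset.mem_singleton_self _))

lemma dep_adj {n : ℕ} (x w : Fin n) :
    Dep ({s(x, w)} : Finset (Sym2 (Fin n))) (fun G => if G.Adj x w then (1 : ℝ) else 0) := by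
  intro G G' h
  have h1 := h s(x, w) (Finset.mem_singleton_self _)
  rw [SimpleGraph.mem_edgeSet, SimpleGraph.mem_edgeSet] at h1
  show (if G.Adj x w then (1 : ℝ) else 0) = (if G'.Adj x w then (1 : ℝ) else 0)
  by_cases h2 : G.Adj x w
  · rw [if_pos h2, if_pos (h1.1 h2)]
  · rw [if_neg h2, if_neg (fun h3 => h2 (h1.2 h3))]

lemma Ex_classes1 {n : ℕ} (p : ℝ) (v : Fin n) (r : ℕ) (f : SimpleGraph (Fin n) → ℝ) :
    Ex n p f = ∑ d ∈ Finset.univ.image (odat v r), Ex n p (fun G => if odat v r G = d then f G else 0) := by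
  rw [← Ex_sum]
  congr 1
  funext G
  rw [Finset.sum_ite_eq]
  rw [if_pos (Finset.mem_image_of_mem _ (Finset.mem_univ G))]

/-- an edge from the boundary to a vertex outside -/
lemma edge_out (hind : S_IND) (hba : S_BA1) (hcyb : S_CYB) {n : ℕ} (p : ℝ) (v x w : Fin n) (k : ℕ) :
    Ex n p (fun G => (if x ∈ bd G v k ∧ w ∉ ball G v k then (1 : ℝ) else 0) * (if G.Adj x w then 1 else 0)) =
      p * Ex n p (fun G => if x ∈ bd G v k ∧ w ∉ ball G v k then (1 : ℝ) else 0) := by
  rw [Ex_classes1 p v k, Ex_classes1 p v k (fun G => if x ∈ bd G v k ∧ w ∉ ball G v k then (1 : ℝ) else 0),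
    Finset.mul_sum]
  refine Finset.sum_congr rfl (fun d hd => ?_)
  obtain ⟨G₀, _, rfl⟩ := Finset.mem_image.1 hd
  have hcls : ∀ G, odat v k G = odat v k G₀ ↔ Cyl G₀ (DB G₀ v k) G := by
    intro G
    rw [odat_eq, hcyb]
  have hsame : ∀ G, odat v k G = odat v k G₀ →
      ((x ∈ bd G v k ∧ w ∉ ball G v k) ↔ (x ∈ bd G₀ v k ∧ w ∉ ball G₀ v k)) := by
    intro G h
    obtain ⟨a1, a2⟩ := odat_eq.1 h
    rw [bd_eq hba a1 a2, a1]
  by_cases h0 : x ∈ bd G₀ v k ∧ w ∉ ball G₀ v k
  · have hxb : x ∈ ball G₀ v k := mem_ball.2 (mem_bd.1 h0.1).le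
    have hne : x ≠ w := by
      rintro rfl
      exact h0.2 hxb
    have hdj : Disjoint (DB G₀ v k) ({s(x, w)} : Finset (Sym2 (Fin n))) := by
      rw [Finset.disjoint_singleton_right]
      intro h
      unfold DB at h
      rw [Finset.mem_filter] at h
      rcases h.2 with h2 | ⟨z, hz, hz2⟩
      · exact h0.2 (h2 w (by simp))
      · rw [Sym2.mem_iff] at hz
        rcases hz with rfl | rfl
        · rw [mem_bd.1 h0.1] at hz2
          exact lt_irrefl _ hz2
        · exact h0.2 (mem_ball.2 hz2.le)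
    have e1 : Ex n p (fun G => if odat v k G = odat v k G₀ then
        (if x ∈ bd G v k ∧ w ∉ ball G v k then (1 : ℝ) else 0) * (if G.Adj x w then 1 else 0) else 0) =
        Ex n p (fun G => (if Cyl G₀ (DB G₀ v k) G then (1 : ℝ) else 0) * (if G.Adj x w then 1 else 0)) := by
      congr 1
      funext G
      by_cases h : odat v k G = odat v k G₀
      · rw [if_pos h, if_pos ((hsame G h).2 h0), if_pos ((hcls G).1 h)]
      · rw [if_neg h, if_neg (fun h2 => h ((hcls G).2 h2)), zero_mul]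
    have e2 : Ex n p (fun G => if odat v k G = odat v k G₀ then
        (if x ∈ bd G v k ∧ w ∉ ball G v k then (1 : ℝ) else 0) else 0) =
        Ex n p (fun G => (if Cyl G₀ (DB G₀ v k) G then (1 : ℝ) else 0)) := by
      congr 1
      funext G
      by_cases h : odat v k G = odat v k G₀
      · rw [if_pos h, if_pos ((hsame G h).2 h0), if_pos ((hcls G).1 h)]
      · rw [if_neg h, if_neg (fun h2 => h ((hcls G).2 h2))]
    rw [e1, e2, hind n p _ _ _ _ hdj (dep_cyl G₀ _) (dep_adj x w), Pr_adj p hne, mul_comm]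
  · have e1 : Ex n p (fun G => if odat v k G = odat v k G₀ then
        (if x ∈ bd G v k ∧ w ∉ ball G v k then (1 : ℝ) else 0) * (if G.Adj x w then 1 else 0) else 0) = 0 := by
      rw [show (fun G => if odat v k G = odat v k G₀ then
        (if x ∈ bd G v k ∧ w ∉ ball G v k then (1 : ℝ) else 0) * (if G.Adj x w then 1 else 0) else 0) =
        fun _ => 0 from ?_, Ex_const]
      funext G
      by_cases h : odat v k G = odat v k G₀
      · rw [if_pos h, if_neg (fun h2 => h0 ((hsame G h).1 h2)), zero_mul]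
      · rw [if_neg h]
    have e2 : Ex n p (fun G => if odat v k G = odat v k G₀ then
        (if x ∈ bd G v k ∧ w ∉ ball G v k then (1 : ℝ) else 0) else 0) = 0 := by
      rw [show (fun G => if odat v k G = odat v k G₀ then
        (if x ∈ bd G v k ∧ w ∉ ball G v k then (1 : ℝ) else 0) else 0) =
        fun _ => 0 from ?_, Ex_const]
      funext G
      by_cases h : odat v k G = odat v k G₀
      · rw [if_pos h, if_neg (fun h2 => h0 ((hsame G h).1 h2))]
      · rw [if_neg h]
    rw [e1, e2, mul_zero]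

lemma step_bd (hind : S_IND) (hba : S_BA1) (hcyb : S_CYB) {n : ℕ} {p : ℝ} (h0 : 0 ≤ p) (h1 : p ≤ 1) (v w : Fin n)
    (k : ℕ) : Pr n p (fun G => G.edist v w = ((k + 1 : ℕ) : ℕ∞)) ≤ p * Ex n p (fun G => ((bd G v k).card : ℝ)) := by
  have e1 : Pr n p (fun G => G.edist v w = ((k + 1 : ℕ) : ℕ∞)) ≤
      Ex n p (fun G => ∑ x, (if x ∈ bd G v k ∧ w ∉ ball G v k then (1 : ℝ) else 0) * (if G.Adj x w then 1 else 0)) := by
    rw [Pr_eq]
    refine Ex_mono h0 h1 (fun G => ?_)
    have hnn : ∀ x ∈ (Finset.univ : Finset (Fin n)), (0 : ℝ) ≤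
        (if x ∈ bd G v k ∧ w ∉ ball G v k then (1 : ℝ) else 0) * (if G.Adj x w then 1 else 0) := by
      intro x _
      refine mul_nonneg ?_ ?_ <;> split_ifs <;> norm_num
    by_cases h : G.edist v w = ((k + 1 : ℕ) : ℕ∞)
    · rw [if_pos h]
      obtain ⟨hle, hlt⟩ := (eq_iff_le _ _).1 h
      have hw : w ∉ ball G v k := fun h2 => hlt k (Nat.lt_succ_self k) (mem_ball.1 h2)
      obtain ⟨y, hy, rfl | hadj⟩ := (edist_succ G v w k).1 hle
      · exact absurd (mem_ball.2 hy) hw
      · have hyb : y ∈ bd G v k := by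
          rw [mem_bd, eq_iff_le]
          refine ⟨hy, fun j hj h2 => ?_⟩
          apply hlt (j + 1) (by omega)
          exact (edist_succ G v w j).2 ⟨y, h2, Or.inr hadj⟩
        refine le_trans (le_of_eq ?_) (Finset.single_le_sum hnn (Finset.mem_univ y))
        rw [if_pos ⟨hyb, hw⟩, if_pos hadj, mul_one]
    · rw [if_neg h]
      exact Finset.sum_nonneg hnn
  refine le_trans e1 ?_
  rw [Ex_sum, Finset.sum_congr rfl (fun x _ => edge_out hind hba hcyb p v x w k), ← Finset.mul_sum, ← Ex_sum]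
  refine mul_le_mul_of_nonneg_left (Ex_mono h0 h1 (fun G => ?_)) h0
  have : ((bd G v k).card : ℝ) = ∑ x, if x ∈ bd G v k then (1 : ℝ) else 0 := by
    rw [Finset.sum_ite_mem, Finset.univ_inter, Finset.sum_const, nsmul_eq_mul, mul_one]
  rw [this]
  refine Finset.sum_le_sum (fun x _ => ?_)
  by_cases hx : x ∈ bd G v k
  · rw [if_pos hx]
    split_ifs <;> norm_num
  · rw [if_neg hx, if_neg (fun h => hx h.1)]

theorem t_DI2 (hind : S_IND) (hba : S_BA1) (hcyb : S_CYB) : S_DI2 := by
  intro n p h0 h1 v k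
  induction k with
  | zero =>
    have : (fun G : SimpleGraph (Fin n) => ((bd G v 0).card : ℝ)) = fun _ => 1 := by
      funext G
      have : bd G v 0 = {v} := by
        ext x
        rw [mem_bd, Nat.cast_zero, SimpleGraph.edist_eq_zero_iff, Finset.mem_singleton, eq_comm]
      rw [this]
      simp
    rw [this, Ex_const, pow_zero]
  | succ k ih =>
    have e1 : Ex n p (fun G => ((bd G v (k + 1)).card : ℝ)) = ∑ w, Pr n p (fun G => G.edist v w = ((k + 1 : ℕ) : ℕ∞)) := by
      rw [Finset.sum_congr rfl (fun w _ => Pr_eq p (fun G => G.edist v w = ((k + 1 : ℕ) : ℕ∞))), ← Ex_sum]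
      congr 1
      funext G
      rw [bd, Finset.card_filter]
      push_cast
      rfl
    rw [e1]
    refine le_trans (Finset.sum_le_sum (fun w _ => step_bd hind hba hcyb h0 h1 v w k)) ?_
    rw [Finset.sum_const, Finset.card_univ, Fintype.card_fin, nsmul_eq_mul, pow_succ]
    have hnp : 0 ≤ (n : ℝ) * p := by positivity
    nlinarith

theorem t_DI1 (hind : S_IND) (hba : S_BA1) (hcyb : S_CYB) : S_DI1 := by
  intro n p h0 h1 v w _ k hk
  obtain ⟨j, rfl⟩ : ∃ j, k = j + 1 := ⟨k - 1, by omega⟩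
  refine le_trans (step_bd hind hba hcyb h0 h1 v w j) ?_
  rw [Nat.add_sub_cancel]
  have := mul_le_mul_of_nonneg_left (t_DI2 hind hba hcyb n p h0 h1 v j) h0
  refine le_trans this (le_of_eq ?_)
  rw [mul_pow, pow_succ]
  ring

theorem t_DI3 (hdi1 : S_DI1) : S_DI3 := by
  intro n p h0 h1 v w hvw R
  refine le_trans ?_ (Finset.sum_le_sum (fun k hk => hdi1 n p h0 h1 v w hvw k (Finset.mem_Icc.1 hk).1))
  rw [Finset.sum_congr rfl (fun (k : ℕ) _ => Pr_eq p (fun G => G.edist v w = (k : ℕ∞))), ← Ex_sum, Pr_eq]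
  refine Ex_mono h0 h1 (fun G => ?_)
  have hnn : ∀ k ∈ Finset.Icc 1 R, (0 : ℝ) ≤ if G.edist v w = (k : ℕ∞) then 1 else 0 := by
    intro k _
    split_ifs <;> norm_num
  by_cases h : G.edist v w ≤ (R : ℕ∞)
  · rw [if_pos h]
    obtain ⟨d, hd⟩ := ENat.ne_top_iff_exists.1 (ne_top_of_le_ne_top (ENat.natCast_ne_top _) h)
    have hdR : d ≤ R := by rw [← hd] at h; exact_mod_cast h
    have hd1 : 1 ≤ d := by
      rw [Nat.one_le_iff_ne_zero]
      rintro rfl
      apply hvw
      rw [← SimpleGraph.edist_eq_zero_iff (G := G), ← hd]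
      rfl
    refine le_trans (le_of_eq ?_) (Finset.single_le_sum hnn (Finset.mem_Icc.2 ⟨hd1, hdR⟩))
    rw [if_pos hd.symm]
  · rw [if_neg h]
    exact Finset.sum_nonneg hnn

end Pool.Agent.H249.ER
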