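import Pool.Agent.H249.ER.Stm

/-!
# The proportion of the vertices of the largest component with a given ball
-/

set_option autoImplicit false

open Finset BigOperators MeasureTheory ProbabilityTheory Filter
open scoped Classical Topology

namespace Pool.Agent.H249.ER

open Pool.Agent.Q287.SR (pairs erWeight Ex Ex_const Ex_add Ex_mul Ex_sum Ex_mono Ex_nonneg erWeight_nonneg)

/-! ## Expectations -/

lemma Pr_eq {n : ℕ} (p : ℝ) (A : SimpleGraph (Fin n) → Prop) [∀ G, Decidable (A G)] :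
    Pr n p A = Ex n p (fun G => if A G then 1 else 0) := by
  unfold Pr
  congr 1
  funext G
  split_ifs <;> rfl

lemma Pr_nonneg {n : ℕ} {p : ℝ} (h0 : 0 ≤ p) (h1 : p ≤ 1) (A : SimpleGraph (Fin n) → Prop) : 0 ≤ Pr n p A :=
  Ex_nonneg h0 h1 (fun G => by split_ifs <;> norm_num)

lemma Pr_mono {n : ℕ} {p : ℝ} (h0 : 0 ≤ p) (h1 : p ≤ 1) {A B : SimpleGraph (Fin n) → Prop} (h : ∀ G, A G → B G) :
    Pr n p A ≤ Pr n p B :=
  Ex_mono h0 h1 (fun G => by
    by_cases hA : A G
    · simp [hA, h G hA]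
    · rw [if_neg hA]; split_ifs <;> norm_num)

lemma Pr_le_one {n : ℕ} {p : ℝ} (h0 : 0 ≤ p) (h1 : p ≤ 1) (A : SimpleGraph (Fin n) → Prop) : Pr n p A ≤ 1 := by
  have h : Pr n p A ≤ Ex n p (fun _ => 1) := Ex_mono h0 h1 (fun G => by split_ifs <;> norm_num)
  rwa [Ex_const] at h

lemma Ex_sub {n : ℕ} (p : ℝ) (f g : SimpleGraph (Fin n) → ℝ) :
    Ex n p (fun G => f G - g G) = Ex n p f - Ex n p g := by
  have h := Ex_add p (fun G => f G - g G) g
  simp only [sub_add_cancel] at h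
  linarith [show Ex n p (fun G => f G) = Ex n p f from rfl]

lemma comp_card_pos {n : ℕ} (G : SimpleGraph (Fin n)) (v : Fin n) : 0 < (comp G v).card :=
  Finset.card_pos.2 ⟨v, by simp [comp]⟩

lemma comp_card_le {n : ℕ} (G : SimpleGraph (Fin n)) (v : Fin n) : (comp G v).card ≤ n := by
  have := Finset.card_le_univ (comp G v)
  simpa using this

/-- expectation of a function of the size of the component -/
lemma Ex_K {n : ℕ} (p : ℝ) (v : Fin n) (g : ℕ → ℝ) :
    Ex n p (fun G => g (comp G v).card) =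
      ∑ k ∈ Finset.Icc 1 n, Pr n p (fun G => (comp G v).card = k) * g k := by
  have h : ∀ G : SimpleGraph (Fin n), g (comp G v).card =
      ∑ k ∈ Finset.Icc 1 n, g k * (if (comp G v).card = k then (1 : ℝ) else 0) := by
    intro G
    rw [Finset.sum_eq_single (comp G v).card]
    · simp
    · intro k _ hk
      rw [if_neg (Ne.symm hk), mul_zero]
    · intro hk
      exact absurd (Finset.mem_Icc.2 ⟨comp_card_pos G v, comp_card_le G v⟩) hk
  have h2 : (fun G : SimpleGraph (Fin n) => g (comp G v).card) = fun G =>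
      ∑ k ∈ Finset.Icc 1 n, g k * (if (comp G v).card = k then (1 : ℝ) else 0) := funext h
  rw [h2, Ex_sum]
  refine Finset.sum_congr rfl (fun k _ => ?_)
  rw [Ex_mul, mul_comm, Pr_eq]

lemma law_of (h : S_IDE) {n : ℕ} {p : ℝ} (h0 : 0 ≤ p) (h1 : p < 1) (v : Fin n) :
    Law n p (fun k => Pr n p (fun G => (comp G v).card = k)) := by
  refine ⟨fun k => Pr_nonneg h0 h1.le _, ?_, fun m hm => ?_⟩
  · have := Ex_K p v (fun _ => 1)
    rw [Ex_const] at this
    rw [this]
    simp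
  · rw [← h n p h0 h1 v m hm]
    exact (Ex_K p v (fun k => ((n - k).choose m : ℝ) / (1 - p) ^ (m * k))).symm

lemma Pr_lt {n : ℕ} (p : ℝ) (v : Fin n) (x : ℝ) :
    Pr n p (fun G => x < ((comp G v).card : ℝ)) =
      ∑ k ∈ (Finset.Icc 1 n).filter (fun k : ℕ => x < (k : ℝ)), Pr n p (fun G => (comp G v).card = k) := by
  have := Ex_K p v (fun k => if x < (k : ℝ) then 1 else 0)
  unfold Pr at this ⊢
  rw [this, Finset.sum_filter]
  refine Finset.sum_congr rfl (fun k _ => ?_)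
  split_ifs <;> simp

/-- the mean size of the component from the connection probability -/
lemma Ex_card_comp {n : ℕ} (p : ℝ) (v : Fin n) :
    Ex n p (fun G => ((comp G v).card : ℝ)) = ∑ w, Pr n p (fun G => G.Reachable v w) := by
  rw [Finset.sum_congr rfl (fun w _ => Pr_eq p (fun G => G.Reachable v w)), ← Ex_sum]
  congr 1
  funext G
  rw [comp, Finset.card_filter]
  push_cast
  refine Finset.sum_congr rfl (fun w _ => ?_)
  split_ifs <;> rfl

/-! ## The edge probability -/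

lemma np_eq (lam : ℝ) {n : ℕ} (hn : 0 < n) : (n : ℝ) * pc lam n = 1 + lam * ((n : ℝ) ^ (1 / 3 : ℝ))⁻¹ := by
  have hn' : (0 : ℝ) < n := by exact_mod_cast hn
  unfold pc
  have e : (n : ℝ) ^ (4 / 3 : ℝ) = n * (n : ℝ) ^ (1 / 3 : ℝ) := by
    rw [show (4 / 3 : ℝ) = 1 + 1 / 3 by norm_num, Real.rpow_add hn', Real.rpow_one]
  have h3 : (0 : ℝ) < (n : ℝ) ^ (1 / 3 : ℝ) := Real.rpow_pos_of_pos hn' _
  rw [e]
  field_simp

lemma tendsto_rpow_nat {s : ℝ} (hs : 0 < s) : Tendsto (fun n : ℕ => (n : ℝ) ^ s) atTop atTop :=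
  (tendsto_rpow_atTop hs).comp tendsto_natCast_atTop_atTop

lemma tendsto_np (lam : ℝ) : Tendsto (fun n : ℕ => (n : ℝ) * pc lam n) atTop (𝓝 1) := by
  have h : Tendsto (fun n : ℕ => 1 + lam * ((n : ℝ) ^ (1 / 3 : ℝ))⁻¹) atTop (𝓝 (1 + lam * 0)) :=
    (((tendsto_rpow_nat (by norm_num : (0 : ℝ) < 1 / 3)).inv_tendsto_atTop).const_mul lam).const_add 1
  rw [mul_zero, add_zero] at h
  refine h.congr' ?_
  filter_upwards [eventually_gt_atTop 0] with n hn
  exact (np_eq lam hn).symm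

lemma tendsto_p (lam : ℝ) : Tendsto (fun n : ℕ => pc lam n) atTop (𝓝 0) := by
  have h := (tendsto_np lam).mul (tendsto_inv_atTop_zero.comp (tendsto_natCast_atTop_atTop (R := ℝ)))
  rw [mul_zero] at h
  refine h.congr' ?_
  filter_upwards [eventually_gt_atTop 0] with n hn
  have hn' : (n : ℝ) ≠ 0 := by exact_mod_cast hn.ne'
  simp only [Function.comp]
  field_simp

lemma ev_p (lam : ℝ) : ∀ᶠ n : ℕ in atTop, 0 < n ∧ 0 ≤ pc lam n ∧ pc lam n < 1 ∧ (n : ℝ) * pc lam n ≤ 2 := by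
  have h1 := (tendsto_np lam).eventually (lt_mem_nhds (show (0 : ℝ) < 1 by norm_num))
  have h2 := (tendsto_np lam).eventually (gt_mem_nhds (show (1 : ℝ) < 2 by norm_num))
  have h3 := (tendsto_p lam).eventually (gt_mem_nhds (show (0 : ℝ) < 1 by norm_num))
  filter_upwards [h1, h2, h3, eventually_gt_atTop 0] with n a b c d
  have hn' : (0 : ℝ) < n := by exact_mod_cast d
  exact ⟨d, (pos_of_mul_pos_right a hn'.le).le, c, b.le⟩

/-! ## The sum over the pairs -/

lemma ind_nonneg {n m : ℕ} (G : SimpleGraph (Fin n)) (v : Fin n) (r : ℕ) (F : SimpleGraph (Fin m)) (u : Fin m) :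
    0 ≤ ind G v r F u := by unfold ind; split_ifs <;> norm_num

lemma ind_le_one {n m : ℕ} (G : SimpleGraph (Fin n)) (v : Fin n) (r : ℕ) (F : SimpleGraph (Fin m)) (u : Fin m) :
    ind G v r F u ≤ 1 := by unfold ind; split_ifs <;> norm_num

/-- the double sum over the connected pairs -/
noncomputable def Wd {n m : ℕ} (G : SimpleGraph (Fin n)) (r : ℕ) (F : SimpleGraph (Fin m)) (u : Fin m) (a : ℝ) : ℝ :=
  ∑ v, ∑ w, if G.Reachable v w then (ind G v r F u - a) * (ind G w r F u - a) else 0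

lemma frac_bounds {n m : ℕ} (G : SimpleGraph (Fin n)) (C : Finset (Fin n)) (r : ℕ) (F : SimpleGraph (Fin m))
    (u : Fin m) : 0 ≤ frac G C r F u ∧ frac G C r F u ≤ 1 := by
  unfold frac
  refine ⟨by positivity, ?_⟩
  refine div_le_one_of_le₀ ?_ (by positivity)
  exact_mod_cast Finset.card_le_card (Finset.filter_subset _ _)

lemma frac_sq (h : S_SQC) {n m : ℕ} (G : SimpleGraph (Fin n)) {C : Finset (Fin n)} (hC : ∃ v, C = comp G v) (r : ℕ)
    (F : SimpleGraph (Fin m)) (u : Fin m) (a : ℝ) :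
    ((C.card : ℝ) * (frac G C r F u - a)) ^ 2 ≤ Wd G r F u a := by
  obtain ⟨v₀, rfl⟩ := hC
  have e : ((comp G v₀).card : ℝ) * (frac G (comp G v₀) r F u - a) = ∑ v ∈ comp G v₀, (ind G v r F u - a) := by
    rw [Finset.sum_sub_distrib, Finset.sum_const, nsmul_eq_mul]
    have hp : (0 : ℝ) < (comp G v₀).card := by exact_mod_cast comp_card_pos G v₀
    unfold frac ind
    rw [Finset.card_filter]
    push_cast
    field_simp
  rw [e]
  exact h n G v₀ (fun v => ind G v r F u - a)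

/-- pointwise bound -/
lemma abs_le_of {n m : ℕ} (h : S_SQC) (G : SimpleGraph (Fin n)) {C : Finset (Fin n)} (hC : IsLargest G C) (r : ℕ)
    (F : SimpleGraph (Fin m)) (u : Fin m) {a b ε : ℝ} (ha : 0 ≤ a) (hab : a ≤ b) (hε : 0 < ε) (k : ℕ) :
    |frac G C r F u - a| ≤ (1 + b) * (if ∀ w, (comp G w).card ≤ k then (1 : ℝ) else 0) + ε +
      Wd G r F u a / (ε * ((k : ℝ) + 1) ^ 2) := by
  have hf := frac_bounds G C r F u
  have hW := frac_sq h G hC.1 r F u a
  have hW0 : 0 ≤ Wd G r F u a := le_trans (sq_nonneg _) hW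
  have hk : (0 : ℝ) < (k : ℝ) + 1 := by positivity
  by_cases hall : ∀ w, (comp G w).card ≤ k
  · rw [if_pos hall, mul_one]
    have h1 : |frac G C r F u - a| ≤ 1 + b := by
      rw [abs_le]
      constructor <;> linarith
    have h2 : 0 ≤ Wd G r F u a / (ε * ((k : ℝ) + 1) ^ 2) := by positivity
    linarith
  · rw [if_neg hall, mul_zero, zero_add]
    push Not at hall
    obtain ⟨w, hw⟩ := hall
    have hcard : (k : ℝ) + 1 ≤ C.card := by
      have := hC.2 w
      exact_mod_cast (show k + 1 ≤ C.card by omega)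
    set x := frac G C r F u - a with hx
    have h1 : ((k : ℝ) + 1) ^ 2 * x ^ 2 ≤ Wd G r F u a := by
      refine le_trans ?_ hW
      rw [mul_pow]
      exact mul_le_mul_of_nonneg_right (pow_le_pow_left₀ hk.le hcard 2) (sq_nonneg _)
    have h2 : x ^ 2 / ε ≤ Wd G r F u a / (ε * ((k : ℝ) + 1) ^ 2) := by
      rw [div_le_div_iff₀ hε (by positivity)]
      nlinarith [mul_le_mul_of_nonneg_left h1 hε.le]
    have h3 : |x| ≤ ε + x ^ 2 / ε := by
      rw [← sub_nonneg]
      have e : ε + x ^ 2 / ε - |x| = ((|x| - ε / 2) ^ 2 + 3 / 4 * ε ^ 2) / ε := by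
        rw [← sq_abs x]
        field_simp
        ring
      rw [e]
      positivity
    linarith

end Pool.Agent.H249.ER
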