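import Pool.Agent.H249.ER.Flu

/-!
# The proportion of the vertices of the largest component with a given ball: the limit
-/

set_option autoImplicit false

open Finset BigOperators MeasureTheory ProbabilityTheory Filter
open scoped Classical Topology

namespace Pool.Agent.H249.ER

open Pool.Agent.Q287.SR (pairs erWeight Ex Ex_const Ex_add Ex_mul Ex_sum Ex_mono Ex_nonneg erWeight_nonneg)

lemma avg_eq (h : S_SY3) {n m : ℕ} (p : ℝ) (r : ℕ) (F : SimpleGraph (Fin m)) (u : Fin m) (v : Fin n) :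
    avg n p r F u = Pr n p (fun G => BallIso G v r F u) := by
  unfold avg
  have hn : (n : ℝ) ≠ 0 := by
    have := v.pos
    exact_mod_cast this.ne'
  rw [Finset.sum_congr rfl (fun w _ => h n p w v r m F u), Finset.sum_const, Finset.card_univ, Fintype.card_fin,
    nsmul_eq_mul]
  field_simp

/-- the connection probability -/
lemma conn_le (h : S_SY2) {n : ℕ} {p : ℝ} (h0 : 0 ≤ p) (h1 : p ≤ 1) {v w : Fin n} (hvw : v ≠ w) {M : ℝ}
    (hM : Ex n p (fun G => ((comp G v).card : ℝ)) ≤ M) : Pr n p (fun G => G.Reachable v w) ≤ 2 * M / n := by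
  have hn : 2 ≤ n := by
    have h1 := v.isLt
    have h2 := w.isLt
    rcases Nat.lt_or_ge n 2 with h | h
    · exfalso
      apply hvw
      apply Fin.ext
      omega
    · exact h
  have hn' : (2 : ℝ) ≤ n := by exact_mod_cast hn
  set τ := Pr n p (fun G => G.Reachable v w) with hτ
  have h3 : ((n : ℝ) - 1) * τ ≤ M := by
    refine le_trans ?_ hM
    rw [Ex_card_comp]
    have : ∑ x ∈ Finset.univ.erase v, Pr n p (fun G => G.Reachable v x) = ((n : ℝ) - 1) * τ := by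
      rw [Finset.sum_congr rfl (fun x hx => h n p v x v w (Finset.ne_of_mem_erase hx).symm hvw), Finset.sum_const,
        Finset.card_erase_of_mem (Finset.mem_univ v), Finset.card_univ, Fintype.card_fin, nsmul_eq_mul]
      rw [Nat.cast_sub (by omega), Nat.cast_one]
    rw [← this]
    exact Finset.sum_le_sum_of_subset_of_nonneg (Finset.erase_subset _ _) (fun _ _ _ => Pr_nonneg h0 h1 _)
  have h4 : 0 ≤ τ := Pr_nonneg h0 h1 _
  rw [le_div_iff₀ (by linarith)]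
  nlinarith

/-- the error term -/
noncomputable def eta (lam b C : ℝ) (r m n : ℕ) : ℝ :=
  2 * (C * (n : ℝ) ^ (1 / 3 : ℝ)) / n *
    (b ^ 2 * (((1 - pc lam n) ^ (m ^ 2))⁻¹ - 1) + 2 * b * |(n * pc lam n) ^ r - 1|) +
  (1 + 2 * b) * ∑ k ∈ Finset.Icc 1 (2 * r), (n : ℝ) ^ (k - 1) * pc lam n ^ k

lemma Ex_Wd_le (hdev : S_DEV) (hsy2 : S_SY2) (hsy3 : S_SY3) (hdi3 : S_DI3) {lam b C : ℝ} {n m : ℕ} (r : ℕ)
    (F : SimpleGraph (Fin m)) (u : Fin m) (h0 : 0 ≤ pc lam n) (h1 : pc lam n < 1)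
    (hb : b = (bd F u r).card)
    (hC : ∀ v : Fin n, Ex n (pc lam n) (fun G => ((comp G v).card : ℝ)) ≤ C * (n : ℝ) ^ (1 / 3 : ℝ)) :
    Ex n (pc lam n) (fun G => Wd G r F u (b * avg n (pc lam n) r F u)) ≤
      n * (1 + b) ^ 2 + (n : ℝ) ^ 2 * eta lam b C r m n := by
  set p := pc lam n with hp
  set a := b * avg n p r F u with ha
  have hb0 : 0 ≤ b := by rw [hb]; positivity
  have key : ∀ v w : Fin n, Ex n p (fun G => if G.Reachable v w then (ind G v r F u - a) * (ind G w r F u - a) else 0) ≤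
      (if v = w then (1 + b) ^ 2 else 0) + eta lam b C r m n := by
    intro v w
    have hav : a = b * Pr n p (fun G => BallIso G v r F u) := by rw [ha, avg_eq hsy3 p r F u v]
    have hq0 := Pr_nonneg h0 h1.le (fun G => BallIso G v r F u)
    have hq1 := Pr_le_one h0 h1.le (fun G => BallIso G v r F u)
    have ha0 : 0 ≤ a := by rw [hav]; positivity
    have hab : a ≤ b := by rw [hav]; nlinarith
    have hx : 0 ≤ ((1 - p) ^ (m ^ 2))⁻¹ - 1 := by
      have : 1 ≤ ((1 - p) ^ (m ^ 2))⁻¹ := by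
        rw [one_le_inv₀ (by apply pow_pos; linarith)]
        exact pow_le_one₀ (by linarith) (by linarith)
      linarith
    have hM0 : 0 ≤ C * (n : ℝ) ^ (1 / 3 : ℝ) :=
      le_trans (Ex_nonneg h0 h1.le (fun G => by positivity)) (hC v)
    have hS : 0 ≤ ∑ k ∈ Finset.Icc 1 (2 * r), (n : ℝ) ^ (k - 1) * p ^ k :=
      Finset.sum_nonneg (fun k _ => by positivity)
    have heta : 0 ≤ eta lam b C r m n := by
      unfold eta
      rw [← hp]
      positivity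
    by_cases hvw : v = w
    · rw [if_pos hvw]
      have : Ex n p (fun G => if G.Reachable v w then (ind G v r F u - a) * (ind G w r F u - a) else 0) ≤
          Ex n p (fun _ => (1 + b) ^ 2) := by
        refine Ex_mono h0 h1.le (fun G => ?_)
        have i1 := ind_nonneg G v r F u
        have i2 := ind_le_one G v r F u
        subst hvw
        split_ifs
        · have : |ind G v r F u - a| ≤ 1 + b := by
            rw [abs_le]
            constructor <;> linarith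
          calc (ind G v r F u - a) * (ind G v r F u - a) = |ind G v r F u - a| ^ 2 := by rw [sq_abs]; ring
            _ ≤ (1 + b) ^ 2 := pow_le_pow_left₀ (abs_nonneg _) this 2
        · positivity
      rw [Ex_const] at this
      linarith
    · rw [if_neg hvw, zero_add]
      have hd := hdev n p h0 h1 v w hvw r m F u a (by rw [hav, hb])
      have ht := conn_le hsy2 h0 h1.le hvw (hC v)
      have ht0 := Pr_nonneg h0 h1.le (fun G => G.Reachable v w)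
      have he := hdi3 n p h0 h1.le v w hvw (2 * r)
      refine le_trans hd ?_
      unfold eta
      rw [← hp]
      have hB : a ^ 2 * (((1 - p) ^ (m ^ 2))⁻¹ - 1) + 2 * a * ((n * p) ^ r - 1) ≤
          b ^ 2 * (((1 - p) ^ (m ^ 2))⁻¹ - 1) + 2 * b * |(n * p) ^ r - 1| := by
        have e1 : a ^ 2 * (((1 - p) ^ (m ^ 2))⁻¹ - 1) ≤ b ^ 2 * (((1 - p) ^ (m ^ 2))⁻¹ - 1) :=
          mul_le_mul_of_nonneg_right (pow_le_pow_left₀ ha0 hab 2) hx
        have e2 : 2 * a * ((n * p) ^ r - 1) ≤ 2 * b * |(n * p) ^ r - 1| := by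
          calc 2 * a * ((n * p) ^ r - 1) ≤ 2 * a * |(n * p) ^ r - 1| :=
                mul_le_mul_of_nonneg_left (le_abs_self _) (by linarith)
            _ ≤ 2 * b * |(n * p) ^ r - 1| := mul_le_mul_of_nonneg_right (by linarith) (abs_nonneg _)
        linarith
      have hB0 : 0 ≤ b ^ 2 * (((1 - p) ^ (m ^ 2))⁻¹ - 1) + 2 * b * |(n * p) ^ r - 1| := by positivity
      have s1 : Pr n p (fun G => G.Reachable v w) *
          (a ^ 2 * (((1 - p) ^ (m ^ 2))⁻¹ - 1) + 2 * a * ((n * p) ^ r - 1)) ≤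
          2 * (C * (n : ℝ) ^ (1 / 3 : ℝ)) / n *
            (b ^ 2 * (((1 - p) ^ (m ^ 2))⁻¹ - 1) + 2 * b * |(n * p) ^ r - 1|) :=
        le_trans (mul_le_mul_of_nonneg_left hB ht0) (mul_le_mul_of_nonneg_right ht hB0)
      have s2 : (1 + 2 * a) * Pr n p (fun G => G.edist v w ≤ ((2 * r : ℕ) : ℕ∞)) ≤
          (1 + 2 * b) * ∑ k ∈ Finset.Icc 1 (2 * r), (n : ℝ) ^ (k - 1) * p ^ k :=
        le_trans (mul_le_mul_of_nonneg_left he (by linarith)) (mul_le_mul_of_nonneg_right (by linarith) hS)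
      linarith
  have e : Ex n p (fun G => Wd G r F u a) = ∑ v : Fin n, ∑ w : Fin n,
      Ex n p (fun G => if G.Reachable v w then (ind G v r F u - a) * (ind G w r F u - a) else 0) := by
    unfold Wd
    rw [Ex_sum]
    exact Finset.sum_congr rfl (fun v _ => Ex_sum _ _ _)
  rw [e]
  refine le_trans (Finset.sum_le_sum (fun v _ => Finset.sum_le_sum (fun w _ => key v w))) ?_
  apply le_of_eq
  simp only [Finset.sum_add_distrib, Finset.sum_ite_eq, Finset.mem_univ, if_true, Finset.sum_const, Finset.card_univ,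
    Fintype.card_fin, nsmul_eq_mul]
  ring

lemma tendsto_eta (lam b C : ℝ) (r m : ℕ) :
    Tendsto (fun n : ℕ => (n : ℝ) ^ 2 * eta lam b C r m n / (n : ℝ) ^ (4 / 3 : ℝ)) atTop (𝓝 0) := by
  have hnp := tendsto_np lam
  have hp := tendsto_p lam
  have hx : Tendsto (fun n : ℕ => ((1 - pc lam n) ^ (m ^ 2))⁻¹ - 1) atTop (𝓝 0) := by
    have h1 : Tendsto (fun n : ℕ => ((1 - pc lam n) ^ (m ^ 2))⁻¹ - 1) atTop (𝓝 (((1 - 0 : ℝ) ^ (m ^ 2))⁻¹ - 1)) :=
      (((hp.const_sub 1).pow (m ^ 2)).inv₀ (by norm_num)).sub_const 1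
    simpa using h1
  have hy : Tendsto (fun n : ℕ => |(n * pc lam n) ^ r - 1|) atTop (𝓝 0) := by
    have h1 := ((hnp.pow r).sub_const 1).abs
    simpa using h1
  have hz : Tendsto (fun n : ℕ => ((n : ℝ) ^ (1 / 3 : ℝ))⁻¹ * ∑ k ∈ Finset.Icc 1 (2 * r), (n * pc lam n) ^ k) atTop
      (𝓝 0) := by
    have h1 : Tendsto (fun n : ℕ => ∑ k ∈ Finset.Icc 1 (2 * r), (n * pc lam n) ^ k) atTop
        (𝓝 (∑ k ∈ Finset.Icc 1 (2 * r), (1 : ℝ) ^ k)) := tendsto_finsetSum _ (fun k _ => hnp.pow k)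
    have h2 := (tendsto_rpow_nat (by norm_num : (0 : ℝ) < 1 / 3)).inv_tendsto_atTop.mul h1
    rw [zero_mul] at h2
    exact h2
  have hmain : Tendsto (fun n : ℕ => 2 * C * (b ^ 2 * (((1 - pc lam n) ^ (m ^ 2))⁻¹ - 1) +
      2 * b * |(n * pc lam n) ^ r - 1|) + (1 + 2 * b) *
      (((n : ℝ) ^ (1 / 3 : ℝ))⁻¹ * ∑ k ∈ Finset.Icc 1 (2 * r), (n * pc lam n) ^ k)) atTop (𝓝 0) := by
    have := (((hx.const_mul (b ^ 2)).add (hy.const_mul (2 * b))).const_mul (2 * C)).add (hz.const_mul (1 + 2 * b))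
    simpa using this
  refine hmain.congr' ?_
  filter_upwards [eventually_gt_atTop 0] with n hn
  have hn' : (0 : ℝ) < n := by exact_mod_cast hn
  unfold eta
  have h3 : (0 : ℝ) < (n : ℝ) ^ (1 / 3 : ℝ) := Real.rpow_pos_of_pos hn' _
  have e43 : (n : ℝ) ^ (4 / 3 : ℝ) = n * (n : ℝ) ^ (1 / 3 : ℝ) := by
    rw [show (4 / 3 : ℝ) = 1 + 1 / 3 by norm_num, Real.rpow_add hn', Real.rpow_one]
  have es : ∑ k ∈ Finset.Icc 1 (2 * r), (n : ℝ) ^ (k - 1) * pc lam n ^ k =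
      (n : ℝ)⁻¹ * ∑ k ∈ Finset.Icc 1 (2 * r), (n * pc lam n) ^ k := by
    rw [Finset.mul_sum]
    refine Finset.sum_congr rfl (fun k hk => ?_)
    obtain ⟨j, rfl⟩ : ∃ j, k = j + 1 := ⟨k - 1, by have := (Finset.mem_Icc.1 hk).1; omega⟩
    rw [Nat.add_sub_cancel, mul_pow, pow_succ (n : ℝ) j]
    field_simp
  rw [es, e43]
  field_simp

theorem flu (hide : S_IDE) (hsy2 : S_SY2) (hsy3 : S_SY3) (htb : S_TB) (htc : S_TC) (hbig : S_BIG)
    (hdi3 : S_DI3) (hdev : S_DEV) (hsqc : S_SQC) : S_FLU := by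
  intro lam Cn hCn r m F u
  obtain ⟨C, hC, N₁, hN₁⟩ := htb lam
  obtain ⟨c, δ₀, hc, hδ₀, hTC⟩ := htc lam
  set b : ℝ := ((bd F u r).card : ℝ) with hb
  have hb0 : 0 ≤ b := by positivity
  rw [Metric.tendsto_atTop]
  intro ε₀ hε₀
  -- choice of δ and ε
  obtain ⟨δ, hδ, hδ1, hδ2⟩ : ∃ δ : ℝ, 0 < δ ∧ δ ≤ δ₀ ∧ (1 + b) * (C / c ^ 2 * δ) ≤ ε₀ / 4 := by
    refine ⟨min δ₀ (ε₀ / 4 / ((1 + b) * (C / c ^ 2))), lt_min hδ₀ (by positivity), min_le_left _ _, ?_⟩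
    have h1 : min δ₀ (ε₀ / 4 / ((1 + b) * (C / c ^ 2))) ≤ ε₀ / 4 / ((1 + b) * (C / c ^ 2)) := min_le_right _ _
    calc (1 + b) * (C / c ^ 2 * min δ₀ (ε₀ / 4 / ((1 + b) * (C / c ^ 2))))
        = ((1 + b) * (C / c ^ 2)) * min δ₀ (ε₀ / 4 / ((1 + b) * (C / c ^ 2))) := by ring
      _ ≤ ((1 + b) * (C / c ^ 2)) * (ε₀ / 4 / ((1 + b) * (C / c ^ 2))) :=
          mul_le_mul_of_nonneg_left h1 (by positivity)
      _ = ε₀ / 4 := by field_simp
  obtain ⟨N₂, hN₂⟩ := hTC δ hδ hδ1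
  set ε := ε₀ / 4 with hε
  have hε' : 0 < ε := by positivity
  -- the error term
  have hlim : Tendsto (fun n : ℕ => ((1 + b) ^ 2 * ((n : ℝ) ^ (1 / 3 : ℝ))⁻¹ +
      (n : ℝ) ^ 2 * eta lam b C r m n / (n : ℝ) ^ (4 / 3 : ℝ)) / (ε * δ ^ 2)) atTop (𝓝 0) := by
    have h := (((tendsto_rpow_nat (by norm_num : (0 : ℝ) < 1 / 3)).inv_tendsto_atTop.const_mul ((1 + b) ^ 2)).add
      (tendsto_eta lam b C r m)).div_const (ε * δ ^ 2)
    simpa using h
  have hev := hlim.eventually (gt_mem_nhds hε')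
  obtain ⟨N₃, hN₃⟩ := Filter.eventually_atTop.1 (hev.and (ev_p lam))
  refine ⟨max N₁ (max N₂ N₃), fun n hn => ?_⟩
  have hn1 : N₁ ≤ n := le_trans (le_max_left _ _) hn
  have hn2 : N₂ ≤ n := le_trans (le_max_left _ _) (le_trans (le_max_right _ _) hn)
  have hn3 : N₃ ≤ n := le_trans (le_max_right _ _) (le_trans (le_max_right _ _) hn)
  obtain ⟨herr, hnpos, h0, h1, -⟩ := hN₃ n hn3
  have hn' : (0 : ℝ) < n := by exact_mod_cast hnpos
  set p := pc lam n with hp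
  set a := b * avg n p r F u with ha
  let v₀ : Fin n := ⟨0, hnpos⟩
  have hn13 : (0 : ℝ) < (n : ℝ) ^ (1 / 3 : ℝ) := Real.rpow_pos_of_pos hn' _
  have e23 : (n : ℝ) ^ (2 / 3 : ℝ) = (n : ℝ) ^ (1 / 3 : ℝ) * (n : ℝ) ^ (1 / 3 : ℝ) := by
    rw [← Real.rpow_add hn']; norm_num
  have e1 : (n : ℝ) = (n : ℝ) ^ (1 / 3 : ℝ) * (n : ℝ) ^ (1 / 3 : ℝ) * (n : ℝ) ^ (1 / 3 : ℝ) := by
    rw [← Real.rpow_add hn', ← Real.rpow_add hn']; norm_num
  have e43 : (n : ℝ) ^ (4 / 3 : ℝ) = n * (n : ℝ) ^ (1 / 3 : ℝ) := by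
    rw [show (4 / 3 : ℝ) = 1 + 1 / 3 by norm_num, Real.rpow_add hn', Real.rpow_one]
  -- mean size of the component
  have hmean : ∀ v : Fin n, Ex n p (fun G => ((comp G v).card : ℝ)) ≤ C * (n : ℝ) ^ (1 / 3 : ℝ) := by
    intro v
    rw [Ex_K p v (fun k => (k : ℝ))]
    exact hN₁ n hn1 _ (law_of hide h0 h1 v)
  -- the largest component
  set k : ℕ := ⌊δ * (n : ℝ) ^ (2 / 3 : ℝ)⌋₊ with hk
  have hk1 : δ * (n : ℝ) ^ (2 / 3 : ℝ) ≤ (k : ℝ) + 1 := (Nat.lt_floor_add_one _).le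
  have hsmall : Pr n p (fun G => ∀ w, (comp G w).card ≤ k) ≤ C / c ^ 2 * δ := by
    have hP : c / (Real.sqrt δ * (n : ℝ) ^ (1 / 3 : ℝ)) ≤ Pr n p (fun G => k < (comp G v₀).card) := by
      have h2 := hN₂ n hn2 _ (law_of hide h0 h1 v₀)
      rw [← Pr_lt p v₀] at h2
      refine le_trans h2 (Pr_mono h0 h1.le (fun G hG => ?_))
      rw [hk, Nat.floor_lt (by positivity)]
      exact hG
    have hB := hbig n p h0 h1.le v₀ k
    have hP0 : 0 < c / (Real.sqrt δ * (n : ℝ) ^ (1 / 3 : ℝ)) := by positivity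
    set Q := Pr n p (fun G => ∀ w, (comp G w).card ≤ k) with hQ
    have hQ0 : 0 ≤ Q := Pr_nonneg h0 h1.le _
    have h3 : (n : ℝ) * (c / (Real.sqrt δ * (n : ℝ) ^ (1 / 3 : ℝ))) ^ 2 * Q ≤ C * (n : ℝ) ^ (1 / 3 : ℝ) := by
      refine le_trans ?_ (le_trans hB (hmean v₀))
      refine mul_le_mul_of_nonneg_right (mul_le_mul_of_nonneg_left ?_ hn'.le) hQ0
      exact pow_le_pow_left₀ hP0.le hP 2
    have h4 : (n : ℝ) * (c / (Real.sqrt δ * (n : ℝ) ^ (1 / 3 : ℝ))) ^ 2 = c ^ 2 / δ * (n : ℝ) ^ (1 / 3 : ℝ) := by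
      rw [div_pow, mul_pow, Real.sq_sqrt hδ.le]
      have hx0 := hn13
      have e1' := e1
      generalize (n : ℝ) ^ (1 / 3 : ℝ) = x at e1' hx0 ⊢
      rw [e1']
      field_simp
    rw [h4] at h3
    have h5 : c ^ 2 / δ * Q ≤ C := by
      have : (n : ℝ) ^ (1 / 3 : ℝ) * (c ^ 2 / δ * Q) ≤ (n : ℝ) ^ (1 / 3 : ℝ) * C := by linarith
      exact le_of_mul_le_mul_left this hn13
    calc Q = (c ^ 2 / δ * Q) * (δ / c ^ 2) := by field_simp
      _ ≤ C * (δ / c ^ 2) := mul_le_mul_of_nonneg_right h5 (by positivity)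
      _ = C / c ^ 2 * δ := by ring
  -- the bound
  have hq0 : 0 ≤ avg n p r F u := by
    rw [avg_eq hsy3 p r F u v₀]
    exact Pr_nonneg h0 h1.le _
  have hq1 : avg n p r F u ≤ 1 := by
    rw [avg_eq hsy3 p r F u v₀]
    exact Pr_le_one h0 h1.le _
  have ha0 : 0 ≤ a := mul_nonneg hb0 hq0
  have hab : a ≤ b := mul_le_of_le_one_right hb0 hq1
  have hbound : Ex n p (fun G => |frac G (Cn n G) r F u - a|) ≤ (1 + b) * (C / c ^ 2 * δ) + ε +
      (n * (1 + b) ^ 2 + (n : ℝ) ^ 2 * eta lam b C r m n) / (ε * ((k : ℝ) + 1) ^ 2) := by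
    have h2 : Ex n p (fun G => |frac G (Cn n G) r F u - a|) ≤ Ex n p (fun G =>
        (1 + b) * (if ∀ w, (comp G w).card ≤ k then (1 : ℝ) else 0) + ε +
          (ε * ((k : ℝ) + 1) ^ 2)⁻¹ * Wd G r F u a) := by
      refine Ex_mono h0 h1.le (fun G => ?_)
      have := abs_le_of hsqc G (hCn n hnpos G) r F u ha0 hab hε' k
      rw [div_eq_inv_mul] at this
      exact this
    refine le_trans h2 ?_
    rw [Ex_add, Ex_add, Ex_mul, Ex_mul, Ex_const, ← Pr_eq]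
    have hW : Ex n p (fun G => Wd G r F u a) ≤ n * (1 + b) ^ 2 + (n : ℝ) ^ 2 * eta lam b C r m n :=
      Ex_Wd_le hdev hsy2 hsy3 hdi3 r F u h0 h1 hb hmean
    rw [div_eq_inv_mul (n * (1 + b) ^ 2 + (n : ℝ) ^ 2 * eta lam b C r m n)]
    have i1 : 0 ≤ (ε * ((k : ℝ) + 1) ^ 2)⁻¹ := by positivity
    have := mul_le_mul_of_nonneg_left hW i1
    have := mul_le_mul_of_nonneg_left hsmall (show 0 ≤ 1 + b by linarith)
    linarith
  have hden : (n * (1 + b) ^ 2 + (n : ℝ) ^ 2 * eta lam b C r m n) / (ε * ((k : ℝ) + 1) ^ 2) ≤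
      ((1 + b) ^ 2 * ((n : ℝ) ^ (1 / 3 : ℝ))⁻¹ +
        (n : ℝ) ^ 2 * eta lam b C r m n / (n : ℝ) ^ (4 / 3 : ℝ)) / (ε * δ ^ 2) := by
    have hnum : 0 ≤ n * (1 + b) ^ 2 + (n : ℝ) ^ 2 * eta lam b C r m n := by
      refine le_trans ?_ (Ex_Wd_le hdev hsy2 hsy3 hdi3 r F u h0 h1 hb hmean)
      refine Ex_nonneg h0 h1.le (fun G => ?_)
      exact le_trans (sq_nonneg _) (frac_sq hsqc G (hCn n hnpos G).1 r F u _)
    have hk2 : ε * (δ ^ 2 * (n : ℝ) ^ (4 / 3 : ℝ)) ≤ ε * ((k : ℝ) + 1) ^ 2 := by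
      refine mul_le_mul_of_nonneg_left ?_ hε'.le
      have : δ ^ 2 * (n : ℝ) ^ (4 / 3 : ℝ) = (δ * (n : ℝ) ^ (2 / 3 : ℝ)) ^ 2 := by
        rw [e43, e23]
        have e1' := e1
        generalize (n : ℝ) ^ (1 / 3 : ℝ) = x at e1' ⊢
        rw [e1']
        ring
      rw [this]
      exact pow_le_pow_left₀ (by positivity) hk1 2
    refine le_trans (div_le_div_of_nonneg_left hnum (by positivity) hk2) (le_of_eq ?_)
    rw [e43]
    field_simp
  have hfin : |Ex n p (fun G => frac G (Cn n G) r F u) - a| ≤ Ex n p (fun G => |frac G (Cn n G) r F u - a|) := by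
    have e2 : Ex n p (fun G => frac G (Cn n G) r F u) - a = Ex n p (fun G => frac G (Cn n G) r F u - a) := by
      rw [Ex_sub, Ex_const]
    rw [e2]
    unfold Ex
    refine le_trans (Finset.abs_sum_le_sum_abs _ _) (le_of_eq ?_)
    refine Finset.sum_congr rfl (fun G _ => ?_)
    rw [abs_mul, abs_of_nonneg (erWeight_nonneg h0 h1.le G)]
  rw [Real.dist_eq, sub_zero]
  have hfin' : |Ex n p (fun G => frac G (Cn n G) r F u) - b * avg n p r F u| ≤ (1 + b) * (C / c ^ 2 * δ) + ε +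
      ((1 + b) ^ 2 * ((n : ℝ) ^ (1 / 3 : ℝ))⁻¹ +
        (n : ℝ) ^ 2 * eta lam b C r m n / (n : ℝ) ^ (4 / 3 : ℝ)) / (ε * δ ^ 2) :=
    le_trans hfin (le_trans hbound (add_le_add le_rfl hden))
  linarith

end Pool.Agent.H249.ER
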