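import Pool.Agent.H249.ER.Ind
import Pool.Agent.H249.ER.Flu

/-! # The exact identity for the size of the component of a vertex -/

set_option autoImplicit false

open Finset BigOperators
open scoped Classical

namespace Pool.Agent.H249.ER

open Pool.Agent.Q287.SR (pairs erWeight Ex Ex_const Ex_add Ex_mul Ex_sum Ex_mono Ex_nonneg absent Ex_absent)

lemma res_le {n : ℕ} (A : Finset (Fin n)) (G : SimpleGraph (Fin n)) : res A G ≤ G := fun _ _ h => h.1

lemma mem_comp {n : ℕ} {G : SimpleGraph (Fin n)} {v w : Fin n} : w ∈ comp G v ↔ G.Reachable v w := by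
  simp [comp]

/-- a set which contains `v` and is closed under adjacency contains the component -/
lemma comp_subset {n : ℕ} {G : SimpleGraph (Fin n)} {v : Fin n} {S : Finset (Fin n)} (hv : v ∈ S)
    (h : ∀ x ∈ S, ∀ y, G.Adj x y → y ∈ S) : comp G v ⊆ S := by
  intro w hw
  rw [mem_comp] at hw
  obtain ⟨q⟩ := hw
  induction q with
  | nil => exact hv
  | cons hadj q ih => exact ih (h _ hv _ hadj)

lemma self_mem_comp {n : ℕ} (G : SimpleGraph (Fin n)) (v : Fin n) : v ∈ comp G v := mem_comp.2 (SimpleGraph.Reachable.refl v)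

lemma comp_closed {n : ℕ} {G : SimpleGraph (Fin n)} {v x y : Fin n} (hx : x ∈ comp G v) (h : G.Adj x y) :
    y ∈ comp G v := mem_comp.2 ((mem_comp.1 hx).trans h.reachable)

lemma comp_mono {n : ℕ} {G H : SimpleGraph (Fin n)} (h : G ≤ H) (v : Fin n) : comp G v ⊆ comp H v := by
  intro w hw
  exact mem_comp.2 ((mem_comp.1 hw).mono h)

/-- the component is determined by the graph on the complement of `R` if it does not meet `R` -/
lemma comp_eq_iff {n : ℕ} (G : SimpleGraph (Fin n)) (v : Fin n) {R S : Finset (Fin n)} (hvS : v ∈ S)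
    (hSR : Disjoint S R) :
    comp G v = S ↔ (comp (res Rᶜ G) v = S ∧ ∀ x ∈ S, ∀ y ∈ R, ¬ G.Adj x y) := by
  have hS : ∀ x ∈ S, x ∈ Rᶜ := fun x hx => Finset.mem_compl.2 (Finset.disjoint_left.1 hSR hx)
  constructor
  · intro h
    refine ⟨?_, ?_⟩
    · apply Finset.Subset.antisymm
      · rw [← h]; exact comp_mono (res_le _ _) v
      · have : comp G v ⊆ comp (res Rᶜ G) v := by
          apply comp_subset (self_mem_comp _ _)
          intro x hx y hxy
          have hxS : x ∈ S := by rw [← h]; exact comp_mono (res_le _ _) v hx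
          have hyS : y ∈ S := by rw [← h]; rw [← h] at hxS; exact comp_closed hxS hxy
          exact comp_closed hx ⟨hxy, hS x hxS, hS y hyS⟩
        rw [h] at this
        exact this
    · intro x hx y hy hxy
      rw [← h] at hx
      have hyS : y ∈ S := by rw [← h]; exact comp_closed hx hxy
      exact Finset.disjoint_left.1 hSR hyS hy
  · rintro ⟨h1, h2⟩
    apply Finset.Subset.antisymm
    · apply comp_subset hvS
      intro x hx y hxy
      by_cases hy : y ∈ R
      · exact absurd hxy (h2 x hx y hy)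
      · have hx' : x ∈ comp (res Rᶜ G) v := by rw [h1]; exact hx
        have := comp_closed (y := y) hx' ⟨hxy, hS x hx, Finset.mem_compl.2 hy⟩
        rwa [h1] at this
    · rw [← h1]; exact comp_mono (res_le _ _) v

/-- the edges inside `A` -/
noncomputable def inside {n : ℕ} (A : Finset (Fin n)) : Finset (Sym2 (Fin n)) := (pairs n).filter (fun e => ∀ x ∈ e, x ∈ A)

/-- the edges between `S` and `R` -/
noncomputable def between {n : ℕ} (S R : Finset (Fin n)) : Finset (Sym2 (Fin n)) :=
  (S ×ˢ R).image (fun x => s(x.1, x.2))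

lemma mem_inside {n : ℕ} {A : Finset (Fin n)} {x y : Fin n} (h : x ≠ y) : s(x, y) ∈ inside A ↔ (x ∈ A ∧ y ∈ A) := by
  unfold inside pairs
  simp [h]

lemma card_between {n : ℕ} {S R : Finset (Fin n)} (h : Disjoint S R) : (between S R).card = R.card * S.card := by
  unfold between
  rw [Finset.card_image_of_injOn, Finset.card_product, mul_comm]
  rintro ⟨a, b⟩ hab ⟨c, d⟩ hcd he
  simp only [Finset.coe_product, Set.mem_prod, Finset.mem_coe] at hab hcd
  simp only [Sym2.eq_iff] at he
  rcases he with ⟨h1, h2⟩ | ⟨h1, h2⟩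
  · rw [h1, h2]
  · exfalso
    exact Finset.disjoint_left.1 h hab.1 (h1 ▸ hcd.2)

lemma between_subset {n : ℕ} {S R : Finset (Fin n)} (h : Disjoint S R) : between S R ⊆ pairs n := by
  intro e he
  unfold between at he
  rw [Finset.mem_image] at he
  obtain ⟨⟨a, b⟩, hab, rfl⟩ := he
  rw [Finset.mem_product] at hab
  simp only [pairs, Finset.mem_filter, Finset.mem_univ, true_and, Sym2.mk_isDiag_iff]
  rintro rfl
  exact Finset.disjoint_left.1 h hab.1 hab.2

lemma inside_between {n : ℕ} (S R : Finset (Fin n)) : Disjoint (inside Rᶜ) (between S R) := by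
  rw [Finset.disjoint_left]
  intro e he he2
  unfold between at he2
  rw [Finset.mem_image] at he2
  obtain ⟨⟨a, b⟩, hab, rfl⟩ := he2
  rw [Finset.mem_product] at hab
  unfold inside at he
  rw [Finset.mem_filter] at he
  exact Finset.mem_compl.1 (he.2 b (by simp)) hab.2

lemma dep_res {n : ℕ} (A : Finset (Fin n)) (f : SimpleGraph (Fin n) → ℝ) : Dep (inside A) (fun G => f (res A G)) := by
  intro G G' h
  show f (res A G) = f (res A G')
  congr 1
  ext x y
  show (G.Adj x y ∧ x ∈ A ∧ y ∈ A) ↔ (G'.Adj x y ∧ x ∈ A ∧ y ∈ A)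
  constructor
  · rintro ⟨h1, h2, h3⟩
    exact ⟨(h s(x, y) ((mem_inside h1.ne).2 ⟨h2, h3⟩)).1 h1, h2, h3⟩
  · rintro ⟨h1, h2, h3⟩
    exact ⟨(h s(x, y) ((mem_inside h1.ne).2 ⟨h2, h3⟩)).2 h1, h2, h3⟩

lemma dep_absent {n : ℕ} (D : Finset (Sym2 (Fin n))) : Dep D (absent D) := by
  intro G G' h
  unfold absent
  have : (∀ e ∈ D, e ∉ G.edgeSet) ↔ (∀ e ∈ D, e ∉ G'.edgeSet) := by
    constructor
    · intro h1 e he h2
      exact h1 e he ((h e he).2 h2)
    · intro h1 e he h2
      exact h1 e he ((h e he).1 h2)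
  by_cases h2 : ∀ e ∈ D, e ∉ G.edgeSet
  · rw [if_pos h2, if_pos (this.1 h2)]
  · rw [if_neg h2, if_neg (fun h3 => h2 (this.2 h3))]

lemma Pr_comp_eq (hind : S_IND) {n : ℕ} (p : ℝ) (v : Fin n) {R S : Finset (Fin n)} (hvS : v ∈ S) (hSR : Disjoint S R) :
    Pr n p (fun G => comp G v = S) = Pr n p (fun G => comp (res Rᶜ G) v = S) * (1 - p) ^ (R.card * S.card) := by
  rw [← card_between hSR, ← Ex_absent p (between_subset hSR), Pr_eq, Pr_eq]
  rw [← hind n p (inside Rᶜ) (between S R) (fun G => if comp (res Rᶜ G) v = S then 1 else 0) (absent (between S R))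
    (inside_between S R) (dep_res Rᶜ (fun H => if comp H v = S then (1 : ℝ) else 0)) (dep_absent _)]
  congr 1
  funext G
  have h1 := comp_eq_iff G v hvS hSR
  have h2 : (∀ e ∈ between S R, e ∉ G.edgeSet) ↔ (∀ x ∈ S, ∀ y ∈ R, ¬ G.Adj x y) := by
    constructor
    · intro h x hx y hy
      exact h s(x, y) (Finset.mem_image.2 ⟨(x, y), Finset.mem_product.2 ⟨hx, hy⟩, rfl⟩)
    · intro h e he
      obtain ⟨⟨a, b⟩, hab, rfl⟩ := Finset.mem_image.1 he
      rw [Finset.mem_product] at hab
      exact h a hab.1 b hab.2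
  unfold absent
  by_cases h3 : comp (res Rᶜ G) v = S
  · by_cases h4 : ∀ x ∈ S, ∀ y ∈ R, ¬ G.Adj x y
    · rw [if_pos (h1.2 ⟨h3, h4⟩), if_pos h3, if_pos (h2.2 h4), one_mul]
    · rw [if_neg (fun h5 => h4 (h1.1 h5).2), if_neg (fun h5 => h4 (h2.1 h5)), mul_zero]
  · rw [if_neg (fun h5 => h3 (h1.1 h5).1), if_neg h3, zero_mul]

lemma comp_res_subset {n : ℕ} (G : SimpleGraph (Fin n)) {v : Fin n} {A : Finset (Fin n)} (hv : v ∈ A) :
    comp (res A G) v ⊆ A := by
  apply comp_subset hv
  intro x _ y hxy
  exact hxy.2.2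

lemma one_R (hind : S_IND) {n : ℕ} {p : ℝ} (h1 : p < 1) (v : Fin n) {R : Finset (Fin n)}
    (hv : v ∉ R) :
    Ex n p (fun G => if Disjoint (comp G v) R then ((1 - p) ^ (R.card * (comp G v).card))⁻¹ else 0) = 1 := by
  have hp : (1 - p) ≠ 0 := by linarith
  have e1 : ∀ G : SimpleGraph (Fin n), (if Disjoint (comp G v) R then ((1 - p) ^ (R.card * (comp G v).card))⁻¹ else 0) =
      ∑ S ∈ (Rᶜ : Finset (Fin n)).powerset, ((1 - p) ^ (R.card * S.card))⁻¹ * (if comp G v = S then (1 : ℝ) else 0) := by
    intro G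
    by_cases h : Disjoint (comp G v) R
    · rw [if_pos h, Finset.sum_eq_single (comp G v)]
      · rw [if_pos rfl, mul_one]
      · intro S _ hS
        rw [if_neg (Ne.symm hS), mul_zero]
      · intro h2
        exfalso
        apply h2
        rw [Finset.mem_powerset]
        intro x hx
        exact Finset.mem_compl.2 (Finset.disjoint_left.1 h hx)
    · rw [if_neg h]
      symm
      apply Finset.sum_eq_zero
      intro S hS
      rw [if_neg, mul_zero]
      intro h2
      apply h
      rw [h2, Finset.disjoint_left]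
      intro x hx
      exact Finset.mem_compl.1 (Finset.mem_powerset.1 hS hx)
  rw [show (fun G : SimpleGraph (Fin n) => if Disjoint (comp G v) R then ((1 - p) ^ (R.card * (comp G v).card))⁻¹ else 0)
    = _ from funext e1, Ex_sum]
  have e2 : ∀ S ∈ (Rᶜ : Finset (Fin n)).powerset,
      Ex n p (fun G => ((1 - p) ^ (R.card * S.card))⁻¹ * (if comp G v = S then (1 : ℝ) else 0)) =
      Ex n p (fun G => if comp (res Rᶜ G) v = S then (1 : ℝ) else 0) := by
    intro S hS
    rw [Ex_mul, ← Pr_eq, ← Pr_eq]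
    by_cases hvS : v ∈ S
    · have hSR : Disjoint S R := by
        rw [Finset.disjoint_left]
        intro x hx
        exact Finset.mem_compl.1 (Finset.mem_powerset.1 hS hx)
      rw [Pr_comp_eq hind p v hvS hSR]
      field_simp
    · have z1 : Pr n p (fun G => comp G v = S) = 0 := by
        rw [Pr_eq, show (fun G : SimpleGraph (Fin n) => if comp G v = S then (1 : ℝ) else 0) = fun _ => 0 from
          funext (fun G => if_neg (fun h : comp G v = S => hvS (by rw [← h]; exact self_mem_comp G v))), Ex_const]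
      have z2 : Pr n p (fun G => comp (res Rᶜ G) v = S) = 0 := by
        rw [Pr_eq, show (fun G : SimpleGraph (Fin n) => if comp (res Rᶜ G) v = S then (1 : ℝ) else 0) = fun _ => 0 from
          funext (fun G => if_neg (fun h : comp (res Rᶜ G) v = S => hvS (by rw [← h]; exact self_mem_comp _ v))), Ex_const]
      rw [z1, z2, mul_zero]
  rw [Finset.sum_congr rfl e2, ← Ex_sum]
  have e3 : ∀ G : SimpleGraph (Fin n), ∑ S ∈ (Rᶜ : Finset (Fin n)).powerset,
      (if comp (res Rᶜ G) v = S then (1 : ℝ) else 0) = 1 := by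
    intro G
    rw [Finset.sum_eq_single (comp (res Rᶜ G) v)]
    · rw [if_pos rfl]
    · intro S _ hS
      rw [if_neg (Ne.symm hS)]
    · intro h2
      exfalso
      apply h2
      rw [Finset.mem_powerset]
      exact comp_res_subset G (Finset.mem_compl.2 hv)
  rw [show (fun G : SimpleGraph (Fin n) => ∑ S ∈ (Rᶜ : Finset (Fin n)).powerset,
      (if comp (res Rᶜ G) v = S then (1 : ℝ) else 0)) = fun _ => 1 from funext e3, Ex_const]

theorem t_IDE (hind : S_IND) : S_IDE := by
  intro n p h0 h1 v m hm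
  have e1 : ∀ G : SimpleGraph (Fin n), ((n - (comp G v).card).choose m : ℝ) / (1 - p) ^ (m * (comp G v).card) =
      ∑ R ∈ Finset.powersetCard m (Finset.univ.erase v),
        (if Disjoint (comp G v) R then ((1 - p) ^ (R.card * (comp G v).card))⁻¹ else 0) := by
    intro G
    rw [← Finset.sum_filter]
    have e2 : (Finset.powersetCard m (Finset.univ.erase v)).filter (fun R => Disjoint (comp G v) R) =
        Finset.powersetCard m (Finset.univ \ comp G v) := by
      ext R
      simp only [Finset.mem_filter, Finset.mem_powersetCard]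
      constructor
      · rintro ⟨⟨_, h2⟩, h3⟩
        refine ⟨?_, h2⟩
        intro x hx
        rw [Finset.mem_sdiff]
        exact ⟨Finset.mem_univ _, fun h4 => Finset.disjoint_left.1 h3 h4 hx⟩
      · rintro ⟨h2, h3⟩
        refine ⟨⟨?_, h3⟩, ?_⟩
        · intro x hx
          rw [Finset.mem_erase]
          refine ⟨?_, Finset.mem_univ _⟩
          rintro rfl
          exact (Finset.mem_sdiff.1 (h2 hx)).2 (self_mem_comp G x)
        · rw [Finset.disjoint_left]
          intro x hx hx2
          exact (Finset.mem_sdiff.1 (h2 hx2)).2 hx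
    rw [e2, Finset.sum_congr rfl (fun R hR => by rw [(Finset.mem_powersetCard.1 hR).2]), Finset.sum_const,
      Finset.card_powersetCard, nsmul_eq_mul, Finset.card_sdiff_of_subset (Finset.subset_univ _), Finset.card_univ,
      Fintype.card_fin]
    rfl
  rw [show (fun G : SimpleGraph (Fin n) => ((n - (comp G v).card).choose m : ℝ) / (1 - p) ^ (m * (comp G v).card)) = _
    from funext e1, Ex_sum]
  have e3 : ∀ R ∈ Finset.powersetCard m (Finset.univ.erase v),
      Ex n p (fun G => if Disjoint (comp G v) R then ((1 - p) ^ (R.card * (comp G v).card))⁻¹ else 0) = 1 := by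
    intro R hR
    refine one_R hind h1 v ?_
    intro hv
    exact Finset.notMem_erase v _ ((Finset.mem_powersetCard.1 hR).1 hv)
  rw [Finset.sum_congr rfl e3, Finset.sum_const, Finset.card_powersetCard, nsmul_eq_mul, mul_one,
    Finset.card_erase_of_mem (Finset.mem_univ v), Finset.card_univ, Fintype.card_fin]

end Pool.Agent.H249.ER
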