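import Pool.Agent.H249.ER.Stm

/-! # Independence and cylinders -/

set_option autoImplicit false

open Finset BigOperators
open scoped Classical

namespace Pool.Agent.H249.ER

open Pool.Agent.Q287.SR (pairs erWeight Ex Ex_const Ex_add Ex_mul Ex_sum Ex_mono Ex_nonneg erWeight_nonneg sum_graph_prod
  mem_pairs_of_edge)

/-- graphs are the subsets of `pairs n` -/
lemma sum_graph {n : ℕ} (f : SimpleGraph (Fin n) → ℝ) :
    ∑ G : SimpleGraph (Fin n), f G = ∑ T ∈ (pairs n).powerset, f (SimpleGraph.fromEdgeSet (T : Set (Sym2 (Fin n)))) := by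
  refine Finset.sum_bij' (i := fun G _ => (pairs n).filter (fun e => e ∈ G.edgeSet))
    (j := fun T _ => SimpleGraph.fromEdgeSet (T : Set (Sym2 (Fin n)))) ?_ ?_ ?_ ?_ ?_
  · intro G _
    simp
  · intro T _
    simp
  · intro G _
    ext u v
    simp only [SimpleGraph.fromEdgeSet_adj, Finset.coe_filter, Set.mem_ofPred_eq,
      SimpleGraph.mem_edgeSet, ne_eq]
    constructor
    · rintro ⟨⟨_, h⟩, _⟩
      exact h
    · intro h
      exact ⟨⟨mem_pairs_of_edge (G := G) h, h⟩, h.ne⟩
  · intro T hT
    ext e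
    simp only [Finset.mem_filter]
    constructor
    · rintro ⟨_, h⟩
      rw [SimpleGraph.edgeSet_fromEdgeSet] at h
      exact_mod_cast h.1
    · intro h
      have h2 := Finset.mem_powerset.1 hT h
      refine ⟨h2, ?_⟩
      rw [SimpleGraph.edgeSet_fromEdgeSet]
      refine ⟨by exact_mod_cast h, ?_⟩
      simp only [pairs, Finset.mem_filter] at h2
      exact h2.2
  · intro G _
    congr 1
    ext u v
    simp only [SimpleGraph.fromEdgeSet_adj, Finset.coe_filter, Set.mem_ofPred_eq,
      SimpleGraph.mem_edgeSet, ne_eq]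
    constructor
    · intro h
      exact ⟨⟨mem_pairs_of_edge (G := G) h, h⟩, h.ne⟩
    · rintro ⟨⟨_, h⟩, _⟩
      exact h

/-- edges of the graph of a set -/
lemma mem_edge_from {n : ℕ} {T : Finset (Sym2 (Fin n))} (hT : T ⊆ pairs n) (e : Sym2 (Fin n)) :
    e ∈ (SimpleGraph.fromEdgeSet (T : Set (Sym2 (Fin n)))).edgeSet ↔ e ∈ T := by
  rw [SimpleGraph.edgeSet_fromEdgeSet]
  constructor
  · intro h
    exact_mod_cast h.1
  · intro h
    refine ⟨by exact_mod_cast h, ?_⟩
    have := hT h
    simp only [pairs, Finset.mem_filter] at this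
    exact this.2

/-- the weight of a set -/
noncomputable def wS {n : ℕ} (p : ℝ) (A T : Finset (Sym2 (Fin n))) : ℝ := ∏ e ∈ A, if e ∈ T then p else 1 - p

lemma weight_from {n : ℕ} (p : ℝ) {T : Finset (Sym2 (Fin n))} (hT : T ⊆ pairs n) :
    erWeight n p (SimpleGraph.fromEdgeSet (T : Set (Sym2 (Fin n)))) = wS p (pairs n) T := by
  unfold erWeight wS
  refine Finset.prod_congr rfl (fun e _ => ?_)
  by_cases h : e ∈ T
  · rw [if_pos h, if_pos ((mem_edge_from hT e).2 h)]
  · rw [if_neg h, if_neg (fun h2 => h ((mem_edge_from hT e).1 h2))]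

lemma sum_wS {n : ℕ} (p : ℝ) (A : Finset (Sym2 (Fin n))) : ∑ T ∈ A.powerset, wS p A T = 1 := by
  have := Finset.prod_add (fun _ : Sym2 (Fin n) => p) (fun _ => 1 - p) A
  have h2 : ∀ T ∈ A.powerset, wS p A T = (∏ e ∈ T, p) * ∏ e ∈ A \ T, (1 - p) := by
    intro T hT
    unfold wS
    rw [Finset.prod_ite]
    congr 1
    · refine Finset.prod_congr ?_ (fun _ _ => rfl)
      ext e
      simp only [Finset.mem_filter]
      exact ⟨fun h => h.2, fun h => ⟨Finset.mem_powerset.1 hT h, h⟩⟩
    · refine Finset.prod_congr ?_ (fun _ _ => rfl)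
      ext e
      simp only [Finset.mem_filter, Finset.mem_sdiff]
  rw [Finset.sum_congr rfl h2, ← this]
  simp

/-- sums over the subsets of a disjoint union -/
lemma sum_powerset_union {α : Type*} [DecidableEq α] {A B : Finset α} (h : Disjoint A B) (f : Finset α → ℝ) :
    ∑ T ∈ (A ∪ B).powerset, f T = ∑ S ∈ A.powerset, ∑ S' ∈ B.powerset, f (S ∪ S') := by
  rw [← Finset.sum_product']
  refine Finset.sum_bij' (i := fun T _ => (T ∩ A, T ∩ B)) (j := fun x _ => x.1 ∪ x.2) ?_ ?_ ?_ ?_ ?_
  · intro T _
    simp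
  · intro x hx
    rw [Finset.mem_product, Finset.mem_powerset, Finset.mem_powerset] at hx
    rw [Finset.mem_powerset]
    exact Finset.union_subset_union hx.1 hx.2
  · intro T hT
    rw [Finset.mem_powerset] at hT
    rw [← Finset.inter_union_distrib_left]
    exact Finset.inter_eq_left.2 hT
  · intro x hx
    rw [Finset.mem_product, Finset.mem_powerset, Finset.mem_powerset] at hx
    have h1 : Disjoint x.2 A := (h.mono_right hx.2).symm
    have h2 : Disjoint x.1 B := h.mono_left hx.1
    ext e
    · simp only [Finset.mem_inter, Finset.mem_union]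
      constructor
      · rintro ⟨h3 | h3, h4⟩
        · exact h3
        · exact absurd h4 (Finset.disjoint_left.1 h1 h3)
      · intro h3
        exact ⟨Or.inl h3, hx.1 h3⟩
    · simp only [Finset.mem_inter, Finset.mem_union]
      constructor
      · rintro ⟨h3 | h3, h4⟩
        · exact absurd h4 (Finset.disjoint_left.1 h2 h3)
        · exact h3
      · intro h3
        exact ⟨Or.inr h3, hx.2 h3⟩
  · intro T hT
    rw [Finset.mem_powerset] at hT
    rw [← Finset.inter_union_distrib_left, Finset.inter_eq_left.2 hT]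

/-- expectation of a function of the edges in `D` times a function of the other edges -/
lemma Ex_split {n : ℕ} (p : ℝ) (D D' : Finset (Sym2 (Fin n))) (f g : SimpleGraph (Fin n) → ℝ)
    (hd : Disjoint D D') (hf : Dep D f) (hg : Dep D' g) :
    Ex n p (fun G => f G * g G) =
      (∑ S ∈ (pairs n ∩ D).powerset, wS p (pairs n ∩ D) S * f (SimpleGraph.fromEdgeSet (S : Set (Sym2 (Fin n))))) *
      (∑ S ∈ (pairs n \ D).powerset, wS p (pairs n \ D) S * g (SimpleGraph.fromEdgeSet (S : Set (Sym2 (Fin n))))) := by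
  have hdis : Disjoint (pairs n ∩ D) (pairs n \ D) := by
    rw [Finset.disjoint_left]
    intro e h1 h2
    rw [Finset.mem_inter] at h1
    rw [Finset.mem_sdiff] at h2
    exact h2.2 h1.2
  have hun : pairs n = (pairs n ∩ D) ∪ (pairs n \ D) := by
    ext e
    simp only [Finset.mem_union, Finset.mem_inter, Finset.mem_sdiff]
    tauto
  unfold Ex
  rw [sum_graph]
  conv_lhs => rw [hun]
  rw [sum_powerset_union hdis, Finset.sum_mul_sum]
  refine Finset.sum_congr rfl (fun S hS => Finset.sum_congr rfl (fun S' hS' => ?_))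
  rw [Finset.mem_powerset] at hS hS'
  have hSS : S ∪ S' ⊆ pairs n := Finset.union_subset (hS.trans Finset.inter_subset_left)
    (hS'.trans Finset.sdiff_subset)
  rw [weight_from p hSS]
  have hw : wS p (pairs n) (S ∪ S') = wS p (pairs n ∩ D) S * wS p (pairs n \ D) S' := by
    have : wS p (pairs n) (S ∪ S') = wS p ((pairs n ∩ D) ∪ (pairs n \ D)) (S ∪ S') := by rw [← hun]
    rw [this]
    unfold wS
    rw [Finset.prod_union hdis]
    congr 1
    · refine Finset.prod_congr rfl (fun e he => ?_)
      have : e ∈ S ∪ S' ↔ e ∈ S := by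
        rw [Finset.mem_union]
        constructor
        · rintro (h | h)
          · exact h
          · exact absurd (hS' h) (Finset.disjoint_left.1 hdis he)
        · exact Or.inl
      simp only [this]
    · refine Finset.prod_congr rfl (fun e he => ?_)
      have : e ∈ S ∪ S' ↔ e ∈ S' := by
        rw [Finset.mem_union]
        constructor
        · rintro (h | h)
          · exact absurd he (Finset.disjoint_left.1 hdis (hS h))
          · exact h
        · exact Or.inr
      simp only [this]
  have e1 : f (SimpleGraph.fromEdgeSet ((S ∪ S' : Finset (Sym2 (Fin n))) : Set (Sym2 (Fin n)))) =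
      f (SimpleGraph.fromEdgeSet (S : Set (Sym2 (Fin n)))) := by
    apply hf
    intro e he
    rw [mem_edge_from hSS, mem_edge_from (hS.trans Finset.inter_subset_left), Finset.mem_union]
    constructor
    · rintro (h | h)
      · exact h
      · have := hS' h
        rw [Finset.mem_sdiff] at this
        exact absurd he this.2
    · exact Or.inl
  have e2 : g (SimpleGraph.fromEdgeSet ((S ∪ S' : Finset (Sym2 (Fin n))) : Set (Sym2 (Fin n)))) =
      g (SimpleGraph.fromEdgeSet (S' : Set (Sym2 (Fin n)))) := by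
    apply hg
    intro e he
    rw [mem_edge_from hSS, mem_edge_from (hS'.trans Finset.sdiff_subset), Finset.mem_union]
    constructor
    · rintro (h | h)
      · have := hS h
        rw [Finset.mem_inter] at this
        exact absurd he (Finset.disjoint_left.1 hd this.2)
      · exact h
    · exact Or.inr
  beta_reduce
  rw [hw, e1, e2]
  ring

theorem t_IND : S_IND := by
  intro n p D D' f g hd hf hg
  have h := Ex_split p D D' f g hd hf hg
  have h1 := Ex_split p D D' f (fun _ => 1) hd hf (fun _ _ _ => rfl)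
  have h2 := Ex_split p D D' (fun _ => 1) g hd (fun _ _ _ => rfl) hg
  simp only [mul_one, one_mul, sum_wS] at h1 h2
  rw [h]
  exact congrArg₂ (· * ·) h1.symm h2.symm

theorem t_CYL : S_CYL := by
  intro n p G₀ D hD
  unfold Pr Ex
  have h1 : ∀ G : SimpleGraph (Fin n), erWeight n p G * (if Cyl G₀ D G then (1 : ℝ) else 0) =
      ∏ e ∈ pairs n, (if e ∈ G.edgeSet then (if e ∈ D ∧ e ∉ G₀.edgeSet then 0 else p) else
        (if e ∈ D ∧ e ∈ G₀.edgeSet then 0 else 1 - p)) := by
    intro G
    split_ifs with h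
    · rw [mul_one]
      unfold erWeight
      refine Finset.prod_congr rfl (fun e _ => ?_)
      by_cases h2 : e ∈ G.edgeSet
      · rw [if_pos h2, if_pos h2, if_neg]
        rintro ⟨h3, h4⟩
        exact h4 ((h e h3).1 h2)
      · rw [if_neg h2, if_neg h2, if_neg]
        rintro ⟨h3, h4⟩
        exact h2 ((h e h3).2 h4)
    · rw [mul_zero]
      unfold Cyl at h
      push Not at h
      obtain ⟨e, he, he2⟩ := h
      symm
      apply Finset.prod_eq_zero (hD he)
      rcases he2 with ⟨h3, h4⟩ | ⟨h3, h4⟩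
      · rw [if_pos h3, if_pos ⟨he, h4⟩]
      · rw [if_neg h3, if_pos ⟨he, h4⟩]
  rw [Finset.sum_congr rfl (fun G _ => h1 G)]
  rw [sum_graph_prod (fun e => if e ∈ D ∧ e ∉ G₀.edgeSet then 0 else p)
    (fun e => if e ∈ D ∧ e ∈ G₀.edgeSet then 0 else 1 - p)]
  rw [← Finset.prod_subset hD]
  · refine Finset.prod_congr rfl (fun e he => ?_)
    by_cases h : e ∈ G₀.edgeSet <;> simp [he, h]
  · intro e _ he
    simp [he]

end Pool.Agent.H249.ER
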