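import Pool.Agent.H249.ER.Bal

/-! # The tree with one infinite ray -/

set_option autoImplicit false

open Finset BigOperators MeasureTheory ProbabilityTheory
open scoped Classical

namespace Pool.Agent.H249.ER

/-- the parent -/
def par : ℕ × List ℕ → ℕ × List ℕ
  | (j, _ :: w) => (j, w)
  | (0, []) => (0, [])
  | (j + 1, []) => (j, [])

/-- the depth -/
def dep (a : ℕ × List ℕ) : ℕ := a.1 + a.2.length

/-- membership in the tree -/
def inn' (ω : ℕ × List ℕ → ℕ) (a : ℕ × List ℕ) : Prop := inT ω a.1 a.2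

lemma dep_par {a : ℕ × List ℕ} (h : a ≠ (0, [])) : dep a = dep (par a) + 1 := by
  obtain ⟨j, w⟩ := a
  cases w with
  | nil =>
    cases j with
    | zero => exact absurd rfl h
    | succ j => simp [dep, par]
  | cons i w => simp [dep, par]; ring

lemma in_par {ω : ℕ × List ℕ → ℕ} {a : ℕ × List ℕ} (h : inn' ω a) : inn' ω (par a) := by
  obtain ⟨j, w⟩ := a
  cases w with
  | nil =>
    cases j with
    | zero => exact h
    | succ j => exact trivial
  | cons i w => exact h.1

/-- adjacency by the parent map -/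
lemma kesten_adj (ω : ℕ × List ℕ → ℕ) (a b : ℕ × List ℕ) :
    (kesten ω).Adj a b ↔ (inn' ω b ∧ b ≠ (0, []) ∧ par b = a) ∨ (inn' ω a ∧ a ≠ (0, []) ∧ par a = b) := by
  have key : ∀ a b : ℕ × List ℕ, ((a.2 = [] ∧ b = (a.1 + 1, [])) ∨ (∃ i, b = (a.1, i :: a.2) ∧ inT ω a.1 (i :: a.2))) ↔
      (inn' ω b ∧ b ≠ (0, []) ∧ par b = a) := by
    rintro ⟨j, w⟩ ⟨j', w'⟩
    constructor
    · rintro (⟨h1, h2⟩ | ⟨i, h1, h2⟩)
      · simp only at h1 h2
        rw [h2]
        refine ⟨trivial, by simp, ?_⟩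
        rw [h1]
        rfl
      · simp only at h1 h2
        rw [h1]
        exact ⟨h2, by simp, rfl⟩
    · rintro ⟨h1, h2, h3⟩
      cases w' with
      | nil =>
        cases j' with
        | zero => exact absurd rfl h2
        | succ j' =>
          left
          have : (j', ([] : List ℕ)) = (j, w) := h3
          obtain ⟨rfl, rfl⟩ := Prod.mk.inj this
          exact ⟨rfl, rfl⟩
      | cons i w' =>
        right
        have : (j', w') = (j, w) := h3
        obtain ⟨rfl, rfl⟩ := Prod.mk.inj this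
        exact ⟨i, rfl, h1⟩
  rw [← key a b, ← key b a]
  show (a.2 = [] ∧ b = (a.1 + 1, [])) ∨ (b.2 = [] ∧ a = (b.1 + 1, [])) ∨
    (∃ i, b = (a.1, i :: a.2) ∧ inT ω a.1 (i :: a.2)) ∨ (∃ i, a = (b.1, i :: b.2) ∧ inT ω b.1 (i :: b.2)) ↔ _
  constructor
  · rintro (h | h | h | h)
    · exact Or.inl (Or.inl h)
    · exact Or.inr (Or.inl h)
    · exact Or.inl (Or.inr h)
    · exact Or.inr (Or.inr h)
  · rintro ((h | h) | (h | h))
    · exact Or.inl h
    · exact Or.inr (Or.inr (Or.inl h))
    · exact Or.inr (Or.inl h)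
    · exact Or.inr (Or.inr (Or.inr h))

lemma kesten_ball (ω : ℕ × List ℕ → ℕ) (r : ℕ) : ∀ a : ℕ × List ℕ,
    (kesten ω).edist (0, []) a ≤ (r : ℕ∞) ↔ (inn' ω a ∧ dep a ≤ r) := by
  induction r with
  | zero =>
    intro a
    rw [edist_zero]
    constructor
    · rintro rfl
      exact ⟨trivial, by simp [dep]⟩
    · rintro ⟨_, h⟩
      obtain ⟨j, w⟩ := a
      simp only [dep, Nat.le_zero, Nat.add_eq_zero_iff, List.length_eq_zero_iff] at h
      rw [h.1, h.2]
  | succ r ih =>
    intro a
    rw [edist_succ]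
    constructor
    · rintro ⟨b, hb, hba⟩
      rw [ih b] at hb
      rcases hba with rfl | hadj
      · exact ⟨hb.1, by omega⟩
      · rw [kesten_adj] at hadj
        rcases hadj with ⟨h1, h2, h3⟩ | ⟨h1, h2, h3⟩
        · refine ⟨h1, ?_⟩
          rw [dep_par h2, h3]
          omega
        · refine ⟨h3 ▸ in_par h1, ?_⟩
          have := dep_par h2
          rw [h3] at this
          omega
    · rintro ⟨h1, h2⟩
      by_cases ha : a = (0, [])
      · exact ⟨a, (ih a).2 ⟨h1, by rw [ha]; simp [dep]⟩, Or.inl rfl⟩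
      · refine ⟨par a, (ih _).2 ⟨in_par h1, ?_⟩, Or.inr ((kesten_adj ω _ _).2 (Or.inl ⟨h1, ha, rfl⟩))⟩
        have := dep_par ha
        omega

theorem t_K1 : S_K1 := fun ω j w r => kesten_ball ω r (j, w)

lemma dep_par_le (a : ℕ × List ℕ) : dep (par a) ≤ dep a := by
  by_cases h : a = (0, [])
  · rw [h]
    exact le_refl _
  · rw [dep_par h]
    omega

lemma dep_iter_le (k : ℕ) (a : ℕ × List ℕ) : dep (par^[k] a) ≤ dep a := by
  induction k with
  | zero => exact le_refl _
  | succ k ih =>
    rw [Function.iterate_succ', Function.comp]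
    exact le_trans (dep_par_le _) ih

lemma kesten_acyclic (ω : ℕ × List ℕ → ℕ) : (kesten ω).IsAcyclic := by
  have key : ∀ a b : ℕ × List ℕ, inn' ω b → b ≠ (0, []) → par b = a →
      ¬ ((kesten ω).deleteEdges {s(a, b)}).Reachable b a := by
    intro a b _ hb0 hpar hreach
    obtain ⟨q⟩ := hreach
    -- the descendants of `b`
    have hclosed : ∀ (x y : ℕ × List ℕ) (q : ((kesten ω).deleteEdges {s(a, b)}).Walk x y),
        (∃ k, par^[k] x = b) → ∃ k, par^[k] y = b := by
      intro x y q
      induction q with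
      | nil => exact fun h => h
      | @cons x z y hadj q ih =>
        intro hx
        apply ih
        obtain ⟨k, hk⟩ := hx
        rw [SimpleGraph.deleteEdges_adj] at hadj
        obtain ⟨hadj, hne⟩ := hadj
        rw [kesten_adj] at hadj
        rcases hadj with ⟨_, _, h3⟩ | ⟨_, _, h3⟩
        · refine ⟨k + 1, ?_⟩
          rw [Function.iterate_succ, Function.comp, h3, hk]
        · cases k with
          | zero =>
            exfalso
            apply hne
            have : x = b := hk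
            rw [this] at h3 ⊢
            rw [← h3, hpar, Sym2.eq_swap]
            rfl
          | succ k =>
            refine ⟨k, ?_⟩
            rw [Function.iterate_succ, Function.comp, h3] at hk
            exact hk
    obtain ⟨k, hk⟩ := hclosed b a q ⟨0, rfl⟩
    have h1 := dep_iter_le k a
    rw [hk, dep_par hb0, hpar] at h1
    omega
  rw [SimpleGraph.isAcyclic_iff_forall_adj_isBridge]
  intro a b hab
  rw [SimpleGraph.isBridge_iff]
  rw [kesten_adj] at hab
  rcases hab with ⟨h1, h2, h3⟩ | ⟨h1, h2, h3⟩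
  · intro h
    exact key a b h1 h2 h3 h.symm
  · intro h
    rw [Sym2.eq_swap] at h
    exact key b a h1 h2 h3 h

lemma conn_of_cov {m : ℕ} {F : SimpleGraph (Fin m)} {u : Fin m} {r : ℕ} (hc : Cov F u r) : F.Connected := by
  have : Nonempty (Fin m) := ⟨u⟩
  refine SimpleGraph.Connected.mk (fun x y => ?_)
  have h1 : ∀ z, F.Reachable u z := fun z =>
    SimpleGraph.reachable_of_edist_ne_top (ne_top_of_le_ne_top (ENat.natCast_ne_top r) (hc z))
  exact (h1 x).symm.trans (h1 y)

theorem t_K2 : S_K2 := by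
  refine ⟨kesten_acyclic, ?_⟩
  intro ω r m F u h
  rw [ballIso_iff] at h
  obtain ⟨f, hf⟩ := h
  have hf' := hf
  obtain ⟨hinj, hfu, hadj, hrange⟩ := hf
  have hc : Cov F u r := by
    intro x
    have h1 : f x ∈ {x | (kesten ω).edist (0, []) x ≤ (r : ℕ∞)} := by rw [← hrange]; exact ⟨x, rfl⟩
    exact (emb_edist hf' r le_rfl x).1 h1
  refine ⟨⟨conn_of_cov hc, ?_⟩, hc⟩
  exact SimpleGraph.IsAcyclic.comap (⟨f, fun {a b} h => (hadj a b).2 h⟩ : F →g kesten ω) hinj (kesten_acyclic ω)

end Pool.Agent.H249.ER
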