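import Pool.Agent.H249.ER.RT

/-! # Embeddings into the tree with one infinite ray -/

set_option autoImplicit false

open Finset BigOperators
open scoped Classical

namespace Pool.Agent.H249.ER

section
variable {m : ℕ} {F : SimpleGraph (Fin m)} {u y : Fin m} {r : ℕ} (T : RT F u y r)

lemma child_inj (a : ℕ × List ℕ) : Function.Injective (fun i : ℕ => (a.1, i :: a.2)) := by
  intro i j h
  have := congrArg Prod.snd h
  simp only [List.cons.injEq, and_true] at this
  exact this

theorem RT.emb_imp (ω : ℕ × List ℕ → ℕ) (f : Fin m → ℕ × List ℕ)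
    (hE : Emb (kesten ω) (0, []) r F u f) (hfy : f y = (r, [])) :
    T.Sp f ∧ ∀ x, T.d x < r → ω (f x) = (T.nc x).card := by
  have hE' := hE
  obtain ⟨hinj, hfu, hadj, hrange⟩ := hE
  have hdep : ∀ z, inn' ω (f z) ∧ dep (f z) = T.d z := by
    intro z
    have h1 : (kesten ω).edist (0, []) (f z) ≤ ((T.d z : ℕ) : ℕ∞) :=
      (emb_edist hE' (T.d z) (T.dr z) z).2 (by rw [T.ed])
    rw [kesten_ball] at h1
    refine ⟨h1.1, le_antisymm h1.2 ?_⟩
    have h2 : F.edist u z ≤ ((dep (f z) : ℕ) : ℕ∞) :=
      (emb_edist hE' (dep (f z)) (le_trans h1.2 (T.dr z)) z).1 ((kesten_ball ω _ _).2 ⟨h1.1, le_rfl⟩)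
    rw [T.ed] at h2
    exact_mod_cast h2
  have hpar : ∀ z, z ≠ u → par (f z) = f (T.π z) := by
    intro z hz
    have h1 : F.Adj (T.π z) z := (T.adj _ _).2 (Or.inl ⟨hz, rfl⟩)
    have h2 := (hadj _ _).2 h1
    rw [kesten_adj] at h2
    rcases h2 with ⟨_, _, h3⟩ | ⟨_, h4, h3⟩
    · exact h3
    · exfalso
      have h5 := dep_par h4
      rw [h3, (hdep _).2, (hdep _).2, T.d_π] at h5
      omega
  have hR : ∀ z, T.R z → f z = (T.d z, []) := by
    rintro z ⟨k, rfl⟩
    induction k with
    | zero =>
      show f y = (T.d y, [])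
      rw [hfy, T.dy]
    | succ k ih =>
      rw [Function.iterate_succ', Function.comp]
      by_cases hz : T.π^[k] y = u
      · rw [hz, T.πu, hfu, T.du]
      · rw [← hpar _ hz, ih, T.dpos _ hz]
        rfl
  have hnil : ∀ z, ¬ T.R z → ∃ j i w, f z = (j, i :: w) := by
    intro z hz
    rcases hfz : f z with ⟨j, w⟩
    cases w with
    | nil =>
      exfalso
      have h1 := (hdep z).2
      rw [hfz] at h1
      simp only [dep, List.length_nil, Nat.add_zero] at h1
      obtain ⟨z', h2, h3⟩ := T.R_exists (t := j) (by rw [h1]; exact T.dr z)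
      have h4 : f z' = f z := by rw [hR z' h2, h3, hfz]
      rw [hinj h4] at h2
      exact hz h2
    | cons i w => exact ⟨j, i, w, rfl⟩
  have hcount : ∀ x, T.d x < r → ω (f x) = (T.nc x).card := by
    intro x hx
    have himg : (T.nc x).image f = (Finset.range (ω (f x))).image (fun i : ℕ => ((f x).1, i :: (f x).2)) := by
      ext b
      rw [Finset.mem_image, Finset.mem_image]
      constructor
      · rintro ⟨z, hz, rfl⟩
        rw [T.mem_nc] at hz
        obtain ⟨j, i, w, hfz⟩ := hnil z hz.2
        have hzu : z ≠ u := by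
          rintro rfl
          exact hz.2 T.R_u
        have h1 := hpar z hzu
        rw [hz.1, hfz] at h1
        have h2 : (j, w) = f x := h1
        refine ⟨i, ?_, by rw [hfz, ← h2]⟩
        rw [Finset.mem_range]
        have h3 := (hdep z).1
        rw [hfz] at h3
        have h4 : i < ω (j, w) := h3.2
        rw [h2] at h4
        exact h4
      · rintro ⟨i, hi, rfl⟩
        rw [Finset.mem_range] at hi
        have h1 : inn' ω ((f x).1, i :: (f x).2) := ⟨(hdep x).1, hi⟩
        have h2 : dep ((f x).1, i :: (f x).2) ≤ r := by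
          have := (hdep x).2
          simp only [dep, List.length_cons] at this ⊢
          omega
        have h3 : ((f x).1, i :: (f x).2) ∈ Set.range f := by
          rw [hrange]
          exact (kesten_ball ω r _).2 ⟨h1, h2⟩
        obtain ⟨z, hz⟩ := h3
        have hzR : ¬ T.R z := by
          intro h4
          rw [hR z h4] at hz
          simp at hz
        have hzu : z ≠ u := by
          rintro rfl
          exact hzR T.R_u
        refine ⟨z, (T.mem_nc).2 ⟨?_, hzR⟩, hz⟩
        apply hinj
        rw [← hpar z hzu, hz]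
        rfl
    have hc := congrArg Finset.card himg
    rw [Finset.card_image_of_injective _ hinj, Finset.card_image_of_injective _ (child_inj (f x)),
      Finset.card_range] at hc
    exact hc.symm
  refine ⟨⟨hR, ?_, ?_⟩, hcount⟩
  · intro z hz
    have hzu : z ≠ u := by
      rintro rfl
      exact hz T.R_u
    obtain ⟨j, i, w, hfz⟩ := hnil z hz
    have h1 := hpar z hzu
    rw [hfz] at h1
    have h2 : (j, w) = f (T.π z) := h1
    have h3 := (hdep z).1
    rw [hfz] at h3
    have h4 : i < ω (j, w) := h3.2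
    refine ⟨i, ?_, by rw [hfz, ← h2]⟩
    rw [h2] at h4
    rw [← hcount (T.π z) ?_]
    · exact h4
    · have := T.dr z
      have h5 := T.dpos z hzu
      omega
  · intro z z' _ _ _ h
    exact hinj h

theorem RT.emb_of (ω : ℕ × List ℕ → ℕ) (f : Fin m → ℕ × List ℕ) (hS : T.Sp f)
    (hω : ∀ x, T.d x < r → ω (f x) = (T.nc x).card) :
    Emb (kesten ω) (0, []) r F u f ∧ f y = (r, []) := by
  have hinj := T.Sp_inj hS
  have hdep : ∀ z, dep (f z) = T.d z := fun z => T.Sp_dep hS _ z rfl
  have hfu : f u = (0, []) := by rw [hS.1 u T.R_u, T.du]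
  have hfy : f y = (r, []) := by rw [hS.1 y ⟨0, rfl⟩, T.dy]
  have hin : ∀ (k : ℕ) (z : Fin m), T.d z = k → inn' ω (f z) := by
    intro k
    induction k with
    | zero =>
      intro z hz
      rw [T.d_zero hz, hfu]
      trivial
    | succ k ih =>
      intro z hz
      by_cases hR : T.R z
      · rw [hS.1 z hR]
        trivial
      · obtain ⟨i, hi, hf⟩ := hS.2.1 z hR
        have hzr := T.dr z
        have h1 := ih (T.π z) (by rw [T.d_π, hz]; rfl)
        rw [← hω (T.π z) (by rw [T.d_π]; omega)] at hi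
        rw [hf]
        exact ⟨h1, hi⟩
  have hin' : ∀ z, inn' ω (f z) := fun z => hin _ z rfl
  have hpar : ∀ z, z ≠ u → par (f z) = f (T.π z) := by
    intro z hz
    by_cases hR : T.R z
    · rw [hS.1 z hR, hS.1 _ (T.R_π hR), T.dpos z hz]
      rfl
    · obtain ⟨i, _, hf⟩ := hS.2.1 z hR
      rw [hf]
      rfl
  have hne : ∀ z, z ≠ u → f z ≠ (0, []) := by
    intro z hz h
    apply hz
    apply hinj
    rw [h, hfu]
  refine ⟨⟨hinj, hfu, ?_, ?_⟩, hfy⟩
  · intro x z
    rw [kesten_adj, T.adj]
    constructor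
    · rintro (⟨_, h2, h3⟩ | ⟨_, h2, h3⟩)
      · left
        have hz : z ≠ u := fun h => h2 (by rw [h, hfu])
        rw [hpar z hz] at h3
        exact ⟨hz, hinj h3⟩
      · right
        have hx : x ≠ u := fun h => h2 (by rw [h, hfu])
        rw [hpar x hx] at h3
        exact ⟨hx, hinj h3⟩
    · rintro (⟨h1, h2⟩ | ⟨h1, h2⟩)
      · exact Or.inl ⟨hin' z, hne z h1, by rw [hpar z h1, h2]⟩
      · exact Or.inr ⟨hin' x, hne x h1, by rw [hpar x h1, h2]⟩
  · have hsurj : ∀ (k : ℕ) (a : ℕ × List ℕ), dep a = k → inn' ω a → k ≤ r → ∃ z, f z = a := by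
      intro k
      induction k with
      | zero =>
        intro a ha _ _
        refine ⟨u, ?_⟩
        obtain ⟨j, w⟩ := a
        simp only [dep, Nat.add_eq_zero_iff, List.length_eq_zero_iff] at ha
        rw [hfu, ha.1, ha.2]
      | succ k ih =>
        intro a ha hina hk
        have ha0 : a ≠ (0, []) := by
          rintro rfl
          simp [dep] at ha
        have h1 := dep_par ha0
        obtain ⟨x, hx⟩ := ih (par a) (by omega) (in_par hina) (by omega)
        have hdx : T.d x = k := by rw [← hdep x, hx]; omega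
        obtain ⟨j, w⟩ := a
        cases w with
        | nil =>
          simp only [dep, List.length_nil, Nat.add_zero] at ha
          obtain ⟨z', h2, h3⟩ := T.R_exists (t := j) (by omega)
          exact ⟨z', by rw [hS.1 z' h2, h3]⟩
        | cons i w =>
          have hxa : f x = (j, w) := hx
          have hi : i < (T.nc x).card := by
            rw [← hω x (by omega), hxa]
            exact hina.2
          have himg : (T.nc x).image f = (Finset.range (T.nc x).card).image (fun i : ℕ => ((f x).1, i :: (f x).2)) := by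
            apply Finset.eq_of_subset_of_card_le
            · intro b hb
              obtain ⟨z, hz, rfl⟩ := Finset.mem_image.1 hb
              rw [T.mem_nc] at hz
              obtain ⟨i', hi', hf⟩ := hS.2.1 z hz.2
              rw [hz.1] at hi' hf
              exact Finset.mem_image.2 ⟨i', Finset.mem_range.2 hi', hf.symm⟩
            · rw [Finset.card_image_of_injective _ hinj, Finset.card_image_of_injective _ (child_inj (f x)),
                Finset.card_range]
          have h4 : ((f x).1, i :: (f x).2) ∈ (T.nc x).image f := by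
            rw [himg]
            exact Finset.mem_image.2 ⟨i, Finset.mem_range.2 hi, rfl⟩
          obtain ⟨z, _, hz⟩ := Finset.mem_image.1 h4
          refine ⟨z, ?_⟩
          rw [hz, hxa]
    ext a
    constructor
    · rintro ⟨z, rfl⟩
      exact (kesten_ball ω r _).2 ⟨hin' z, by rw [hdep]; exact T.dr z⟩
    · intro ha
      have h1 := (kesten_ball ω r _).1 ha
      exact hsurj _ a rfl h1.1 h1.2

/-! ## The number of shapes -/

/-- the labels -/
noncomputable def RT.lab (ℓ : ∀ x : Fin m, {z // z ∈ T.nc x} ≃ Fin (T.nc x).card) (z : Fin m) : ℕ :=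
  if h : z ∈ T.nc (T.π z) then (ℓ (T.π z) ⟨z, h⟩ : ℕ) else 0

/-- the shape with given labels -/
noncomputable def RT.shp (lb : Fin m → ℕ) : ℕ → Fin m → ℕ × List ℕ
  | 0, z => (T.d z, [])
  | t + 1, z => if T.R z then (T.d z, []) else ((RT.shp lb t (T.π z)).1, lb z :: (RT.shp lb t (T.π z)).2)

lemma RT.shp_R (lb : Fin m → ℕ) {z : Fin m} (h : T.R z) : T.shp lb (T.d z) z = (T.d z, []) := by
  cases hd : T.d z with
  | zero => rw [RT.shp, hd]
  | succ t => rw [RT.shp, if_pos h, hd]

lemma RT.shp_nR (lb : Fin m → ℕ) {z : Fin m} (h : ¬ T.R z) :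
    T.shp lb (T.d z) z = ((T.shp lb (T.d (T.π z)) (T.π z)).1, lb z :: (T.shp lb (T.d (T.π z)) (T.π z)).2) := by
  have hzu : z ≠ u := by
    rintro rfl
    exact h T.R_u
  conv_lhs => rw [T.dpos z hzu]
  rw [RT.shp, if_neg h]

lemma RT.card_shapes : Nat.card {f : Fin m → ℕ × List ℕ // T.Sp f} = ∏ x, ((T.nc x).card).factorial := by
  have hL : Fintype.card (∀ x : Fin m, {z // z ∈ T.nc x} ≃ Fin (T.nc x).card) = ∏ x, ((T.nc x).card).factorial := by
    rw [Fintype.card_pi]
    refine Finset.prod_congr rfl (fun x _ => ?_)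
    rw [Fintype.card_equiv ((T.nc x).equivFin), Fintype.card_coe]
  have hmem : ∀ z, ¬ T.R z → z ∈ T.nc (T.π z) := fun z hz => T.mem_nc.2 ⟨rfl, hz⟩
  let Φ : (∀ x : Fin m, {z // z ∈ T.nc x} ≃ Fin (T.nc x).card) → {f : Fin m → ℕ × List ℕ // T.Sp f} := fun ℓ =>
    ⟨fun z => T.shp (T.lab ℓ) (T.d z) z, by
      refine ⟨fun z hz => T.shp_R _ hz, ?_, ?_⟩
      · intro z hz
        refine ⟨T.lab ℓ z, ?_, T.shp_nR _ hz⟩
        unfold RT.lab
        rw [dif_pos (hmem z hz)]
        exact Fin.is_lt _
      · intro z z' hz hz' hπ hf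
        simp only at hf
        rw [T.shp_nR _ hz, T.shp_nR _ hz', hπ] at hf
        have h1 := congrArg Prod.snd hf
        simp only [List.cons.injEq, and_true] at h1
        have a1 := hmem z hz
        have a2 := hmem z' hz'
        unfold RT.lab at h1
        rw [dif_pos a1, dif_pos a2] at h1
        have key : ∀ (x x' : Fin m) (b1 : z ∈ T.nc x) (b2 : z' ∈ T.nc x'), x = x' →
            (ℓ x ⟨z, b1⟩ : ℕ) = (ℓ x' ⟨z', b2⟩ : ℕ) → z = z' := by
          intro x x' b1 b2 hx h
          subst hx
          have := (ℓ x).injective (Fin.ext h)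
          exact congrArg Subtype.val this
        exact key _ _ a1 a2 hπ h1⟩
  have hbij : Function.Bijective Φ := by
    constructor
    · intro ℓ ℓ' h
      funext x
      ext ⟨z, hz⟩
      have hz' := T.mem_nc.1 hz
      have h1 := congrFun (congrArg Subtype.val h) z
      simp only [Φ] at h1
      rw [T.shp_nR _ hz'.2, T.shp_nR _ hz'.2] at h1
      have h2 := congrArg Prod.snd h1
      simp only [List.cons.injEq] at h2
      have h3 := h2.1
      unfold RT.lab at h3
      rw [dif_pos (hmem z hz'.2), dif_pos (hmem z hz'.2)] at h3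
      have key : ∀ (x' : Fin m) (hx : x' = x) (b : z ∈ T.nc x'), (ℓ x' ⟨z, b⟩ : ℕ) = (ℓ' x' ⟨z, b⟩ : ℕ) →
          (ℓ x ⟨z, hz⟩ : ℕ) = (ℓ' x ⟨z, hz⟩ : ℕ) := by
        intro x' hx b h
        subst hx
        exact h
      exact key _ hz'.1 _ h3
    · rintro ⟨f, hf⟩
      -- the label of `z`
      choose! g hg using hf.2.1
      have hgx : ∀ x, ∀ z ∈ T.nc x, g z < (T.nc x).card ∧ f z = ((f x).1, g z :: (f x).2) := by
        intro x z hz
        have := T.mem_nc.1 hz
        have h2 := hg z this.2
        rw [this.1] at h2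
        exact h2
      have hbij : ∀ x, Function.Bijective (fun z : {z // z ∈ T.nc x} => (⟨g z.1, (hgx x z.1 z.2).1⟩ : Fin (T.nc x).card)) := by
        intro x
        rw [Fintype.bijective_iff_injective_and_card]
        constructor
        · rintro ⟨z, hz⟩ ⟨z', hz'⟩ h
          have h1 : g z = g z' := congrArg Fin.val h
          apply Subtype.ext
          have c1 := T.mem_nc.1 hz
          have c2 := T.mem_nc.1 hz'
          refine hf.2.2 z z' c1.2 c2.2 (by rw [c1.1, c2.1]) ?_
          rw [(hgx x z hz).2, (hgx x z' hz').2, h1]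
        · rw [Fintype.card_coe, Fintype.card_fin]
      let ℓ : ∀ x : Fin m, {z // z ∈ T.nc x} ≃ Fin (T.nc x).card := fun x => Equiv.ofBijective _ (hbij x)
      refine ⟨ℓ, Subtype.ext ?_⟩
      have hlab : ∀ z, ¬ T.R z → T.lab ℓ z = g z := by
        intro z hz
        unfold RT.lab
        rw [dif_pos (hmem z hz)]
        rfl
      have key : ∀ (k : ℕ) (z : Fin m), T.d z = k → T.shp (T.lab ℓ) (T.d z) z = f z := by
        intro k
        induction k with
        | zero =>
          intro z hz
          have hu := T.d_zero hz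
          have hR : T.R z := by rw [hu]; exact T.R_u
          rw [T.shp_R _ hR, hf.1 z hR]
        | succ k ih =>
          intro z hz
          by_cases hR : T.R z
          · rw [T.shp_R _ hR, hf.1 z hR]
          · rw [T.shp_nR _ hR, ih (T.π z) (by rw [T.d_π, hz]; rfl), hlab z hR]
            exact (hg z hR).2.symm
      funext z
      exact key _ z rfl
  rw [← Nat.card_congr (Equiv.ofBijective Φ hbij), Nat.card_eq_fintype_card, hL]

end

end Pool.Agent.H249.ER
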