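import Pool.Agent.H249.ER.Stm

/-! # Independent Poisson variables -/

set_option autoImplicit false

open Finset BigOperators MeasureTheory ProbabilityTheory
open scoped Classical

namespace Pool.Agent.H249.ER

theorem t_K5 : S_K5 := by
  intro m f hf I c
  -- the condition as a box over `I.image f`
  let t : (ℕ × List ℕ) → Set ℕ := fun j => {k | ∃ x ∈ I, f x = j ∧ k = c x}
  have hset : {ω : ℕ × List ℕ → ℕ | ∀ x ∈ I, ω (f x) = c x} = Set.pi ((I.image f : Finset (ℕ × List ℕ)) : Set (ℕ × List ℕ)) t := by
    ext ω
    constructor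
    · intro h j hj
      obtain ⟨x, hx, rfl⟩ := Finset.mem_image.1 (Finset.mem_coe.1 hj)
      exact ⟨x, hx, rfl, h x hx⟩
    · intro h x hx
      obtain ⟨y, hy, hxy, h2⟩ := h (f x) (Finset.mem_coe.2 (Finset.mem_image_of_mem f hx))
      have := hf hxy
      subst this
      exact h2
  have htm : ∀ j, MeasurableSet (t j) := fun j => MeasurableSet.of_discrete
  have ht : ∀ x ∈ I, t (f x) = {c x} := by
    intro x hx
    ext k
    constructor
    · rintro ⟨y, _, hxy, h2⟩
      have := hf hxy
      subst this
      exact h2
    · intro h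
      exact ⟨x, hx, rfl, h⟩
  refine ⟨?_, ?_⟩
  · rw [hset]
    exact MeasurableSet.pi (Finset.countable_toSet _) (fun j _ => htm j)
  · rw [hset, measureReal_def]
    unfold poi
    rw [Measure.infinitePi_pi _ (fun j _ => htm j), Finset.prod_image (fun x _ y _ h => hf h), ENNReal.toReal_prod]
    refine Finset.prod_congr rfl (fun x hx => ?_)
    rw [ht x hx, ← measureReal_def, poissonMeasure_real_singleton]
    simp

end Pool.Agent.H249.ER
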