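import Pool.Agent.H249.ER.K3
import Pool.Agent.H249.ER.K5
import Pool.Agent.H249.ER.Cnt

/-! # The law of the ball of the tree with one infinite ray -/

set_option autoImplicit false

open Finset BigOperators MeasureTheory ProbabilityTheory
open scoped Classical

namespace Pool.Agent.H249.ER

instance : IsProbabilityMeasure poi := by
  unfold poi
  infer_instance

section
variable {m : ℕ} {F : SimpleGraph (Fin m)} {u : Fin m} {r : ℕ}

lemma shapes_finite {y : Fin m} (T : RT F u y r) : Finite {f : Fin m → ℕ × List ℕ // T.Sp f} := by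
  apply Nat.finite_of_card_ne_zero
  rw [T.card_shapes]
  exact Finset.prod_ne_zero_iff.2 (fun x _ => Nat.factorial_ne_zero _)

/-- the event for a shape -/
def evt {y : Fin m} (T : RT F u y r) (f : Fin m → ℕ × List ℕ) : Set (ℕ × List ℕ → ℕ) :=
  {ω | ∀ x ∈ inn F u r, ω (f x) = (T.nc x).card}

lemma mem_inn {y : Fin m} (T : RT F u y r) (x : Fin m) : x ∈ inn F u r ↔ T.d x < r := by
  simp only [inn, Finset.mem_filter, Finset.mem_univ, true_and]
  rw [T.ed]
  exact_mod_cast Iff.rfl

lemma evt_iff {y : Fin m} (T : RT F u y r) (f : Fin m → ℕ × List ℕ) (ω : ℕ × List ℕ → ℕ) :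
    (Emb (kesten ω) (0, []) r F u f ∧ f y = (r, [])) ↔ (T.Sp f ∧ ω ∈ evt T f) := by
  constructor
  · rintro ⟨h1, h2⟩
    obtain ⟨h3, h4⟩ := T.emb_imp ω f h1 h2
    exact ⟨h3, fun x hx => h4 x ((mem_inn T x).1 hx)⟩
  · rintro ⟨h1, h2⟩
    exact T.emb_of ω f h1 (fun x hx => h2 x ((mem_inn T x).2 hx))

lemma evt_meas {y : Fin m} (T : RT F u y r) {f : Fin m → ℕ × List ℕ} (hf : T.Sp f) :
    MeasurableSet (evt T f) ∧ poi.real (evt T f) =
      Real.exp (-1) ^ (inn F u r).card / ∏ x, (((T.nc x).card).factorial : ℝ) := by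
  obtain ⟨h1, h2⟩ := t_K5 m f (T.Sp_inj hf) (inn F u r) (fun x => (T.nc x).card)
  refine ⟨h1, ?_⟩
  have e1 : poi.real (evt T f) = ∏ x ∈ inn F u r, (Real.exp (-1) / (((T.nc x).card).factorial : ℝ)) := h2
  rw [e1, Finset.prod_div_distrib, Finset.prod_const]
  congr 1
  apply Finset.prod_subset (Finset.subset_univ _)
  intro x _ hx
  have hx' : T.nc x = ∅ := by
    rw [Finset.eq_empty_iff_forall_notMem]
    intro z hz
    rw [T.mem_nc] at hz
    apply hx
    rw [mem_inn T, ← hz.1]
    have hzu : z ≠ u := by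
      rintro rfl
      exact hz.2 T.R_u
    have := T.dpos z hzu
    have := T.dr z
    omega
  rw [hx']
  simp

lemma sum_evt {y : Fin m} (T : RT F u y r) [Fintype {f : Fin m → ℕ × List ℕ // T.Sp f}] :
    ∑ f : {f : Fin m → ℕ × List ℕ // T.Sp f}, poi.real (evt T f.1) = Real.exp (-1) ^ (inn F u r).card := by
  rw [Finset.sum_congr rfl (fun f _ => (evt_meas T f.2).2), Finset.sum_const, Finset.card_univ, nsmul_eq_mul,
    ← Nat.card_eq_fintype_card, T.card_shapes]
  have : (∏ x, (((T.nc x).card).factorial : ℝ)) ≠ 0 :=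
    Finset.prod_ne_zero_iff.2 (fun x _ => by exact_mod_cast Nat.factorial_ne_zero _)
  push_cast
  field_simp

/-- a vertex of `F` is mapped to the end of the ray -/
lemma hit {ω : ℕ × List ℕ → ℕ} {f : Fin m → ℕ × List ℕ} (h : Emb (kesten ω) (0, []) r F u f) :
    ∃ y, F.edist u y = (r : ℕ∞) ∧ f y = (r, []) := by
  have hr := h.2.2.2
  have h1 : ((r, []) : ℕ × List ℕ) ∈ Set.range f := by
    rw [hr]
    refine (kesten_ball ω r _).2 ⟨trivial, ?_⟩
    simp [dep]
  obtain ⟨y, hy⟩ := h1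
  refine ⟨y, (emb_eq h y).1 ?_, hy⟩
  rw [hy, eq_iff_le]
  refine ⟨(kesten_ball ω r _).2 ⟨trivial, by simp [dep]⟩, fun k hk h2 => ?_⟩
  have := ((kesten_ball ω k _).1 h2).2
  simp only [dep, List.length_nil, Nat.add_zero] at this
  omega

end

theorem t_KES : S_KES := by
  intro r m F u
  by_cases hF : F.IsTree ∧ Cov F u r
  · obtain ⟨hT, hc⟩ := hF
    have hrt : ∀ y : {y // y ∈ bd F u r}, Nonempty (RT F u y.1 r) := fun y => exists_rt hT hc (mem_bd.1 y.2)
    let T : ∀ y : {y // y ∈ bd F u r}, RT F u y.1 r := fun y => (hrt y).some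
    have hfin : ∀ y, Finite {f : Fin m → ℕ × List ℕ // (T y).Sp f} := fun y => shapes_finite (T y)
    have hft : ∀ y, Fintype {f : Fin m → ℕ × List ℕ // (T y).Sp f} := fun y => Fintype.ofFinite _
    set S : Set (ℕ × List ℕ → ℕ) := {ω | BallIso (kesten ω) (0, []) r F u} with hS
    have hS' : S = ⋃ y : {y // y ∈ bd F u r}, ⋃ f : {f : Fin m → ℕ × List ℕ // (T y).Sp f}, evt (T y) f.1 := by
      ext ω
      simp only [Set.mem_iUnion]
      constructor
      · intro h
        have h' : BallIso (kesten ω) (0, []) r F u := h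
        rw [ballIso_iff] at h'
        obtain ⟨f, hf⟩ := h'
        obtain ⟨y, hy, hfy⟩ := hit hf
        obtain ⟨h1, h2⟩ := (evt_iff (T ⟨y, mem_bd.2 hy⟩) f ω).1 ⟨hf, hfy⟩
        exact ⟨⟨y, mem_bd.2 hy⟩, ⟨f, h1⟩, h2⟩
      · rintro ⟨y, f, h⟩
        have := ((evt_iff (T y) f.1 ω).2 ⟨f.2, h⟩).1
        exact (ballIso_iff _ _ _ _ _).2 ⟨f.1, this⟩
    have hmS : MeasurableSet S := by
      rw [hS']
      exact MeasurableSet.iUnion (fun y => MeasurableSet.iUnion (fun f => (evt_meas (T y) f.2).1))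
    -- the number of embeddings
    have hN : ∀ ω, (aut F u : ℝ) * S.indicator (fun _ => (1 : ℝ)) ω =
        ∑ y : {y // y ∈ bd F u r}, ∑ f : {f : Fin m → ℕ × List ℕ // (T y).Sp f},
          (evt (T y) f.1).indicator (fun _ => (1 : ℝ)) ω := by
      intro ω
      let Ψ : (Σ y : {y // y ∈ bd F u r}, {f : {f : Fin m → ℕ × List ℕ // (T y).Sp f} // ω ∈ evt (T y) f.1}) →
          {f : Fin m → ℕ × List ℕ // Emb (kesten ω) (0, []) r F u f} := fun p =>
        ⟨p.2.1.1, ((evt_iff (T p.1) p.2.1.1 ω).2 ⟨p.2.1.2, p.2.2⟩).1⟩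
      have hΨ : Function.Bijective Ψ := by
        constructor
        · rintro ⟨y, ⟨f, hf⟩, hω⟩ ⟨y', ⟨f', hf'⟩, hω'⟩ h
          have hff : f = f' := congrArg Subtype.val h
          subst hff
          have h1 := ((evt_iff (T y) f ω).2 ⟨hf, hω⟩)
          have h2 := ((evt_iff (T y') f ω).2 ⟨hf', hω'⟩)
          have hyy : y = y' := Subtype.ext (h1.1.1 (by rw [h1.2, h2.2]))
          subst hyy
          rfl
        · rintro ⟨f, hf⟩
          obtain ⟨y, hy, hfy⟩ := hit hf
          obtain ⟨h1, h2⟩ := (evt_iff (T ⟨y, mem_bd.2 hy⟩) f ω).1 ⟨hf, hfy⟩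
          exact ⟨⟨⟨y, mem_bd.2 hy⟩, ⟨⟨f, h1⟩, h2⟩⟩, rfl⟩
      have hcard := Nat.card_eq_of_bijective Ψ hΨ
      have hleft : (Nat.card (Σ y : {y // y ∈ bd F u r},
          {f : {f : Fin m → ℕ × List ℕ // (T y).Sp f} // ω ∈ evt (T y) f.1}) : ℝ) =
          ∑ y : {y // y ∈ bd F u r}, ∑ f : {f : Fin m → ℕ × List ℕ // (T y).Sp f},
          (evt (T y) f.1).indicator (fun _ => (1 : ℝ)) ω := by
        rw [Nat.card_sigma]
        push_cast
        refine Finset.sum_congr rfl (fun y _ => ?_)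
        rw [Nat.card_eq_fintype_card, Fintype.card_subtype, Finset.card_filter]
        push_cast
        refine Finset.sum_congr rfl (fun f _ => ?_)
        by_cases h : ω ∈ evt (T y) f.1
        · rw [if_pos h, Set.indicator_of_mem h]
        · rw [if_neg h, Set.indicator_of_notMem h]
      rw [← hleft, hcard]
      obtain ⟨t1, _, t3⟩ := t_TOR (ℕ × List ℕ) (kesten ω) (0, []) r m F u
      by_cases h : BallIso (kesten ω) (0, []) r F u
      · rw [t3 h, Set.indicator_of_mem (show ω ∈ S from h), mul_one]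
      · rw [Set.indicator_of_notMem (show ω ∉ S from h), mul_zero]
        have : IsEmpty {f : Fin m → ℕ × List ℕ // Emb (kesten ω) (0, []) r F u f} :=
          ⟨fun f => h (t1.2 ⟨f.1, f.2⟩)⟩
        rw [Nat.card_of_isEmpty, Nat.cast_zero]
    have hint : ∀ (A : Set (ℕ × List ℕ → ℕ)), MeasurableSet A → Integrable (A.indicator (fun _ => (1 : ℝ))) poi :=
      fun A hA => (integrable_const (1 : ℝ)).indicator hA
    have hval : ∀ (A : Set (ℕ × List ℕ → ℕ)), MeasurableSet A →
        ∫ ω, A.indicator (fun _ => (1 : ℝ)) ω ∂poi = poi.real A := by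
      intro A hA
      rw [integral_indicator hA]
      simp
    have hmain : (aut F u : ℝ) * poi.real S = ((bd F u r).card : ℝ) * Real.exp (-1) ^ (inn F u r).card := by
      rw [← hval S hmS, ← integral_const_mul, integral_congr_ae (Filter.Eventually.of_forall hN),
        integral_finsetSum _ (fun y _ => integrable_finsetSum _ (fun f _ => hint _ (evt_meas (T y) f.2).1))]
      rw [Finset.sum_congr rfl (fun y _ => integral_finsetSum _ (fun f _ => hint _ (evt_meas (T y) f.2).1))]
      rw [Finset.sum_congr rfl (fun y _ => (Finset.sum_congr rfl (fun f _ => hval _ (evt_meas (T y) f.2).1)).trans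
        (sum_evt (T y)))]
      rw [Finset.sum_const, Finset.card_univ, Fintype.card_coe, nsmul_eq_mul]
    unfold alpha
    rw [if_pos ⟨hT, hc⟩]
    have ha : (0 : ℝ) < aut F u := by exact_mod_cast (t_TOR (Fin m) F u r m F u).2.1
    rw [eq_div_iff ha.ne', mul_comm, hmain, card_inn hc, ← Real.exp_nat_mul]
    have hle : (bd F u r).card ≤ m := by
      have := Finset.card_le_univ (bd F u r)
      simpa using this
    rw [Nat.cast_sub hle, mul_neg_one]
  · have hempty : {ω | BallIso (kesten ω) (0, []) r F u} = ∅ := by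
      rw [Set.eq_empty_iff_forall_notMem]
      intro ω h
      exact hF (t_K2.2 ω r m F u h)
    rw [hempty, measureReal_empty]
    unfold alpha
    rw [if_neg hF]

end Pool.Agent.H249.ER
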