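import Pool.Agent.H249.ER.Flu

/-! # The limit of the probability of a given ball -/

set_option autoImplicit false

open Finset BigOperators Filter
open scoped Topology

namespace Pool.Agent.H249.ER

lemma tendsto_desc (j : ℕ) : Tendsto (fun n : ℕ => ((n - 1).descFactorial j : ℝ) / (n : ℝ) ^ j) atTop (𝓝 1) := by
  induction j with
  | zero => simp
  | succ j ih =>
    have h1 : Tendsto (fun n : ℕ => ((n - 1 - j : ℕ) : ℝ) / n) atTop (𝓝 1) := by
      have h2 : Tendsto (fun n : ℕ => 1 - ((j : ℝ) + 1) * ((n : ℝ))⁻¹) atTop (𝓝 (1 - ((j : ℝ) + 1) * 0)) :=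
        ((tendsto_inv_atTop_zero.comp (tendsto_natCast_atTop_atTop (R := ℝ))).const_mul ((j : ℝ) + 1)).const_sub 1
      rw [mul_zero, sub_zero] at h2
      refine h2.congr' ?_
      filter_upwards [eventually_gt_atTop (j + 1)] with n hn
      have hn' : (n : ℝ) ≠ 0 := by
        have : 0 < n := by omega
        exact_mod_cast this.ne'
      rw [Nat.cast_sub (by omega), Nat.cast_sub (by omega)]
      field_simp
      push_cast
      ring
    have h3 := h1.mul ih
    rw [mul_one] at h3
    refine h3.congr (fun n => ?_)
    rw [Nat.descFactorial_succ, pow_succ]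
    push_cast
    rw [div_mul_div_comm]
    ring

lemma tendsto_exp (lam : ℝ) (a : ℕ) : Tendsto (fun n : ℕ => (1 - pc lam n) ^ (n - a)) atTop (𝓝 (Real.exp (-1))) := by
  have h1 : Tendsto (fun n : ℕ => (1 + (-pc lam n)) ^ n) atTop (𝓝 (Real.exp (-1))) := by
    apply Real.tendsto_one_add_pow_exp_of_tendsto
    have := (tendsto_np lam).neg
    refine this.congr (fun n => ?_)
    ring
  have h2 : Tendsto (fun n : ℕ => ((1 - pc lam n) ^ a)⁻¹) atTop (𝓝 (((1 - 0 : ℝ) ^ a)⁻¹)) :=
    (((tendsto_p lam).const_sub 1).pow a).inv₀ (by norm_num)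
  have h3 := h1.mul h2
  rw [sub_zero, one_pow, inv_one, mul_one] at h3
  refine h3.congr' ?_
  have hp := (tendsto_p lam).eventually (gt_mem_nhds (show (0 : ℝ) < 1 by norm_num))
  filter_upwards [eventually_ge_atTop a, hp] with n hn hp1
  have hq : (1 - pc lam n) ≠ 0 := by linarith
  rw [← sub_eq_add_neg, ← div_eq_mul_inv, pow_sub₀ _ hq hn, div_eq_mul_inv]

theorem t_LIM (hcnt : S_CNT) (hba3 : S_BA3) (htor : S_TOR) : S_LIM := by
  intro lam r m F u
  have hm : 0 < m := u.pos
  by_cases hc : Cov F u r
  · have ha : 0 < aut F u := (htor (Fin m) F u r m F u).2.1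
    have ha' : (0 : ℝ) < aut F u := by exact_mod_cast ha
    have hle : (bd F u r).card ≤ m := by
      have := Finset.card_le_univ (bd F u r)
      simpa using this
    set b := (bd F u r).card with hb
    set e := Nat.card F.edgeSet with he
    have hconn : F.Connected := by
      have : Nonempty (Fin m) := ⟨u⟩
      refine SimpleGraph.Connected.mk (fun x y => ?_)
      have h1 : ∀ z, F.Reachable u z := fun z =>
        SimpleGraph.reachable_of_edist_ne_top (ne_top_of_le_ne_top (ENat.natCast_ne_top r) (hc z))
      exact (h1 x).symm.trans (h1 y)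
    have hem : m - 1 ≤ e := by
      have := hconn.card_vert_le_card_edgeSet_add_one
      rw [Nat.card_eq_fintype_card, Fintype.card_fin] at this
      omega
    -- the formula
    have hform : ∀ n : ℕ, 0 < n → avg n (pc lam n) r F u = (((n - 1).descFactorial (m - 1) : ℝ) * pc lam n ^ e *
        (1 - pc lam n) ^ (m.choose 2 - e + (m - b) * (n - m))) / aut F u := by
      intro n hn
      have hn' : (n : ℝ) ≠ 0 := by exact_mod_cast hn.ne'
      unfold avg
      have h1 : ∀ v : Fin n, Pr n (pc lam n) (fun G => BallIso G v r F u) =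
          (((n - 1).descFactorial (m - 1) : ℝ) * pc lam n ^ e *
            (1 - pc lam n) ^ (m.choose 2 - e + (m - b) * (n - m))) / aut F u := by
        intro v
        rw [eq_div_iff ha'.ne']
        exact hcnt n (pc lam n) v r m F u hc
      rw [Finset.sum_congr rfl (fun v _ => h1 v), Finset.sum_const, Finset.card_univ, Fintype.card_fin, nsmul_eq_mul]
      field_simp
    -- the limit of the factors
    have hpow : Tendsto (fun n : ℕ => (1 - pc lam n) ^ (m.choose 2 - e + (m - b) * (n - m))) atTop
        (𝓝 (Real.exp (-1) ^ (m - b))) := by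
      have h1 : Tendsto (fun n : ℕ => (1 - pc lam n) ^ (m.choose 2 - e)) atTop (𝓝 ((1 - 0 : ℝ) ^ (m.choose 2 - e))) :=
        ((tendsto_p lam).const_sub 1).pow _
      have h2 := h1.mul ((tendsto_exp lam m).pow (m - b))
      rw [sub_zero, one_pow, one_mul] at h2
      refine h2.congr (fun n => ?_)
      rw [pow_add, ← pow_mul, mul_comm (n - m)]
    have hrest : Tendsto (fun n : ℕ => ((n - 1).descFactorial (m - 1) : ℝ) * pc lam n ^ (m - 1)) atTop (𝓝 1) := by
      have h1 := (tendsto_desc (m - 1)).mul ((tendsto_np lam).pow (m - 1))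
      rw [one_pow, mul_one] at h1
      refine h1.congr' ?_
      filter_upwards [eventually_gt_atTop 0] with n hn
      have hn' : (n : ℝ) ≠ 0 := by exact_mod_cast hn.ne'
      rw [mul_pow]
      field_simp
    have hexp : Tendsto (fun n : ℕ => pc lam n ^ (e - (m - 1))) atTop (𝓝 (if e = m - 1 then 1 else 0)) := by
      by_cases h : e = m - 1
      · rw [if_pos h, h, Nat.sub_self]
        simp
      · rw [if_neg h]
        have := (tendsto_p lam).pow (e - (m - 1))
        rw [zero_pow (by omega)] at this
        exact this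
    have hall : Tendsto (fun n : ℕ => (b : ℝ) * avg n (pc lam n) r F u) atTop
        (𝓝 ((b : ℝ) * ((1 * (if e = m - 1 then 1 else 0) * Real.exp (-1) ^ (m - b)) / aut F u))) := by
      have h1 := (((hrest.mul hexp).mul hpow).div_const (aut F u : ℝ)).const_mul (b : ℝ)
      refine h1.congr' ?_
      filter_upwards [eventually_gt_atTop 0] with n hn
      rw [hform n hn]
      have : pc lam n ^ e = pc lam n ^ (m - 1) * pc lam n ^ (e - (m - 1)) := by
        rw [← pow_add]
        congr 1
        omega
      rw [this]
      ring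
    have hval : (b : ℝ) * ((1 * (if e = m - 1 then 1 else 0) * Real.exp (-1) ^ (m - b)) / aut F u) = alpha F u r := by
      unfold alpha
      by_cases ht : F.IsTree
      · rw [if_pos (c := F.IsTree ∧ Cov F u r) ⟨ht, hc⟩]
        have h1 := (SimpleGraph.isTree_iff_connected_and_card.1 ht).2
        rw [Nat.card_eq_fintype_card (α := Fin m), Fintype.card_fin] at h1
        have h2 : e = m - 1 := by omega
        rw [if_pos h2, ← Real.exp_nat_mul, ← hb]
        rw [Nat.cast_sub hle]
        rw [one_mul, one_mul, mul_neg_one]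
        ring
      · rw [if_neg (c := F.IsTree ∧ Cov F u r) (fun h => ht h.1)]
        have h2 : e ≠ m - 1 := by
          intro h2
          apply ht
          refine SimpleGraph.isTree_iff_connected_and_card.2 ⟨hconn, ?_⟩
          rw [Nat.card_eq_fintype_card (α := Fin m), Fintype.card_fin, ← he]
          omega
        rw [if_neg h2]
        simp
    rw [← hval]
    exact hall
  · have h1 : alpha F u r = 0 := by
      unfold alpha
      rw [if_neg (fun h => hc h.2)]
    rw [h1]
    have h2 : ∀ n : ℕ, avg n (pc lam n) r F u = 0 := by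
      intro n
      unfold avg
      rw [Finset.sum_eq_zero, zero_div]
      intro v _
      classical
      rw [Pr_eq, show (fun G : SimpleGraph (Fin n) => if BallIso G v r F u then (1 : ℝ) else 0) = fun _ => 0 from ?_,
        Pool.Agent.Q287.SR.Ex_const]
      funext G
      rw [if_neg]
      intro h
      exact hc (hba3 n G v r m F u h).2.2
    refine tendsto_const_nhds.congr (fun n => ?_)
    rw [h2 n, mul_zero]

end Pool.Agent.H249.ER
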