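import Pool.Agent.H249.ER.Ide

/-! # Two components, and the largest component -/

set_option autoImplicit false

open Finset BigOperators
open scoped Classical

namespace Pool.Agent.H249.ER

open Pool.Agent.Q287.SR (pairs erWeight Ex Ex_const Ex_add Ex_mul Ex_sum Ex_mono Ex_nonneg absent Ex_absent)

lemma Dep.mono {n : ℕ} {D D' : Finset (Sym2 (Fin n))} {f : SimpleGraph (Fin n) → ℝ} (h : Dep D f) (hD : D ⊆ D') :
    Dep D' f := fun G G' hG => h G G' (fun e he => hG e (hD he))

lemma Dep.mul {n : ℕ} {D : Finset (Sym2 (Fin n))} {f g : SimpleGraph (Fin n) → ℝ} (h : Dep D f) (h' : Dep D g) :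
    Dep D (fun G => f G * g G) := fun G G' hG => by
  show f G * g G = f G' * g G'
  rw [h G G' hG, h' G G' hG]

/-- the indicator of `comp G v = S` as a product -/
lemma ind_comp {n : ℕ} (v : Fin n) {S : Finset (Fin n)} (hvS : v ∈ S) (G : SimpleGraph (Fin n)) :
    (if comp G v = S then (1 : ℝ) else 0) = (if comp (res S G) v = S then 1 else 0) * absent (between S Sᶜ) G := by
  have h1 := comp_eq_iff G v hvS (disjoint_compl_right : Disjoint S Sᶜ)
  rw [compl_compl] at h1
  have h2 : (∀ e ∈ between S Sᶜ, e ∉ G.edgeSet) ↔ (∀ x ∈ S, ∀ y ∈ Sᶜ, ¬ G.Adj x y) := by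
    constructor
    · intro h x hx y hy
      exact h s(x, y) (Finset.mem_image.2 ⟨(x, y), Finset.mem_product.2 ⟨hx, hy⟩, rfl⟩)
    · intro h e he
      obtain ⟨⟨a, b⟩, hab, rfl⟩ := Finset.mem_image.1 he
      rw [Finset.mem_product] at hab
      exact h a hab.1 b hab.2
  unfold absent
  by_cases h3 : comp (res S G) v = S
  · by_cases h4 : ∀ x ∈ S, ∀ y ∈ Sᶜ, ¬ G.Adj x y
    · rw [if_pos (h1.2 ⟨h3, h4⟩), if_pos h3, if_pos (h2.2 h4), one_mul]
    · rw [if_neg (fun h5 => h4 (h1.1 h5).2), if_neg (fun h5 => h4 (h2.1 h5)), mul_zero]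
  · rw [if_neg (fun h5 => h3 (h1.1 h5).1), if_neg h3, zero_mul]

lemma dep_comp {n : ℕ} (v : Fin n) {S : Finset (Fin n)} (hvS : v ∈ S) :
    Dep (inside S ∪ between S Sᶜ) (fun G => if comp G v = S then (1 : ℝ) else 0) := by
  have h1 : Dep (inside S ∪ between S Sᶜ) (fun G => if comp (res S G) v = S then (1 : ℝ) else 0) :=
    (dep_res S (fun H => if comp H v = S then (1 : ℝ) else 0)).mono Finset.subset_union_left
  have h2 : Dep (inside S ∪ between S Sᶜ) (absent (between S Sᶜ)) := (dep_absent _).mono Finset.subset_union_right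
  have h3 := h1.mul h2
  intro G G' hG
  have := h3 G G' hG
  show (if comp G v = S then (1 : ℝ) else 0) = (if comp G' v = S then (1 : ℝ) else 0)
  rw [ind_comp v hvS G, ind_comp v hvS G']
  exact this

lemma disj_inside {n : ℕ} (S : Finset (Fin n)) : Disjoint (inside S ∪ between S Sᶜ) (inside Sᶜ) := by
  rw [Finset.disjoint_left]
  intro e he he2
  unfold inside at he2
  rw [Finset.mem_filter] at he2
  rw [Finset.mem_union] at he
  rcases he with he | he
  · unfold inside at he
    rw [Finset.mem_filter] at he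
    induction e with
    | _ a b =>
      have h1 := he.2 a (by simp)
      have h2 := he2.2 a (by simp)
      exact Finset.mem_compl.1 h2 h1
  · unfold between at he
    obtain ⟨⟨a, b⟩, hab, rfl⟩ := Finset.mem_image.1 he
    rw [Finset.mem_product] at hab
    have h2 := he2.2 a (by simp)
    exact Finset.mem_compl.1 h2 hab.1

/-- the component of a vertex outside `comp G v` -/
lemma comp_out {n : ℕ} (G : SimpleGraph (Fin n)) (v w : Fin n) (hw : w ∉ comp G v) :
    comp G w = comp (res (comp G v)ᶜ G) w := by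
  apply Finset.Subset.antisymm
  · apply comp_subset (self_mem_comp _ _)
    intro x hx y hxy
    have hx1 : x ∈ comp G w := comp_mono (res_le _ _) w hx
    have hout : ∀ z, z ∈ comp G w → z ∈ (comp G v)ᶜ := by
      intro z hz
      rw [Finset.mem_compl]
      intro hz2
      apply hw
      rw [mem_comp] at hz hz2 ⊢
      exact hz2.trans hz.symm
    exact comp_closed hx ⟨hxy, hout x hx1, hout y (comp_closed hx1 hxy)⟩
  · exact comp_mono (res_le _ _) w

theorem t_NEG (hind : S_IND) : S_NEG := by
  intro n p h0 h1 v w hvw k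
  let 𝒮 : Finset (Finset (Fin n)) := Finset.univ.filter (fun S => v ∈ S ∧ w ∉ S ∧ k < S.card)
  have e1 : ∀ G : SimpleGraph (Fin n),
      (if k < (comp G v).card ∧ k < (comp G w).card ∧ ¬ G.Reachable v w then (1 : ℝ) else 0) =
      ∑ S ∈ 𝒮, (if comp G v = S then (1 : ℝ) else 0) * (if k < (comp (res Sᶜ G) w).card then (1 : ℝ) else 0) := by
    intro G
    by_cases h : v ∈ comp G v ∧ w ∉ comp G v ∧ k < (comp G v).card
    · rw [Finset.sum_eq_single (comp G v)]
      · rw [if_pos rfl, one_mul, ← comp_out G v w h.2.1]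
        have h2 : ¬ G.Reachable v w := fun h3 => h.2.1 (mem_comp.2 h3)
        by_cases h3 : k < (comp G w).card
        · rw [if_pos ⟨h.2.2, h3, h2⟩, if_pos h3]
        · rw [if_neg (fun h4 => h3 h4.2.1), if_neg h3]
      · intro S _ hS
        rw [if_neg (Ne.symm hS), zero_mul]
      · intro h2
        exfalso
        apply h2
        simp only [𝒮, Finset.mem_filter, Finset.mem_univ, true_and]
        exact h
    · have h2 : ¬ (k < (comp G v).card ∧ k < (comp G w).card ∧ ¬ G.Reachable v w) := by
        rintro ⟨h3, _, h5⟩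
        exact h ⟨self_mem_comp G v, fun h6 => h5 (mem_comp.1 h6), h3⟩
      rw [if_neg h2]
      symm
      apply Finset.sum_eq_zero
      intro S hS
      rw [if_neg, zero_mul]
      rintro rfl
      simp only [𝒮, Finset.mem_filter, Finset.mem_univ, true_and] at hS
      exact h hS
  rw [Pr_eq, show (fun G : SimpleGraph (Fin n) =>
      (if k < (comp G v).card ∧ k < (comp G w).card ∧ ¬ G.Reachable v w then (1 : ℝ) else 0)) = _ from funext e1, Ex_sum]
  have e2 : ∀ S ∈ 𝒮, Ex n p (fun G => (if comp G v = S then (1 : ℝ) else 0) *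
      (if k < (comp (res Sᶜ G) w).card then (1 : ℝ) else 0)) ≤
      Pr n p (fun G => comp G v = S) * Pr n p (fun G => k < (comp G w).card) := by
    intro S hS
    simp only [𝒮, Finset.mem_filter, Finset.mem_univ, true_and] at hS
    rw [hind n p _ _ _ _ (disj_inside S) (dep_comp v hS.1)
      (dep_res Sᶜ (fun H => if k < (comp H w).card then (1 : ℝ) else 0)), ← Pr_eq, ← Pr_eq]
    refine mul_le_mul_of_nonneg_left ?_ (Pr_nonneg h0 h1 _)
    exact Pr_mono h0 h1 (fun G hG => lt_of_lt_of_le hG (Finset.card_le_card (comp_mono (res_le _ _) w)))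
  refine le_trans (Finset.sum_le_sum e2) ?_
  rw [← Finset.sum_mul]
  refine mul_le_mul_of_nonneg_right ?_ (Pr_nonneg h0 h1 _)
  rw [Finset.sum_congr rfl (fun S _ => Pr_eq p (fun G => comp G v = S)), ← Ex_sum, Pr_eq]
  refine Ex_mono h0 h1 (fun G => ?_)
  by_cases h : k < (comp G v).card
  · rw [if_pos h]
    refine le_trans (Finset.sum_le_sum_of_subset_of_nonneg (Finset.subset_univ 𝒮)
      (fun S _ _ => by split_ifs <;> norm_num)) ?_
    rw [Finset.sum_ite_eq]
    simp
  · rw [if_neg h]
    apply le_of_eq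
    apply Finset.sum_eq_zero
    intro S hS
    simp only [𝒮, Finset.mem_filter, Finset.mem_univ, true_and] at hS
    rw [if_neg]
    rintro rfl
    exact h hS.2.2

theorem t_BIG (hsy1 : S_SY1) (hneg : S_NEG) : S_BIG := by
  intro n p h0 h1 v₀ k
  have hn : (0 : ℝ) < n := by exact_mod_cast v₀.pos
  set P := Pr n p (fun G => k < (comp G v₀).card) with hP
  set q := Pr n p (fun G => ∀ w, (comp G w).card ≤ k) with hq
  set M := Ex n p (fun G => ((comp G v₀).card : ℝ)) with hM
  let I : SimpleGraph (Fin n) → Fin n → ℝ := fun G v => if k < (comp G v).card then 1 else 0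
  have hPv : ∀ v, Ex n p (fun G => I G v) = P := by
    intro v
    rw [hP, Pr_eq]
    exact hsy1 n p v v₀ (fun j => if k < j then 1 else 0)
  have hMv : ∀ v, Ex n p (fun G => ((comp G v).card : ℝ)) = M := fun v => hsy1 n p v v₀ (fun j => (j : ℝ))
  -- second moment
  have hpair : ∀ v w, Ex n p (fun G => I G v * I G w) ≤ Pr n p (fun G => G.Reachable v w) + P ^ 2 := by
    intro v w
    by_cases hvw : v = w
    · subst hvw
      have h2 : Ex n p (fun G => I G v * I G v) ≤ Pr n p (fun G => G.Reachable v v) := by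
        rw [Pr_eq]
        refine Ex_mono h0 h1 (fun G => ?_)
        rw [if_pos (SimpleGraph.Reachable.refl v)]
        simp only [I]
        split_ifs <;> norm_num
      have : 0 ≤ P ^ 2 := sq_nonneg _
      linarith
    · have h2 := hneg n p h0 h1 v w hvw k
      have h3 : Pr n p (fun G => k < (comp G v).card) = P := by rw [Pr_eq]; exact hPv v
      have h4 : Pr n p (fun G => k < (comp G w).card) = P := by rw [Pr_eq]; exact hPv w
      rw [h3, h4, ← sq] at h2
      refine le_trans ?_ (add_le_add le_rfl h2)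
      rw [Pr_eq, Pr_eq, ← Ex_add]
      refine Ex_mono h0 h1 (fun G => ?_)
      simp only [I]
      by_cases a1 : k < (comp G v).card <;> by_cases a2 : k < (comp G w).card <;> by_cases a3 : G.Reachable v w <;>
        simp [a1, a2, a3]
  have hN2 : Ex n p (fun G => (∑ v, I G v) ^ 2) ≤ n * M + (n * P) ^ 2 := by
    have e : (fun G : SimpleGraph (Fin n) => (∑ v, I G v) ^ 2) = fun G => ∑ v, ∑ w, I G v * I G w := by
      funext G
      rw [sq, Finset.sum_mul_sum]
    rw [e, Ex_sum]
    have e2 : ∀ v, Ex n p (fun G => ∑ w, I G v * I G w) ≤ M + n * P ^ 2 := by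
      intro v
      rw [Ex_sum]
      refine le_trans (Finset.sum_le_sum (fun w _ => hpair v w)) ?_
      rw [Finset.sum_add_distrib, ← Ex_card_comp, hMv v, Finset.sum_const, Finset.card_univ, Fintype.card_fin,
        nsmul_eq_mul]
    refine le_trans (Finset.sum_le_sum (fun v _ => e2 v)) ?_
    rw [Finset.sum_const, Finset.card_univ, Fintype.card_fin, nsmul_eq_mul]
    apply le_of_eq
    ring
  have hN1 : Ex n p (fun G => ∑ v, I G v) = n * P := by
    rw [Ex_sum, Finset.sum_congr rfl (fun v _ => hPv v), Finset.sum_const, Finset.card_univ, Fintype.card_fin,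
      nsmul_eq_mul]
  have hvar : Ex n p (fun G => (∑ v, I G v - n * P) ^ 2) ≤ n * M := by
    have e : (fun G : SimpleGraph (Fin n) => (∑ v, I G v - n * P) ^ 2) =
        fun G => ((∑ v, I G v) ^ 2 + (-2 * (n * P)) * ∑ v, I G v) + (n * P) ^ 2 := by
      funext G
      ring
    rw [e, Ex_add, Ex_add, Ex_mul, hN1, Ex_const]
    nlinarith
  have hlow : (n * P) ^ 2 * q ≤ Ex n p (fun G => (∑ v, I G v - n * P) ^ 2) := by
    rw [hq, Pr_eq, ← Ex_mul]
    refine Ex_mono h0 h1 (fun G => ?_)
    by_cases h : ∀ w, (comp G w).card ≤ k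
    · rw [if_pos h, mul_one]
      have : ∑ v, I G v = 0 := by
        apply Finset.sum_eq_zero
        intro v _
        simp only [I]
        rw [if_neg (not_lt.2 (h v))]
      rw [this, zero_sub, neg_sq]
    · rw [if_neg h, mul_zero]
      exact sq_nonneg _
  have hfin : (n * P) ^ 2 * q ≤ n * M := le_trans hlow hvar
  have : (n : ℝ) * ((n : ℝ) * P ^ 2 * q) ≤ n * M := by
    refine le_trans (le_of_eq ?_) hfin
    ring
  exact le_of_mul_le_mul_left this hn

end Pool.Agent.H249.ER
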