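import Pool.Agent.H249.ER.Ide

/-! # Paths between two sets -/

set_option autoImplicit false

open Finset BigOperators
open scoped Classical

namespace Pool.Agent.H249.ER

lemma res_mono {n : ℕ} {A B : Finset (Fin n)} (h : A ⊆ B) (G : SimpleGraph (Fin n)) : res A G ≤ res B G :=
  fun _ _ hab => ⟨hab.1, h hab.2.1, h hab.2.2⟩

theorem t_PTH : S_PTH := by
  intro n G A A' v w hv hw hdis hreach
  obtain ⟨q⟩ := hreach
  let Concl : Prop := ∃ x ∈ A, ∃ y ∈ A', (res ((A ∪ A')ᶜ ∪ {x, y}) G).Reachable x y ∧
    (∃ z, z ∉ A ∧ G.Adj x z) ∧ (∃ z, z ∉ A' ∧ G.Adj y z)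
  have key : ∀ (a b : Fin n) (q : G.Walk a b), b ∈ A' → (a ∈ A → Concl) ∧
      (a ∉ A ∪ A' → Concl ∨ ∃ y ∈ A', (res ((A ∪ A')ᶜ ∪ {y}) G).Reachable a y ∧ (∃ z, z ∉ A' ∧ G.Adj y z)) := by
    intro a b q
    induction q with
    | nil =>
      intro hb
      refine ⟨fun h => absurd hb (Finset.disjoint_left.1 hdis h), fun h => ?_⟩
      exact absurd (Finset.mem_union_right _ hb) h
    | @cons a c b hac q ih =>
      intro hb
      obtain ⟨ih1, ih2⟩ := ih hb
      constructor
      · intro ha
        by_cases hcA : c ∈ A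
        · exact ih1 hcA
        · by_cases hcA' : c ∈ A'
          · refine ⟨a, ha, c, hcA', ?_, ⟨c, hcA, hac⟩, ⟨a, Finset.disjoint_left.1 hdis ha, hac.symm⟩⟩
            apply SimpleGraph.Adj.reachable
            exact ⟨hac, by simp, by simp⟩
          · have hc : c ∉ A ∪ A' := by simp [hcA, hcA']
            rcases ih2 hc with h | ⟨y, hy, h1, h2⟩
            · exact h
            · refine ⟨a, ha, y, hy, ?_, ⟨c, hcA, hac⟩, h2⟩
              have s1 : (res ((A ∪ A')ᶜ ∪ {a, y}) G).Reachable c y := h1.mono (res_mono (by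
                intro z hz
                rw [Finset.mem_union] at hz ⊢
                rcases hz with hz | hz
                · exact Or.inl hz
                · refine Or.inr ?_
                  rw [Finset.mem_singleton] at hz
                  rw [hz]
                  simp) G)
              have s2 : (res ((A ∪ A')ᶜ ∪ {a, y}) G).Adj a c :=
                ⟨hac, by simp, Finset.mem_union_left _ (Finset.mem_compl.2 hc)⟩
              exact s2.reachable.trans s1
      · intro ha
        by_cases hcA : c ∈ A
        · exact Or.inl (ih1 hcA)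
        · by_cases hcA' : c ∈ A'
          · refine Or.inr ⟨c, hcA', ?_, ⟨a, fun h => ha (Finset.mem_union_right _ h), hac.symm⟩⟩
            apply SimpleGraph.Adj.reachable
            exact ⟨hac, Finset.mem_union_left _ (Finset.mem_compl.2 ha), by simp⟩
          · have hc : c ∉ A ∪ A' := by simp [hcA, hcA']
            rcases ih2 hc with h | ⟨y, hy, h1, h2⟩
            · exact Or.inl h
            · refine Or.inr ⟨y, hy, ?_, h2⟩
              have s2 : (res ((A ∪ A')ᶜ ∪ {y}) G).Adj a c :=
                ⟨hac, Finset.mem_union_left _ (Finset.mem_compl.2 ha), Finset.mem_union_left _ (Finset.mem_compl.2 hc)⟩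
              exact s2.reachable.trans h1
  exact (key v w q hw).1 hv

end Pool.Agent.H249.ER
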