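import Pool.Agent.H249.ER.Flu

/-! # Symmetry -/

set_option autoImplicit false

open Finset BigOperators
open scoped Classical

namespace Pool.Agent.H249.ER

open Pool.Agent.Q287.SR (pairs erWeight Ex)

lemma weight_map {n : ℕ} (p : ℝ) (σ : Equiv.Perm (Fin n)) (G : SimpleGraph (Fin n)) :
    erWeight n p (G.map σ.toEmbedding) = erWeight n p G := by
  unfold erWeight
  symm
  refine Finset.prod_bij' (i := fun e _ => Sym2.map σ e) (j := fun e _ => Sym2.map σ.symm e) ?_ ?_ ?_ ?_ ?_
  · intro e he
    simp only [pairs, Finset.mem_filter, Finset.mem_univ, true_and] at he ⊢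
    induction e with
    | _ a b =>
      simp only [Sym2.map_mk, Sym2.mk_isDiag_iff] at he ⊢
      exact fun h => he (σ.injective h)
  · intro e he
    simp only [pairs, Finset.mem_filter, Finset.mem_univ, true_and] at he ⊢
    induction e with
    | _ a b =>
      simp only [Sym2.map_mk, Sym2.mk_isDiag_iff] at he ⊢
      exact fun h => he (σ.symm.injective h)
  · intro e _
    induction e with
    | _ a b => simp
  · intro e _
    induction e with
    | _ a b => simp
  · intro e _
    induction e with
    | _ a b =>
      have : (s(a, b) ∈ G.edgeSet) ↔ (Sym2.map σ s(a, b) ∈ (G.map σ.toEmbedding).edgeSet) := by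
        rw [Sym2.map_mk, SimpleGraph.mem_edgeSet, SimpleGraph.mem_edgeSet]
        exact (SimpleGraph.map_adj_apply (f := σ.toEmbedding) (G := G)).symm
      by_cases h : s(a, b) ∈ G.edgeSet
      · rw [if_pos h, if_pos (this.1 h)]
      · rw [if_neg h, if_neg (fun h2 => h (this.2 h2))]

theorem t_SYM : S_SYM := by
  intro n p σ f
  unfold Ex
  let e : SimpleGraph (Fin n) ≃ SimpleGraph (Fin n) := 
    { toFun := fun G => G.map σ.toEmbedding
      invFun := fun G => G.map σ.symm.toEmbedding
      left_inv := fun G => by
        beta_reduce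
        rw [SimpleGraph.map_map]
        have : (⇑(Equiv.symm σ).toEmbedding ∘ ⇑(Equiv.toEmbedding σ)) = id := by
          funext x
          simp
        rw [this]
        exact SimpleGraph.map_id G
      right_inv := fun G => by
        beta_reduce
        rw [SimpleGraph.map_map]
        have : (⇑(Equiv.toEmbedding σ) ∘ ⇑(Equiv.symm σ).toEmbedding) = id := by
          funext x
          simp
        rw [this]
        exact SimpleGraph.map_id G }
  rw [← Equiv.sum_comp e (fun G => erWeight n p G * f G)]
  refine Finset.sum_congr rfl (fun G _ => ?_)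
  show erWeight n p G * _ = erWeight n p (G.map σ.toEmbedding) * _
  rw [weight_map]
  rfl

/-- the isomorphism of a graph with its image -/
def isoMap {n : ℕ} (σ : Equiv.Perm (Fin n)) (G : SimpleGraph (Fin n)) : G ≃g G.map σ.toEmbedding :=
  SimpleGraph.Iso.map σ G

lemma isoMap_apply {n : ℕ} (σ : Equiv.Perm (Fin n)) (G : SimpleGraph (Fin n)) (x : Fin n) : isoMap σ G x = σ x := rfl

lemma reach_map {n : ℕ} (σ : Equiv.Perm (Fin n)) (G : SimpleGraph (Fin n)) (x y : Fin n) :
    (G.map σ.toEmbedding).Reachable (σ x) (σ y) ↔ G.Reachable x y := by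
  have := (isoMap σ G).reachable_iff (u := x) (v := y)
  exact this

theorem t_SY1 : S_SY1 := by
  intro n p v w g
  rw [← t_SYM n p (Equiv.swap v w) (fun G => g (comp G w).card)]
  congr 1
  funext G
  congr 1
  unfold comp
  refine Finset.card_bij (fun x _ => Equiv.swap v w x) ?_ ?_ ?_
  · intro x hx
    simp only [Finset.mem_filter, Finset.mem_univ, true_and] at hx ⊢
    have := (reach_map (Equiv.swap v w) G v x).2 hx
    rwa [Equiv.swap_apply_left] at this
  · intro x _ y _ h
    exact (Equiv.swap v w).injective h
  · intro y hy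
    simp only [Finset.mem_filter, Finset.mem_univ, true_and] at hy ⊢
    refine ⟨Equiv.swap v w y, ?_, by simp⟩
    rw [← reach_map (Equiv.swap v w) G, Equiv.swap_apply_left]
    simpa using hy

theorem t_SY2 : S_SY2 := by
  intro n p x y x' y' hxy hxy'
  -- a permutation with x ↦ x', y ↦ y'
  obtain ⟨σ, h1, h2⟩ : ∃ σ : Equiv.Perm (Fin n), σ x = x' ∧ σ y = y' := by
    refine ⟨(Equiv.swap x x').trans (Equiv.swap (Equiv.swap x x' y) y'), ?_, ?_⟩
    · simp only [Equiv.trans_apply, Equiv.swap_apply_left]
      apply Equiv.swap_apply_of_ne_of_ne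
      · intro h
        apply hxy
        have := congrArg (Equiv.swap x x') h
        rw [Equiv.swap_apply_right, Equiv.swap_apply_self] at this
        exact this
      · exact hxy'
    · simp
  rw [Pr_eq, Pr_eq]
  rw [← t_SYM n p σ (fun G => if G.Reachable x' y' then (1 : ℝ) else 0)]
  congr 1
  funext G
  have : G.Reachable x y ↔ (G.map σ.toEmbedding).Reachable x' y' := by
    rw [← h1, ← h2]
    exact (reach_map σ G x y).symm
  by_cases h : G.Reachable x y
  · rw [if_pos h, if_pos (this.1 h)]
  · rw [if_neg h, if_neg (fun h2 => h (this.2 h2))]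

lemma edist_iso {V W : Type} {G : SimpleGraph V} {H : SimpleGraph W} (e : G ≃g H) (x y : V) :
    H.edist (e x) (e y) = G.edist x y := by
  apply le_antisymm
  · by_cases h : G.edist x y = ⊤
    · rw [h]; exact le_top
    · obtain ⟨q, hq⟩ := SimpleGraph.exists_walk_of_edist_ne_top h
      rw [← hq]
      have := SimpleGraph.Walk.edist_le (q.map e.toHom)
      rw [SimpleGraph.Walk.length_map] at this
      exact this
  · by_cases h : H.edist (e x) (e y) = ⊤
    · rw [h]; exact le_top
    · obtain ⟨q, hq⟩ := SimpleGraph.exists_walk_of_edist_ne_top h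
      rw [← hq]
      have := SimpleGraph.Walk.edist_le (q.map e.symm.toHom)
      rw [SimpleGraph.Walk.length_map] at this
      have h2 : G.edist (e.symm.toHom (e x)) (e.symm.toHom (e y)) = G.edist x y := by
        congr 1
        · exact e.symm_apply_apply x
        · exact e.symm_apply_apply y
      rw [h2] at this
      exact this

/-- transport of `BallIso` -/
lemma ballIso_iso {V V' W : Type} {G : SimpleGraph V} {G' : SimpleGraph V'} (e : G ≃g G') (v : V) (r : ℕ)
    (F : SimpleGraph W) (u : W) (h : BallIso G v r F u) : BallIso G' (e v) r F u := by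
  obtain ⟨φ, hφ⟩ := h
  have hmem : ∀ x : V, G.edist v x ≤ (r : ℕ∞) ↔ G'.edist (e v) (e x) ≤ (r : ℕ∞) := by
    intro x
    rw [edist_iso e]
  let ψ : G.induce {x | G.edist v x ≤ (r : ℕ∞)} ≃g G'.induce {x | G'.edist (e v) x ≤ (r : ℕ∞)} :=
    { toEquiv := e.toEquiv.subtypeEquiv hmem
      map_rel_iff' := by
        intro a b
        exact e.map_rel_iff' }
  refine ⟨φ.trans ψ, ?_⟩
  show e (φ u : V) = e v
  rw [hφ]

theorem t_SY3 : S_SY3 := by
  intro n p v w r m F u
  rw [Pr_eq, Pr_eq]
  rw [← t_SYM n p (Equiv.swap v w) (fun G => if BallIso G w r F u then (1 : ℝ) else 0)]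
  congr 1
  funext G
  have : BallIso G v r F u ↔ BallIso (G.map (Equiv.swap v w).toEmbedding) w r F u := by
    constructor
    · intro h
      have := ballIso_iso (isoMap (Equiv.swap v w) G) v r F u h
      rwa [isoMap_apply, Equiv.swap_apply_left] at this
    · intro h
      have := ballIso_iso (isoMap (Equiv.swap v w) G).symm w r F u h
      have e : (isoMap (Equiv.swap v w) G).symm w = v := by
        have h3 := (isoMap (Equiv.swap v w) G).symm_apply_apply v
        rwa [isoMap_apply, Equiv.swap_apply_left] at h3
      rwa [e] at this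
  by_cases h : BallIso G v r F u
  · rw [if_pos h, if_pos (this.1 h)]
  · rw [if_neg h, if_neg (fun h2 => h (this.2 h2))]

end Pool.Agent.H249.ER
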