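import Pool.Agent.H249.ER.Ta

/-! # The mean size of a component -/

set_option autoImplicit false

open Finset BigOperators Filter
open scoped Topology

namespace Pool.Agent.H249.ER

lemma one_sub_mul_exp {y : ℝ} (h0 : 0 ≤ y) (h1 : y ≤ 1) : (1 - y) * Real.exp y ≤ 1 - y ^ 2 / 4 := by
  have h2 : (1 - y / 2) ^ 2 ≤ Real.exp (-y) := by
    have e : Real.exp (-y) = Real.exp (-(y / 2)) ^ 2 := by
      rw [← Real.exp_nat_mul]
      congr 1
      push_cast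
      ring
    rw [e]
    refine pow_le_pow_left₀ (by linarith) ?_ 2
    have := Real.add_one_le_exp (-(y / 2))
    linarith
  have h3 : 1 - y ≤ (1 - y ^ 2 / 4) * Real.exp (-y) := by
    have hy : 0 ≤ 1 - y ^ 2 / 4 := by nlinarith
    refine le_trans ?_ (mul_le_mul_of_nonneg_left h2 hy)
    nlinarith [mul_nonneg h0 h0, mul_nonneg (mul_nonneg h0 h0) h0, mul_nonneg (mul_nonneg (mul_nonneg h0 h0) h0) (sub_nonneg.2 h1)]
  calc (1 - y) * Real.exp y ≤ ((1 - y ^ 2 / 4) * Real.exp (-y)) * Real.exp y :=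
        mul_le_mul_of_nonneg_right h3 (Real.exp_pos _).le
    _ = 1 - y ^ 2 / 4 := by rw [mul_assoc, ← Real.exp_add, neg_add_cancel, Real.exp_zero, mul_one]

lemma exp_le_lin {t : ℝ} (h0 : 0 ≤ t) (h1 : t ≤ 1 / 2) : Real.exp t ≤ 1 + 2 * t := by
  have h2 : 1 - t ≤ Real.exp (-t) := by
    have := Real.add_one_le_exp (-t)
    linarith
  have h3 : Real.exp t * (1 - t) ≤ 1 := by
    calc Real.exp t * (1 - t) ≤ Real.exp t * Real.exp (-t) := mul_le_mul_of_nonneg_left h2 (Real.exp_pos _).le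
      _ = 1 := by rw [← Real.exp_add, add_neg_cancel, Real.exp_zero]
  have h4 : (1 : ℝ) ≤ (1 + 2 * t) * (1 - t) := by nlinarith
  have h5 : 0 < 1 - t := by linarith
  exact le_of_mul_le_mul_right (le_trans h3 h4) h5

/-- the bound for `m = 1` -/
lemma sk_one {lam : ℝ} {n k : ℕ} (hk : 1 ≤ k) (hkn : k ≤ n) (hn2 : 3 ≤ n) (h0 : 0 ≤ pc lam n)
    (h1 : pc lam n ≤ 1 / 2) (h2 : pc lam n ≤ 2 / n) (h8 : (8 : ℝ) ≤ (n : ℝ) ^ (2 / 3 : ℝ))
    (hL : 2 * (|lam| + 1) ≤ (n : ℝ) ^ (1 / 3 : ℝ)) :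
    ((k : ℝ) - 1) ^ 2 / (4 * n ^ 2) - 4 * (|lam| + 1) * ((k : ℝ) - 1) / (n * (n : ℝ) ^ (1 / 3 : ℝ)) ≤
      1 - sk n 1 (pc lam n) k := by
  have hn0 : 0 < n := by omega
  have hn : (0 : ℝ) < n := by exact_mod_cast hn0
  have hn3 : (3 : ℝ) ≤ n := by exact_mod_cast hn2
  set p := pc lam n with hp
  have hq : (0 : ℝ) < 1 - p := by linarith
  have hk1 : (1 : ℝ) ≤ k := by exact_mod_cast hk
  have hkn' : (k : ℝ) ≤ n := by exact_mod_cast hkn
  have hn13 : (0 : ℝ) < (n : ℝ) ^ (1 / 3 : ℝ) := Real.rpow_pos_of_pos hn _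
  have e23 : (n : ℝ) ^ (2 / 3 : ℝ) * (n : ℝ) ^ (1 / 3 : ℝ) = n := by
    rw [← Real.rpow_add hn]; norm_num
  set x := (k : ℝ) - 1 with hx
  have hx0 : 0 ≤ x := by linarith
  set M := (n : ℝ) - 1 with hM
  have hM0 : 0 < M := by linarith
  set y := x / M with hy
  have hy0 : 0 ≤ y := by positivity
  have hy1 : y ≤ 1 := by
    rw [hy, div_le_one hM0]
    linarith
  set ε := (|lam| + 1) / (n : ℝ) ^ (1 / 3 : ℝ) with hε
  have hε0 : 0 ≤ ε := by positivity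
  have hε1 : ε ≤ 1 / 2 := by
    rw [hε, div_le_div_iff₀ hn13 (by norm_num)]
    linarith
  -- `sk = (1 - y) / (1 - p)^(k-1)`
  have e1 : sk n 1 p k = (1 - y) * ((1 - p) ^ (k - 1))⁻¹ := by
    unfold sk
    rw [Nat.choose_one_right, Nat.choose_one_right, one_mul, Nat.cast_sub hkn, Nat.cast_sub (by omega), Nat.cast_one]
    have e2 : 1 - y = ((n : ℝ) - k) / ((n : ℝ) - 1) := by
      rw [hy, ← hM, eq_div_iff hM0.ne', sub_mul, one_mul, div_mul_cancel₀ _ hM0.ne']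
      rw [hx, hM]
      ring
    rw [e2, ← hM]
    have : (1 - p) ^ (k - 1) ≠ 0 := (pow_pos hq _).ne'
    field_simp
  have e3 : ((k - 1 : ℕ) : ℝ) = x := by
    rw [Nat.cast_sub hk, Nat.cast_one]
  have s1 := inv_pow_le h0 h1 (k - 1)
  rw [e3] at s1
  have s2 : x * (p + 2 * p ^ 2) ≤ y * (1 + ε) := by
    have : x = y * M := by rw [hy, div_mul_cancel₀ _ hM0.ne']
    rw [this, mul_assoc]
    refine mul_le_mul_of_nonneg_left ?_ hy0
    have a1 : M * (p + 2 * p ^ 2) ≤ n * (p + 2 * p ^ 2) := mul_le_mul_of_nonneg_right (by linarith) (by positivity)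
    refine le_trans a1 ?_
    have a2 : (n : ℝ) * p = 1 + lam * ((n : ℝ) ^ (1 / 3 : ℝ))⁻¹ := np_eq lam hn0
    have a3 : lam * ((n : ℝ) ^ (1 / 3 : ℝ))⁻¹ ≤ |lam| * ((n : ℝ) ^ (1 / 3 : ℝ))⁻¹ :=
      mul_le_mul_of_nonneg_right (le_abs_self _) (by positivity)
    have a4 : (n : ℝ) * p ≤ 2 := by
      rw [le_div_iff₀ hn] at h2
      linarith
    have a5 : (n : ℝ) * (2 * p ^ 2) ≤ ((n : ℝ) ^ (1 / 3 : ℝ))⁻¹ := by
      have b1 : (n : ℝ) * (2 * p ^ 2) ≤ 8 / n := by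
        calc (n : ℝ) * (2 * p ^ 2) = 2 * (n * p) * p := by ring
          _ ≤ 2 * 2 * (2 / n) := mul_le_mul (by linarith) h2 h0 (by norm_num)
          _ = 8 / n := by ring
      refine le_trans b1 ?_
      rw [← one_div, div_le_div_iff₀ hn hn13, one_mul]
      calc 8 * (n : ℝ) ^ (1 / 3 : ℝ) ≤ (n : ℝ) ^ (2 / 3 : ℝ) * (n : ℝ) ^ (1 / 3 : ℝ) :=
            mul_le_mul_of_nonneg_right h8 hn13.le
        _ = n := e23
    have a6 : ε = |lam| * ((n : ℝ) ^ (1 / 3 : ℝ))⁻¹ + ((n : ℝ) ^ (1 / 3 : ℝ))⁻¹ := by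
      rw [hε]
      field_simp
    rw [mul_add, a2, a6]
    linarith
  have s3 : sk n 1 p k ≤ 1 - y ^ 2 / 4 + 2 * ε * y := by
    rw [e1]
    have h1y : 0 ≤ 1 - y := by linarith
    calc (1 - y) * ((1 - p) ^ (k - 1))⁻¹ ≤ (1 - y) * Real.exp (y * (1 + ε)) :=
          mul_le_mul_of_nonneg_left (le_trans s1 (Real.exp_le_exp.2 s2)) h1y
      _ = ((1 - y) * Real.exp y) * Real.exp (ε * y) := by
          rw [mul_assoc, ← Real.exp_add]
          congr 2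
          ring
      _ ≤ (1 - y ^ 2 / 4) * (1 + 2 * (ε * y)) := by
          refine mul_le_mul (one_sub_mul_exp hy0 hy1) (exp_le_lin (by positivity) ?_) (Real.exp_pos _).le (by nlinarith)
          nlinarith
      _ ≤ 1 - y ^ 2 / 4 + 2 * ε * y := by
          have : 0 ≤ y ^ 2 / 4 * (2 * (ε * y)) := by positivity
          nlinarith
  have s4 : x ^ 2 / (4 * n ^ 2) ≤ y ^ 2 / 4 := by
    rw [hy, div_pow, div_div, mul_comm (M ^ 2) 4]
    refine div_le_div_of_nonneg_left (sq_nonneg _) (by positivity) ?_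
    have := pow_le_pow_left₀ hM0.le (show M ≤ n by linarith) 2
    linarith
  have s5 : 2 * ε * y ≤ 4 * (|lam| + 1) * x / (n * (n : ℝ) ^ (1 / 3 : ℝ)) := by
    rw [hy, hε]
    have : 2 * ((|lam| + 1) / (n : ℝ) ^ (1 / 3 : ℝ)) * (x / M) = (2 * (|lam| + 1) * x / (n : ℝ) ^ (1 / 3 : ℝ)) * (1 / M) := by
      field_simp
    rw [this]
    have h2M : 1 / M ≤ 2 / n := by
      rw [div_le_div_iff₀ hM0 hn]
      linarith
    calc (2 * (|lam| + 1) * x / (n : ℝ) ^ (1 / 3 : ℝ)) * (1 / M)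
        ≤ (2 * (|lam| + 1) * x / (n : ℝ) ^ (1 / 3 : ℝ)) * (2 / n) := mul_le_mul_of_nonneg_left h2M (by positivity)
      _ = 4 * (|lam| + 1) * x / (n * (n : ℝ) ^ (1 / 3 : ℝ)) := by
          field_simp
          ring
  linarith

theorem t_TB (hTA : S_TA) : S_TB := by
  intro lam
  obtain ⟨C, c, hC, hc, N₁, hN₁⟩ := hTA lam
  obtain ⟨N₂, hN₂⟩ := p_facts lam
  set L := |lam| + 1 with hL
  have hL0 : 0 < L := by positivity
  set c' := min c 1 with hc'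
  have hc0 : 0 < c' := lt_min hc (by norm_num)
  have ev1 := (tendsto_rpow_nat (by norm_num : (0 : ℝ) < 1 / 3)).eventually_ge_atTop (2 * L)
  have ev2 := (tendsto_rpow_nat (by norm_num : (0 : ℝ) < 2 / 3)).eventually_ge_atTop (1 / c')
  have ev3 := (tendsto_rpow_nat (by norm_num : (0 : ℝ) < 1 / 3)).eventually_ge_atTop 1
  obtain ⟨N₃, hN₃⟩ := Filter.eventually_atTop.1 (ev1.and (ev2.and ev3))
  refine ⟨2 * (32 * L / c' * (C * Real.sqrt c') + 1 / (2 * L)) + 1, by positivity, max N₁ (max N₂ N₃), ?_⟩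
  intro n hn P hP
  obtain ⟨hn0, h0, h1, h2, -, h3, h8⟩ := hN₂ n (le_trans (le_max_left _ _) (le_trans (le_max_right _ _) hn))
  obtain ⟨g1, g2, g3⟩ := hN₃ n (le_trans (le_max_right _ _) (le_trans (le_max_right _ _) hn))
  have hn' : (0 : ℝ) < n := by exact_mod_cast hn0
  have hn13 : (0 : ℝ) < (n : ℝ) ^ (1 / 3 : ℝ) := Real.rpow_pos_of_pos hn' _
  have hn23 : (0 : ℝ) < (n : ℝ) ^ (2 / 3 : ℝ) := Real.rpow_pos_of_pos hn' _
  have e23 : (n : ℝ) ^ (2 / 3 : ℝ) = (n : ℝ) ^ (1 / 3 : ℝ) * (n : ℝ) ^ (1 / 3 : ℝ) := by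
    rw [← Real.rpow_add hn']; norm_num
  have en : (n : ℝ) = (n : ℝ) ^ (2 / 3 : ℝ) * (n : ℝ) ^ (1 / 3 : ℝ) := by
    rw [← Real.rpow_add hn']; norm_num
  set m1 := ∑ k ∈ Finset.Icc 1 n, P k * ((k : ℝ) - 1) with hm1
  set m2 := ∑ k ∈ Finset.Icc 1 n, P k * ((k : ℝ) - 1) ^ 2 with hm2
  have hkk : ∀ k ∈ Finset.Icc 1 n, (0 : ℝ) ≤ (k : ℝ) - 1 := by
    intro k hk
    have : (1 : ℝ) ≤ k := by exact_mod_cast (Finset.mem_Icc.1 hk).1
    linarith
  -- second moment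
  have hsec : m2 ≤ 8 * n + 16 * L * (n : ℝ) ^ (2 / 3 : ℝ) * m1 := by
    have hid := sum_sk (by linarith) hP (show 1 < n by omega)
    rw [pow_one, sub_sub_cancel] at hid
    have hsum : ∑ k ∈ Finset.Icc 1 n, P k * (((k : ℝ) - 1) ^ 2 / (4 * n ^ 2) -
        4 * L * ((k : ℝ) - 1) / (n * (n : ℝ) ^ (1 / 3 : ℝ))) ≤ pc lam n := by
      rw [← hid]
      refine Finset.sum_le_sum (fun k hk => mul_le_mul_of_nonneg_left ?_ (hP.1 k))
      exact sk_one (Finset.mem_Icc.1 hk).1 (Finset.mem_Icc.1 hk).2 h3 h0 h1 h2 h8 g1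
    have e1 : ∑ k ∈ Finset.Icc 1 n, P k * (((k : ℝ) - 1) ^ 2 / (4 * n ^ 2) -
        4 * L * ((k : ℝ) - 1) / (n * (n : ℝ) ^ (1 / 3 : ℝ))) =
        m2 / (4 * n ^ 2) - 4 * L * m1 / (n * (n : ℝ) ^ (1 / 3 : ℝ)) := by
      rw [hm1, hm2, Finset.sum_div, Finset.mul_sum, Finset.sum_div, ← Finset.sum_sub_distrib]
      refine Finset.sum_congr rfl (fun k _ => ?_)
      ring
    rw [e1] at hsum
    have e2 : m2 / (4 * n ^ 2) ≤ 2 / n + 4 * L * m1 / (n * (n : ℝ) ^ (1 / 3 : ℝ)) := by linarith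
    have e3 := mul_le_mul_of_nonneg_left e2 (show (0 : ℝ) ≤ 4 * n ^ 2 by positivity)
    have e4 : 4 * (n : ℝ) ^ 2 * (m2 / (4 * n ^ 2)) = m2 := by field_simp
    have e5 : 4 * (n : ℝ) ^ 2 * (2 / n + 4 * L * m1 / (n * (n : ℝ) ^ (1 / 3 : ℝ))) =
        8 * n + 16 * L * (n / (n : ℝ) ^ (1 / 3 : ℝ)) * m1 := by
      field_simp
      ring
    have e6 : (n : ℝ) / (n : ℝ) ^ (1 / 3 : ℝ) = (n : ℝ) ^ (2 / 3 : ℝ) := by
      rw [div_eq_iff hn13.ne']
      exact en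
    rw [e4, e5, e6] at e3
    exact e3
  -- truncation
  set B := 32 * L * (n : ℝ) ^ (2 / 3 : ℝ) with hB
  set B' := c' * (n : ℝ) ^ (2 / 3 : ℝ) with hB'
  have hB0 : 0 < B := by positivity
  have hB'0 : 0 < B' := by positivity
  have hB'1 : 1 ≤ B' := by
    rw [hB']
    rw [div_le_iff₀ hc0] at g2
    linarith
  have hB'c : B' ≤ c * (n : ℝ) ^ (2 / 3 : ℝ) := mul_le_mul_of_nonneg_right (min_le_left _ _) hn23.le
  have hBB : B' ≤ B := by
    refine mul_le_mul_of_nonneg_right ?_ hn23.le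
    have : c' ≤ 1 := min_le_right _ _
    have : 1 ≤ L := by rw [hL]; linarith [abs_nonneg lam]
    linarith
  have hTA' := hN₁ n (le_trans (le_max_left _ _) hn) P hP B' hB'1 hB'c
  have hx : m1 ≤ (B / B') * (C * Real.sqrt B') + m2 / B := by
    have : m1 ≤ ∑ k ∈ Finset.Icc 1 n, ((B / B') * (P k * min ((k : ℝ) - 1) B') + P k * ((k : ℝ) - 1) ^ 2 / B) := by
      refine Finset.sum_le_sum (fun k hk => ?_)
      have hx0 := hkk k hk
      have hpt : (k : ℝ) - 1 ≤ (B / B') * min ((k : ℝ) - 1) B' + ((k : ℝ) - 1) ^ 2 / B := by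
        have hr : 1 ≤ B / B' := by rw [le_div_iff₀ hB'0, one_mul]; exact hBB
        rcases le_total ((k : ℝ) - 1) B' with h | h
        · rw [min_eq_left h]
          have : 0 ≤ ((k : ℝ) - 1) ^ 2 / B := by positivity
          nlinarith
        · rw [min_eq_right h, div_mul_cancel₀ _ hB'0.ne']
          rcases le_total ((k : ℝ) - 1) B with h' | h'
          · have : 0 ≤ ((k : ℝ) - 1) ^ 2 / B := by positivity
            linarith
          · have : (k : ℝ) - 1 ≤ ((k : ℝ) - 1) ^ 2 / B := by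
              rw [le_div_iff₀ hB0, sq]
              exact mul_le_mul_of_nonneg_left h' hx0
            linarith
      have := mul_le_mul_of_nonneg_left hpt (hP.1 k)
      refine le_trans this (le_of_eq ?_)
      ring
    refine le_trans this ?_
    rw [Finset.sum_add_distrib, ← Finset.mul_sum, ← Finset.sum_div]
    have := mul_le_mul_of_nonneg_left hTA' (show 0 ≤ B / B' by positivity)
    linarith
  have e1 : B / B' = 32 * L / c' := by
    rw [hB, hB']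
    field_simp
  have e2 : Real.sqrt B' = Real.sqrt c' * (n : ℝ) ^ (1 / 3 : ℝ) := by
    rw [hB', Real.sqrt_mul hc0.le, e23, Real.sqrt_mul_self hn13.le]
  have e3 : m2 / B ≤ (n : ℝ) ^ (1 / 3 : ℝ) * (1 / (2 * L)) + m1 / 2 := by
    rw [div_le_iff₀ hB0, hB]
    refine le_trans hsec ?_
    have a1 : ((n : ℝ) ^ (1 / 3 : ℝ) * (1 / (2 * L)) + m1 / 2) * (32 * L * (n : ℝ) ^ (2 / 3 : ℝ)) =
        16 * ((n : ℝ) ^ (2 / 3 : ℝ) * (n : ℝ) ^ (1 / 3 : ℝ)) + 16 * L * (n : ℝ) ^ (2 / 3 : ℝ) * m1 := by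
      have a0 : 1 / (2 * L) * (32 * L) = 16 := by
        field_simp
        norm_num
      linear_combination ((n : ℝ) ^ (2 / 3 : ℝ) * (n : ℝ) ^ (1 / 3 : ℝ)) * a0
    rw [a1, ← en]
    linarith
  rw [e1, e2] at hx
  have hm : ∑ k ∈ Finset.Icc 1 n, P k * (k : ℝ) = m1 + 1 := by
    have e : ∑ k ∈ Finset.Icc 1 n, P k * (k : ℝ) = ∑ k ∈ Finset.Icc 1 n, (P k * ((k : ℝ) - 1) + P k) :=
      Finset.sum_congr rfl (fun k _ => by ring)
    rw [e, Finset.sum_add_distrib, hP.2.1]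
  rw [hm]
  have hfin : m1 ≤ 2 * ((32 * L / c' * (C * Real.sqrt c') + 1 / (2 * L)) * (n : ℝ) ^ (1 / 3 : ℝ)) := by
    have : 32 * L / c' * (C * (Real.sqrt c' * (n : ℝ) ^ (1 / 3 : ℝ))) =
      (32 * L / c' * (C * Real.sqrt c')) * (n : ℝ) ^ (1 / 3 : ℝ) := by ring
    rw [this] at hx
    linarith
  have : (2 * (32 * L / c' * (C * Real.sqrt c') + 1 / (2 * L)) + 1) * (n : ℝ) ^ (1 / 3 : ℝ) =
      2 * ((32 * L / c' * (C * Real.sqrt c') + 1 / (2 * L)) * (n : ℝ) ^ (1 / 3 : ℝ)) + (n : ℝ) ^ (1 / 3 : ℝ) := by ring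
  rw [this]
  linarith

end Pool.Agent.H249.ER
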