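import Pool.Agent.H249.ER.Kes
import Pool.Agent.H249.ER.Lim
import Pool.Agent.H249.ER.Flu2
import Pool.Agent.H249.ER.Neg
import Pool.Agent.H249.ER.Pth
import Pool.Agent.H249.ER.Sym
import Pool.Agent.H249.ER.Dev
import Pool.Agent.H249.ER.Dis
import Pool.Agent.H249.ER.Tb
import Pool.Agent.Q162.ER.TB

/-! # The local limit of the largest component of the critical random graph -/

set_option autoImplicit false

open Finset BigOperators MeasureTheory ProbabilityTheory Filter
open scoped Classical Topology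

namespace Pool.Agent.H249.ER

open Pool.Agent.Q287.SR (pairs erWeight Ex)

theorem t_RES : S_RES :=
  res_of
    (flu (t_IDE t_IND) t_SY2 t_SY3 (t_TB t_TA) (Pool.Agent.Q162.ER.tc t_TA) (t_BIG t_SY1 (t_NEG t_IND))
      (t_DI3 (t_DI1 t_IND t_BA1 t_CYB))
      (t_DEV t_SY2 t_SY3 (t_CON t_IND t_BA1 t_CYB t_PTH) (t_TWO t_CYL t_BA2 t_BA3 t_CYB) t_BA2 t_BA3
        (t_DI2 t_IND t_BA1 t_CYB)) t_SQC)
    (t_LIM (t_CNT t_TOR t_CYL) t_BA3 t_TOR) t_KES

/-! ## The ball in the component -/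

section
variable {V : Type} {G : SimpleGraph V} {C : Set V}

lemma edist_in (hcl : ∀ x ∈ C, ∀ y, G.Adj x y → y ∈ C) {v : V} (hv : v ∈ C) :
    ∀ k : ℕ, ∀ x, G.edist v x ≤ (k : ℕ∞) → x ∈ C := by
  intro k
  induction k with
  | zero =>
    intro x hx
    rw [edist_zero] at hx
    rw [← hx]
    exact hv
  | succ k ih =>
    intro x hx
    obtain ⟨y, hy, h⟩ := (edist_succ G v x k).1 hx
    rcases h with rfl | h
    · exact ih _ hy
    · exact hcl y (ih y hy) x h

lemma edist_induce (hcl : ∀ x ∈ C, ∀ y, G.Adj x y → y ∈ C) {v : V} (hv : v ∈ C) :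
    ∀ k : ℕ, ∀ x : C, (G.induce C).edist ⟨v, hv⟩ x ≤ (k : ℕ∞) ↔ G.edist v x ≤ (k : ℕ∞) := by
  intro k
  induction k with
  | zero =>
    intro x
    rw [edist_zero, edist_zero]
    exact ⟨fun h => congrArg Subtype.val h, fun h => Subtype.ext h⟩
  | succ k ih =>
    intro x
    rw [edist_succ, edist_succ]
    constructor
    · rintro ⟨y, hy, h⟩
      refine ⟨y, (ih y).1 hy, ?_⟩
      rcases h with h | h
      · exact Or.inl (congrArg Subtype.val h)
      · exact Or.inr h
    · rintro ⟨y, hy, h⟩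
      have hyC : y ∈ C := edist_in hcl hv k y hy
      refine ⟨⟨y, hyC⟩, (ih ⟨y, hyC⟩).2 hy, ?_⟩
      rcases h with h | h
      · exact Or.inl (Subtype.ext h)
      · exact Or.inr h

/-- the ball in a component is the ball in the graph -/
lemma ballIso_induce {W : Type} (hcl : ∀ x ∈ C, ∀ y, G.Adj x y → y ∈ C) {v : V} (hv : v ∈ C) (r : ℕ)
    (F : SimpleGraph W) (u : W) : BallIso (G.induce C) ⟨v, hv⟩ r F u ↔ BallIso G v r F u := by
  rw [ballIso_iff, ballIso_iff]
  constructor
  · rintro ⟨f, h1, h2, h3, h4⟩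
    refine ⟨fun x => (f x : V), fun x y h => h1 (Subtype.ext h), congrArg Subtype.val h2, fun x y => h3 x y, ?_⟩
    ext z
    constructor
    · rintro ⟨x, rfl⟩
      have : f x ∈ Set.range f := ⟨x, rfl⟩
      rw [h4] at this
      exact (edist_induce hcl hv r (f x)).1 this
    · intro hz
      have hzC : z ∈ C := edist_in hcl hv r z hz
      have : (⟨z, hzC⟩ : C) ∈ Set.range f := by
        rw [h4]
        exact (edist_induce hcl hv r ⟨z, hzC⟩).2 hz
      obtain ⟨x, hx⟩ := this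
      exact ⟨x, congrArg Subtype.val hx⟩
  · rintro ⟨f, h1, h2, h3, h4⟩
    have hC : ∀ x, f x ∈ C := fun x => by
      have : f x ∈ Set.range f := ⟨x, rfl⟩
      rw [h4] at this
      exact edist_in hcl hv r _ this
    refine ⟨fun x => ⟨f x, hC x⟩, fun x y h => h1 (congrArg Subtype.val h), Subtype.ext h2, fun x y => h3 x y, ?_⟩
    ext z
    constructor
    · rintro ⟨x, rfl⟩
      have : f x ∈ Set.range f := ⟨x, rfl⟩
      rw [h4] at this
      exact (edist_induce hcl hv r ⟨f x, hC x⟩).2 this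
    · intro hz
      have h5 := (edist_induce hcl hv r z).1 hz
      have : (z : V) ∈ Set.range f := by rw [h4]; exact h5
      obtain ⟨x, hx⟩ := this
      exact ⟨x, Subtype.ext hx⟩

end

/-- the proportion in terms of the component as a graph -/
lemma frac_eq {n m : ℕ} (G : SimpleGraph (Fin n)) {C : Finset (Fin n)} (hC : ∃ v, C = comp G v) (r : ℕ)
    (F : SimpleGraph (Fin m)) (u : Fin m) :
    (∑ v : {x // x ∈ C}, if BallIso (G.induce {x | x ∈ C}) v r F u then (1 : ℝ) else 0) / C.card = frac G C r F u := by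
  obtain ⟨v₀, rfl⟩ := hC
  have hcl : ∀ x ∈ {x | x ∈ comp G v₀}, ∀ y, G.Adj x y → y ∈ {x | x ∈ comp G v₀} :=
    fun x hx y hxy => comp_closed hx hxy
  unfold frac
  congr 1
  rw [Finset.card_filter]
  push_cast
  rw [← Finset.sum_coe_sort (comp G v₀)]
  refine Finset.sum_congr rfl (fun v _ => ?_)
  have h : BallIso (G.induce {x | x ∈ comp G v₀}) v r F u ↔ BallIso G v r F u :=
    ballIso_induce (G := G) hcl v.2 r F u
  by_cases h2 : BallIso G v r F u
  · rw [if_pos h2, if_pos (h.2 h2)]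
  · rw [if_neg h2, if_neg (fun h3 => h2 (h.1 h3))]

theorem main (lam : ℝ) (C : ∀ n : ℕ, SimpleGraph (Fin n) → Finset (Fin n))
    (hC : ∀ n, 1 ≤ n → ∀ G, IsLargest G (C n G)) (r m : ℕ) (F : SimpleGraph (Fin m)) (u : Fin m) :
    Tendsto (fun n : ℕ => Ex n (1 / n + lam / (n : ℝ) ^ (4 / 3 : ℝ)) (fun G =>
      (∑ v : {x // x ∈ C n G}, if BallIso (G.induce {x | x ∈ C n G}) v r F u then (1 : ℝ) else 0) / (C n G).card))
      atTop (𝓝 (poi.real {ω | BallIso (kesten ω) (0, []) r F u})) := by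
  refine (t_RES lam C hC r m F u).congr' ?_
  filter_upwards [eventually_ge_atTop 1] with n hn
  show Ex n (pc lam n) _ = Ex n (pc lam n) _
  congr 1
  funext G
  exact (frac_eq G (hC n hn G).1 r F u).symm

end Pool.Agent.H249.ER
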