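import Pool.Agent.H249.ER.K12
import Pool.Agent.H249.ER.Tor

/-! # Rooted trees: parents -/

set_option autoImplicit false

open Finset BigOperators
open scoped Classical

namespace Pool.Agent.H249.ER

/-- The parent map and the depth of a finite rooted tree `(F, u)` of height at most `r`, and a vertex `y` of depth `r`. -/
structure RT {m : ℕ} (F : SimpleGraph (Fin m)) (u y : Fin m) (r : ℕ) where
  /-- parent -/
  π : Fin m → Fin m
  /-- depth -/
  d : Fin m → ℕ
  du : d u = 0
  dpos : ∀ z, z ≠ u → d z = d (π z) + 1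
  πu : π u = u
  adj : ∀ x z, F.Adj x z ↔ (z ≠ u ∧ π z = x) ∨ (x ≠ u ∧ π x = z)
  ed : ∀ z, F.edist u z = (d z : ℕ∞)
  dr : ∀ z, d z ≤ r
  dy : d y = r

lemma exists_rt {m : ℕ} {F : SimpleGraph (Fin m)} {u y : Fin m} {r : ℕ} (hT : F.IsTree) (hc : Cov F u r)
    (hy : F.edist u y = (r : ℕ∞)) : Nonempty (RT F u y r) := by
  have hconn := hT.connected
  have hed : ∀ z, F.edist u z = ((F.dist u z : ℕ) : ℕ∞) := fun z => (hconn u z).coe_dist_eq_edist.symm
  have hex : ∀ z, z ≠ u → ∃ x, F.Adj x z ∧ F.dist u z = F.dist u x + 1 := by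
    intro z hz
    have hd : F.dist u z ≠ 0 := by
      intro h
      exact hz ((hconn.dist_eq_zero_iff).1 h).symm
    obtain ⟨k, hk⟩ : ∃ k, F.dist u z = k + 1 := ⟨F.dist u z - 1, by omega⟩
    have h1 : F.edist u z ≤ ((k + 1 : ℕ) : ℕ∞) := by rw [hed, hk]
    obtain ⟨x, hx, h2⟩ := (edist_succ F u z k).1 h1
    have hxk : F.dist u x ≤ k := by rw [hed] at hx; exact_mod_cast hx
    rcases h2 with h2 | h2
    · rw [h2] at hxk
      omega
    · refine ⟨x, h2, ?_⟩
      rcases hT.dist_eq_dist_add_one_of_adj u h2 with h3 | h3 <;> omega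
  have huniq : ∀ x x' z, F.Adj x z → F.Adj x' z → F.dist u z = F.dist u x + 1 → F.dist u z = F.dist u x' + 1 →
      x = x' := by
    intro x x' z h1 h2 h3 h4
    obtain ⟨p, hp⟩ := (hconn u x).exists_walk_length_eq_dist
    obtain ⟨p', hp'⟩ := (hconn u x').exists_walk_length_eq_dist
    have q1 : (p.concat h1).IsPath := by
      apply SimpleGraph.Walk.isPath_of_length_eq_dist
      rw [SimpleGraph.Walk.length_concat, hp, h3]
    have q2 : (p'.concat h2).IsPath := by
      apply SimpleGraph.Walk.isPath_of_length_eq_dist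
      rw [SimpleGraph.Walk.length_concat, hp', h4]
    have h6 : p.concat h1 = p'.concat h2 := (hT.existsUnique_path u z).unique q1 q2
    have h7 := congrArg SimpleGraph.Walk.penultimate h6
    simpa using h7
  let π : Fin m → Fin m := fun z => if h : z ≠ u then (hex z h).choose else u
  have hπ : ∀ z, z ≠ u → F.Adj (π z) z ∧ F.dist u z = F.dist u (π z) + 1 := by
    intro z hz
    have : π z = (hex z hz).choose := dif_pos hz
    rw [this]
    exact (hex z hz).choose_spec
  have hd0 : F.dist u u = 0 := SimpleGraph.dist_self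
  refine ⟨⟨π, fun z => F.dist u z, hd0, fun z hz => (hπ z hz).2, dif_neg (by simp), ?_, hed, ?_, ?_⟩⟩
  · intro x z
    constructor
    · intro h
      rcases hT.dist_eq_dist_add_one_of_adj u h with h3 | h3
      · right
        have hx : x ≠ u := by
          rintro rfl
          rw [hd0] at h3
          omega
        exact ⟨hx, huniq _ _ x (hπ x hx).1 h.symm (hπ x hx).2 h3⟩
      · left
        have hz : z ≠ u := by
          rintro rfl
          rw [hd0] at h3
          omega
        exact ⟨hz, huniq _ _ z (hπ z hz).1 h (hπ z hz).2 h3⟩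
    · rintro (⟨h1, h2⟩ | ⟨h1, h2⟩)
      · rw [← h2]
        exact (hπ z h1).1
      · rw [← h2]
        exact (hπ x h1).1.symm
  · intro z
    have := hc z
    rw [hed] at this
    exact_mod_cast this
  · rw [hed] at hy
    exact_mod_cast hy

section
variable {m : ℕ} {F : SimpleGraph (Fin m)} {u y : Fin m} {r : ℕ} (T : RT F u y r)

/-- the ancestors of `y` -/
def RT.R (z : Fin m) : Prop := ∃ k, T.π^[k] y = z

lemma RT.d_π (z : Fin m) : T.d (T.π z) = T.d z - 1 := by
  by_cases h : z = u
  · rw [h, T.πu, T.du]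
  · rw [T.dpos z h]
    omega

lemma RT.d_iter (k : ℕ) : T.d (T.π^[k] y) = r - k := by
  induction k with
  | zero => exact T.dy
  | succ k ih =>
    rw [Function.iterate_succ', Function.comp, T.d_π, ih]
    omega

lemma RT.d_zero {z : Fin m} (h : T.d z = 0) : z = u := by
  by_contra hz
  rw [T.dpos z hz] at h
  omega

lemma RT.R_u : T.R u := ⟨r, T.d_zero (by rw [T.d_iter, Nat.sub_self])⟩

lemma RT.R_π {z : Fin m} (h : T.R z) : T.R (T.π z) := by
  obtain ⟨k, hk⟩ := h
  exact ⟨k + 1, by rw [Function.iterate_succ', Function.comp, hk]⟩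

/-- the ancestor of `y` of depth `t` -/
lemma RT.R_exists {t : ℕ} (ht : t ≤ r) : ∃ z, T.R z ∧ T.d z = t :=
  ⟨T.π^[r - t] y, ⟨r - t, rfl⟩, by rw [T.d_iter]; omega⟩

lemma RT.R_unique {z z' : Fin m} (h : T.R z) (h' : T.R z') (hd : T.d z = T.d z') : z = z' := by
  obtain ⟨k, rfl⟩ := h
  obtain ⟨k', rfl⟩ := h'
  rw [T.d_iter, T.d_iter] at hd
  rcases Nat.lt_or_ge k r with hk | hk
  · have : k = k' := by omega
    rw [this]
  · have h1 : T.d (T.π^[k] y) = 0 := by rw [T.d_iter]; omega
    have h2 : T.d (T.π^[k'] y) = 0 := by rw [T.d_iter]; omega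
    rw [T.d_zero h1, T.d_zero h2]

/-- the children of `x` which are not ancestors of `y` -/
noncomputable def RT.nc (x : Fin m) : Finset (Fin m) := Finset.univ.filter (fun z => T.π z = x ∧ ¬ T.R z)

lemma RT.mem_nc {x z : Fin m} : z ∈ T.nc x ↔ (T.π z = x ∧ ¬ T.R z) := by simp [RT.nc]

/-- the shapes -/
def RT.Sp (f : Fin m → ℕ × List ℕ) : Prop :=
  (∀ z, T.R z → f z = (T.d z, [])) ∧
  (∀ z, ¬ T.R z → ∃ i < (T.nc (T.π z)).card, f z = ((f (T.π z)).1, i :: (f (T.π z)).2)) ∧
  ∀ z z', ¬ T.R z → ¬ T.R z' → T.π z = T.π z' → f z = f z' → z = z'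

lemma RT.Sp_dep {f : Fin m → ℕ × List ℕ} (h : T.Sp f) : ∀ (k : ℕ) (z : Fin m), T.d z = k → dep (f z) = k := by
  intro k
  induction k with
  | zero =>
    intro z hz
    have := T.d_zero hz
    rw [this, h.1 u T.R_u, T.du]
    simp [dep]
  | succ k ih =>
    intro z hz
    by_cases hR : T.R z
    · rw [h.1 z hR, hz]
      simp [dep]
    · obtain ⟨i, _, hf⟩ := h.2.1 z hR
      have h1 := ih (T.π z) (by rw [T.d_π, hz]; rfl)
      rw [hf]
      simp only [dep, List.length_cons] at h1 ⊢
      omega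

lemma RT.Sp_nil {f : Fin m → ℕ × List ℕ} (h : T.Sp f) (z : Fin m) : (f z).2 = [] ↔ T.R z := by
  constructor
  · intro h1
    by_contra hR
    obtain ⟨i, _, hf⟩ := h.2.1 z hR
    rw [hf] at h1
    simp at h1
  · intro hR
    rw [h.1 z hR]

lemma RT.Sp_inj {f : Fin m → ℕ × List ℕ} (h : T.Sp f) : Function.Injective f := by
  have key : ∀ (k : ℕ) (z z' : Fin m), T.d z = k → f z = f z' → z = z' := by
    intro k
    induction k with
    | zero =>
      intro z z' hz hf
      have h1 := T.Sp_dep h 0 z hz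
      have h2 := T.Sp_dep h (T.d z') z' rfl
      rw [← hf, h1] at h2
      rw [T.d_zero hz, T.d_zero h2.symm]
    | succ k ih =>
      intro z z' hz hf
      have h1 := T.Sp_dep h (k + 1) z hz
      have h2 := T.Sp_dep h (T.d z') z' rfl
      rw [← hf, h1] at h2
      by_cases hR : T.R z
      · have hR' : T.R z' := by
          rw [← T.Sp_nil h, ← hf, T.Sp_nil h]
          exact hR
        exact T.R_unique hR hR' (by rw [hz, ← h2])
      · have hR' : ¬ T.R z' := by
          rw [← T.Sp_nil h, ← hf, T.Sp_nil h]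
          exact hR
        obtain ⟨i, _, e1⟩ := h.2.1 z hR
        obtain ⟨i', _, e2⟩ := h.2.1 z' hR'
        have h3 : f (T.π z) = f (T.π z') := by
          rw [hf] at e1
          rw [e1] at e2
          have a1 := congrArg Prod.fst e2
          have a2 := congrArg Prod.snd e2
          simp only [List.cons.injEq] at a1 a2
          exact Prod.ext a1 a2.2
        have h4 := ih (T.π z) (T.π z') (by rw [T.d_π, hz]; rfl) h3
        exact h.2.2 z z' hR hR' h4 hf
  intro z z' hf
  exact key (T.d z) z z' rfl hf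

end

end Pool.Agent.H249.ER
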