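import Pool.Agent.H249.ER.Defs

/-!
# The largest component of the critical random graph: statements of the steps

`K = #(comp G v)`. The proof of `P(B_r(C_n, o_n) ≅ (F, u)) → P(B_r(T_∞) ≅ (F, u))`:
* `S_IDE`: the exact identity `E C(n - K, m) / (1 - p)^(m K) = C(n - 1, m)`, hence (`S_TA`, `S_TB`, `S_TC`) `E K ≤ C n^(1/3)`
  and `P(K > δ n^(2/3)) ≥ c δ^(-1/2) n^(-1/3)`; with a second moment (`S_NEG`, `S_BIG`) `C_n` has at least `δ n^(2/3)`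
  vertices with probability at least `1 - C δ`.
* `S_CON`, `S_TWO`, `S_DIS`: `E (1_F(v) - a)(1_F(w) - a) 1(v ↔ w)` is `o(P(v ↔ w)) + O(1/n)` (`S_DEV`), `a = |∂F| P(B_r(v) ≅ F)`;
  hence (`S_SQC`, `S_FLU`) the proportion of the `v` in `C_n` with `B_r(v) ≅ F` is `a + o(1)`.
* `S_CNT`, `S_LIM`: `a → alpha F`; `S_KES`: `alpha F` is the probability of `B_r(T_∞) ≅ F`.
-/

set_option autoImplicit false

open Finset BigOperators MeasureTheory ProbabilityTheory Filter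
open scoped Classical

namespace Pool.Agent.H249.ER

open Pool.Agent.Q287.SR (pairs erWeight Ex)

/-- `f` depends only on the edges in `D` -/
def Dep {n : ℕ} (D : Finset (Sym2 (Fin n))) (f : SimpleGraph (Fin n) → ℝ) : Prop :=
  ∀ G G' : SimpleGraph (Fin n), (∀ e ∈ D, (e ∈ G.edgeSet ↔ e ∈ G'.edgeSet)) → f G = f G'

/-- `G` and `G₀` have the same edges in `D` -/
def Cyl {n : ℕ} (G₀ : SimpleGraph (Fin n)) (D : Finset (Sym2 (Fin n))) (G : SimpleGraph (Fin n)) : Prop :=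
  ∀ e ∈ D, (e ∈ G.edgeSet ↔ e ∈ G₀.edgeSet)

/-! ## Independence, cylinders, symmetry -/

def S_IND : Prop := ∀ (n : ℕ) (p : ℝ) (D D' : Finset (Sym2 (Fin n))) (f g : SimpleGraph (Fin n) → ℝ),
  Disjoint D D' → Dep D f → Dep D' g → Ex n p (fun G => f G * g G) = Ex n p f * Ex n p g

def S_CYL : Prop := ∀ (n : ℕ) (p : ℝ) (G₀ : SimpleGraph (Fin n)) (D : Finset (Sym2 (Fin n))), D ⊆ pairs n →
  Pr n p (Cyl G₀ D) = ∏ e ∈ D, if e ∈ G₀.edgeSet then p else 1 - p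

def S_SYM : Prop := ∀ (n : ℕ) (p : ℝ) (σ : Equiv.Perm (Fin n)) (f : SimpleGraph (Fin n) → ℝ),
  Ex n p (fun G => f (G.map σ.toEmbedding)) = Ex n p f

def S_SY1 : Prop := ∀ (n : ℕ) (p : ℝ) (v w : Fin n) (g : ℕ → ℝ),
  Ex n p (fun G => g (comp G v).card) = Ex n p (fun G => g (comp G w).card)

def S_SY2 : Prop := ∀ (n : ℕ) (p : ℝ) (x y x' y' : Fin n), x ≠ y → x' ≠ y' →
  Pr n p (fun G => G.Reachable x y) = Pr n p (fun G => G.Reachable x' y')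

def S_SY3 : Prop := ∀ (n : ℕ) (p : ℝ) (v w : Fin n) (r m : ℕ) (F : SimpleGraph (Fin m)) (u : Fin m),
  Pr n p (fun G => BallIso G v r F u) = Pr n p (fun G => BallIso G w r F u)

/-! ## The size of the component of a vertex -/

def S_IDE : Prop := ∀ (n : ℕ) (p : ℝ), 0 ≤ p → p < 1 → ∀ (v : Fin n) (m : ℕ), m < n →
  Ex n p (fun G => ((n - (comp G v).card).choose m : ℝ) / (1 - p) ^ (m * (comp G v).card)) = ((n - 1).choose m : ℝ)

/-- `P k`, `1 ≤ k ≤ n`, are nonnegative numbers with sum one which satisfy the identity. -/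
def Law (n : ℕ) (p : ℝ) (P : ℕ → ℝ) : Prop :=
  (∀ k, 0 ≤ P k) ∧ ∑ k ∈ Finset.Icc 1 n, P k = 1 ∧
    ∀ m, m < n → ∑ k ∈ Finset.Icc 1 n, P k * (((n - k).choose m : ℝ) / (1 - p) ^ (m * k)) = ((n - 1).choose m : ℝ)

def S_TA : Prop := ∀ lam : ℝ, ∃ C c : ℝ, 0 < C ∧ 0 < c ∧ ∃ N : ℕ, ∀ n : ℕ, N ≤ n → ∀ P : ℕ → ℝ, Law n (pc lam n) P →
  ∀ B : ℝ, 1 ≤ B → B ≤ c * (n : ℝ) ^ (2 / 3 : ℝ) → ∑ k ∈ Finset.Icc 1 n, P k * min ((k : ℝ) - 1) B ≤ C * Real.sqrt B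

def S_TB : Prop := ∀ lam : ℝ, ∃ C : ℝ, 0 < C ∧ ∃ N : ℕ, ∀ n : ℕ, N ≤ n → ∀ P : ℕ → ℝ, Law n (pc lam n) P →
  ∑ k ∈ Finset.Icc 1 n, P k * (k : ℝ) ≤ C * (n : ℝ) ^ (1 / 3 : ℝ)

def S_TC : Prop := ∀ lam : ℝ, ∃ c δ₀ : ℝ, 0 < c ∧ 0 < δ₀ ∧ ∀ δ : ℝ, 0 < δ → δ ≤ δ₀ → ∃ N : ℕ, ∀ n : ℕ, N ≤ n →
  ∀ P : ℕ → ℝ, Law n (pc lam n) P → c / (Real.sqrt δ * (n : ℝ) ^ (1 / 3 : ℝ)) ≤
    ∑ k ∈ (Finset.Icc 1 n).filter (fun k : ℕ => δ * (n : ℝ) ^ (2 / 3 : ℝ) < (k : ℝ)), P k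

def S_NEG : Prop := ∀ (n : ℕ) (p : ℝ), 0 ≤ p → p ≤ 1 → ∀ (v w : Fin n), v ≠ w → ∀ k : ℕ,
  Pr n p (fun G => k < (comp G v).card ∧ k < (comp G w).card ∧ ¬ G.Reachable v w) ≤
    Pr n p (fun G => k < (comp G v).card) * Pr n p (fun G => k < (comp G w).card)

def S_BIG : Prop := ∀ (n : ℕ) (p : ℝ), 0 ≤ p → p ≤ 1 → ∀ (v : Fin n) (k : ℕ),
  (n : ℝ) * (Pr n p (fun G => k < (comp G v).card)) ^ 2 * Pr n p (fun G => ∀ w, (comp G w).card ≤ k) ≤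
    Ex n p (fun G => ((comp G v).card : ℝ))

/-! ## Distances and balls -/

def S_DI1 : Prop := ∀ (n : ℕ) (p : ℝ), 0 ≤ p → p ≤ 1 → ∀ (v w : Fin n), v ≠ w → ∀ k : ℕ, 1 ≤ k →
  Pr n p (fun G => G.edist v w = (k : ℕ∞)) ≤ (n : ℝ) ^ (k - 1) * p ^ k

def S_DI2 : Prop := ∀ (n : ℕ) (p : ℝ), 0 ≤ p → p ≤ 1 → ∀ (v : Fin n) (k : ℕ),
  Ex n p (fun G => ((bd G v k).card : ℝ)) ≤ (n * p) ^ k

def S_DI3 : Prop := ∀ (n : ℕ) (p : ℝ), 0 ≤ p → p ≤ 1 → ∀ (v w : Fin n), v ≠ w → ∀ R : ℕ,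
  Pr n p (fun G => G.edist v w ≤ (R : ℕ∞)) ≤ ∑ k ∈ Finset.Icc 1 R, (n : ℝ) ^ (k - 1) * p ^ k

def S_BA1 : Prop := ∀ (n : ℕ) (G : SimpleGraph (Fin n)) (v x : Fin n) (r : ℕ), x ∈ ball G v r →
  (res (ball G v r) G).edist v x = G.edist v x

def S_BA2 : Prop := ∀ (n : ℕ) (G : SimpleGraph (Fin n)) (v : Fin n) (r m : ℕ) (F : SimpleGraph (Fin m)) (u : Fin m),
  BallIso G v r F u ↔ BallIso (res (ball G v r) G) v r F u

def S_BA3 : Prop := ∀ (n : ℕ) (G : SimpleGraph (Fin n)) (v : Fin n) (r m : ℕ) (F : SimpleGraph (Fin m)) (u : Fin m),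
  BallIso G v r F u → (ball G v r).card = m ∧ (bd G v r).card = (bd F u r).card ∧ Cov F u r

/-- the edges which are inside the ball or have an end at distance less than `r` from `v` -/
noncomputable def DB {n : ℕ} (G₀ : SimpleGraph (Fin n)) (v : Fin n) (r : ℕ) : Finset (Sym2 (Fin n)) :=
  (pairs n).filter (fun e => (∀ x ∈ e, x ∈ ball G₀ v r) ∨ ∃ x ∈ e, G₀.edist v x < (r : ℕ∞))

def S_CYB : Prop := ∀ (n : ℕ) (G₀ G : SimpleGraph (Fin n)) (v : Fin n) (r : ℕ),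
  Cyl G₀ (DB G₀ v r) G ↔ (ball G v r = ball G₀ v r ∧ res (ball G v r) G = res (ball G₀ v r) G₀)

def S_PTH : Prop := ∀ (n : ℕ) (G : SimpleGraph (Fin n)) (A A' : Finset (Fin n)) (v w : Fin n), v ∈ A → w ∈ A' →
  Disjoint A A' → G.Reachable v w → ∃ x ∈ A, ∃ y ∈ A', (res ((A ∪ A')ᶜ ∪ {x, y}) G).Reachable x y ∧
    (∃ z, z ∉ A ∧ G.Adj x z) ∧ (∃ z, z ∉ A' ∧ G.Adj y z)

/-- `Φ G` is determined by the balls of radius `r` about `v` and of radius `s` about `w`. -/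
def BallDet {n : ℕ} (v w : Fin n) (r s : ℕ) (Φ : SimpleGraph (Fin n) → ℝ) : Prop :=
  ∀ G G' : SimpleGraph (Fin n), ball G v r = ball G' v r → res (ball G v r) G = res (ball G' v r) G' →
    ball G w s = ball G' w s → res (ball G w s) G = res (ball G' w s) G' → Φ G = Φ G'

def S_CON : Prop := ∀ (n : ℕ) (p : ℝ), 0 ≤ p → p ≤ 1 → ∀ (v w : Fin n) (r s : ℕ) (τ : ℝ),
  (∀ x y : Fin n, x ≠ y → Pr n p (fun G => G.Reachable x y) ≤ τ) →
  ∀ Φ : SimpleGraph (Fin n) → ℝ, (∀ G, 0 ≤ Φ G) → BallDet v w r s Φ →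
    Ex n p (fun G => if Disjoint (ball G v r) (ball G w s) ∧ G.Reachable v w then Φ G else 0) ≤
      τ * Ex n p (fun G => if Disjoint (ball G v r) (ball G w s) then
        Φ G * (bd G v r).card * (bd G w s).card else 0)

def S_TWO : Prop := ∀ (n : ℕ) (p : ℝ), 0 ≤ p → p < 1 → ∀ (v w : Fin n) (r m : ℕ) (F : SimpleGraph (Fin m)) (u : Fin m),
  Pr n p (fun G => BallIso G v r F u ∧ BallIso G w r F u ∧ Disjoint (ball G v r) (ball G w r)) * (1 - p) ^ (m ^ 2) ≤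
    Pr n p (fun G => BallIso G v r F u) * Pr n p (fun G => BallIso G w r F u)

/-- `1` if `B_r(G, v) ≅ (F, u)`, and `0` otherwise -/
noncomputable def ind {n m : ℕ} (G : SimpleGraph (Fin n)) (v : Fin n) (r : ℕ) (F : SimpleGraph (Fin m)) (u : Fin m) : ℝ :=
  if BallIso G v r F u then 1 else 0

def S_DEV : Prop := ∀ (n : ℕ) (p : ℝ), 0 ≤ p → p < 1 → ∀ (v w : Fin n), v ≠ w → ∀ (r m : ℕ) (F : SimpleGraph (Fin m))
  (u : Fin m) (a : ℝ), a = (bd F u r).card * Pr n p (fun G => BallIso G v r F u) →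
  Ex n p (fun G => if G.Reachable v w then (ind G v r F u - a) * (ind G w r F u - a) else 0) ≤
    Pr n p (fun G => G.Reachable v w) * (a ^ 2 * (((1 - p) ^ (m ^ 2))⁻¹ - 1) + 2 * a * ((n * p) ^ r - 1)) +
      (1 + 2 * a) * Pr n p (fun G => G.edist v w ≤ ((2 * r : ℕ) : ℕ∞))

def S_SQC : Prop := ∀ (n : ℕ) (G : SimpleGraph (Fin n)) (v₀ : Fin n) (x : Fin n → ℝ),
  (∑ v ∈ comp G v₀, x v) ^ 2 ≤ ∑ v, ∑ w, if G.Reachable v w then x v * x w else 0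

/-- the proportion of the vertices `v` in `C` with `B_r(G, v) ≅ (F, u)` -/
noncomputable def frac {n m : ℕ} (G : SimpleGraph (Fin n)) (C : Finset (Fin n)) (r : ℕ) (F : SimpleGraph (Fin m))
    (u : Fin m) : ℝ :=
  ((C.filter (fun v => BallIso G v r F u)).card : ℝ) / C.card

/-- the mean over `v` of the probability of `B_r(v) ≅ (F, u)` -/
noncomputable def avg {m : ℕ} (n : ℕ) (p : ℝ) (r : ℕ) (F : SimpleGraph (Fin m)) (u : Fin m) : ℝ :=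
  (∑ v : Fin n, Pr n p (fun G => BallIso G v r F u)) / n

def S_FLU : Prop := ∀ (lam : ℝ) (C : ∀ n : ℕ, SimpleGraph (Fin n) → Finset (Fin n)),
  (∀ n, 1 ≤ n → ∀ G, IsLargest G (C n G)) → ∀ (r m : ℕ) (F : SimpleGraph (Fin m)) (u : Fin m),
  Tendsto (fun n : ℕ => Ex n (pc lam n) (fun G => frac G (C n G) r F u) -
    (bd F u r).card * avg n (pc lam n) r F u) atTop (nhds 0)

/-! ## Counting -/

def S_TOR : Prop := ∀ (V : Type) (G : SimpleGraph V) (v : V) (r m : ℕ) (F : SimpleGraph (Fin m)) (u : Fin m),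
  (BallIso G v r F u ↔ ∃ f, Emb G v r F u f) ∧ 0 < aut F u ∧
    (BallIso G v r F u → Nat.card {f : Fin m → V // Emb G v r F u f} = aut F u)

def S_CNT : Prop := ∀ (n : ℕ) (p : ℝ) (v : Fin n) (r m : ℕ) (F : SimpleGraph (Fin m)) (u : Fin m), Cov F u r →
  Pr n p (fun G => BallIso G v r F u) * aut F u = ((n - 1).descFactorial (m - 1) : ℝ) * p ^ (Nat.card F.edgeSet) *
    (1 - p) ^ (m.choose 2 - Nat.card F.edgeSet + (m - (bd F u r).card) * (n - m))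

def S_LIM : Prop := ∀ (lam : ℝ) (r m : ℕ) (F : SimpleGraph (Fin m)) (u : Fin m),
  Tendsto (fun n : ℕ => (bd F u r).card * avg n (pc lam n) r F u) atTop (nhds (alpha F u r))

/-! ## The tree `T_∞` -/

def S_K1 : Prop := ∀ (ω : ℕ × List ℕ → ℕ) (j : ℕ) (w : List ℕ) (r : ℕ),
  (kesten ω).edist (0, []) (j, w) ≤ (r : ℕ∞) ↔ (inT ω j w ∧ j + w.length ≤ r)

def S_K2 : Prop := (∀ ω : ℕ × List ℕ → ℕ, (kesten ω).IsAcyclic) ∧
  ∀ (ω : ℕ × List ℕ → ℕ) (r m : ℕ) (F : SimpleGraph (Fin m)) (u : Fin m), BallIso (kesten ω) (0, []) r F u →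
    F.IsTree ∧ Cov F u r

/-- `x` is on the path from `u` to `y` -/
def OnRay {m : ℕ} (F : SimpleGraph (Fin m)) (u y x : Fin m) : Prop := F.dist u x + F.dist x y = F.dist u y

/-- the children of `x` which are not on the path from `u` to `y` -/
noncomputable def nch {m : ℕ} (F : SimpleGraph (Fin m)) (u y x : Fin m) : Finset (Fin m) :=
  Finset.univ.filter (fun z => F.Adj x z ∧ F.dist u z = F.dist u x + 1 ∧ ¬ OnRay F u y z)

/-- the possible embeddings which take the path from `u` to `y` to the ray -/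
def Sh {m : ℕ} (F : SimpleGraph (Fin m)) (u y : Fin m) (f : Fin m → ℕ × List ℕ) : Prop :=
  (∀ x, OnRay F u y x → f x = (F.dist u x, [])) ∧
    ∀ x, (∀ z ∈ nch F u y x, ∃ i < (nch F u y x).card, f z = ((f x).1, i :: (f x).2)) ∧
      ∀ z ∈ nch F u y x, ∀ z' ∈ nch F u y x, f z = f z' → z = z'

def S_K3 : Prop := ∀ (r m : ℕ) (F : SimpleGraph (Fin m)) (u y : Fin m), F.IsTree → Cov F u r → F.dist u y = r →
  ∀ (ω : ℕ × List ℕ → ℕ) (f : Fin m → ℕ × List ℕ),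
    (Emb (kesten ω) (0, []) r F u f ∧ f y = (r, [])) ↔
      (Sh F u y f ∧ ∀ x, F.dist u x < r → ω (f x) = (nch F u y x).card)

def S_K4 : Prop := ∀ (r m : ℕ) (F : SimpleGraph (Fin m)) (u y : Fin m), F.IsTree → Cov F u r → F.dist u y = r →
  (∀ f, Sh F u y f → Function.Injective f) ∧ {f | Sh F u y f}.Finite ∧
    Nat.card {f : Fin m → ℕ × List ℕ // Sh F u y f} = ∏ x, ((nch F u y x).card).factorial

def S_K5 : Prop := ∀ (m : ℕ) (f : Fin m → ℕ × List ℕ), Function.Injective f → ∀ (I : Finset (Fin m)) (c : Fin m → ℕ),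
  MeasurableSet {ω : ℕ × List ℕ → ℕ | ∀ x ∈ I, ω (f x) = c x} ∧
    poi.real {ω : ℕ × List ℕ → ℕ | ∀ x ∈ I, ω (f x) = c x} = ∏ x ∈ I, (Real.exp (-1) / ((c x).factorial : ℝ))

def S_KES : Prop := ∀ (r m : ℕ) (F : SimpleGraph (Fin m)) (u : Fin m),
  poi.real {ω | BallIso (kesten ω) (0, []) r F u} = alpha F u r

/-! ## The theorem -/

/-- The local limit of the largest component -/
def S_RES : Prop := ∀ (lam : ℝ) (C : ∀ n : ℕ, SimpleGraph (Fin n) → Finset (Fin n)),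
  (∀ n, 1 ≤ n → ∀ G, IsLargest G (C n G)) → ∀ (r m : ℕ) (F : SimpleGraph (Fin m)) (u : Fin m),
  Tendsto (fun n : ℕ => Ex n (pc lam n) (fun G => frac G (C n G) r F u)) atTop
    (nhds (poi.real {ω | BallIso (kesten ω) (0, []) r F u}))

theorem res_of (h1 : S_FLU) (h2 : S_LIM) (h3 : S_KES) : S_RES := by
  intro lam C hC r m F u
  rw [h3 r m F u]
  have := (h1 lam C hC r m F u).add (h2 lam r m F u)
  simpa using this

end Pool.Agent.H249.ER
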