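import Pool.Agent.H249.ER.Flu

/-! # The truncated mean of the size of a component -/

set_option autoImplicit false

open Finset BigOperators Filter
open scoped Topology

namespace Pool.Agent.H249.ER

/-- the product bound -/
lemma desc_le (n k : ℕ) (hk : 1 ≤ k) (hkn : k ≤ n) : ∀ m : ℕ, m < n →
    ((n - k).descFactorial m : ℝ) ≤ (n - 1).descFactorial m *
      Real.exp (-(((k : ℝ) - 1) * ∑ i ∈ Finset.range m, (1 : ℝ) / (n - 1 - i))) := by
  intro m
  induction m with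
  | zero => intro _; simp
  | succ m ih =>
    intro hm
    have ih' := ih (by omega)
    rw [Nat.descFactorial_succ, Nat.descFactorial_succ, Finset.sum_range_succ]
    have hk0 : (0 : ℝ) ≤ (k : ℝ) - 1 := by
      have : (1 : ℝ) ≤ k := by exact_mod_cast hk
      linarith
    have hpos : (0 : ℝ) < (n : ℝ) - 1 - m := by
      have : ((m + 1 : ℕ) : ℝ) < n := by exact_mod_cast hm
      push_cast at this
      linarith
    have e1 : ((n - 1 - m : ℕ) : ℝ) = (n : ℝ) - 1 - m := by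
      rw [Nat.cast_sub (by omega), Nat.cast_sub (by omega)]
      simp
    have h1 : ((n - k - m : ℕ) : ℝ) ≤ ((n : ℝ) - 1 - m) * Real.exp (-(((k : ℝ) - 1) * (1 / (n - 1 - m)))) := by
      by_cases h : m ≤ n - k
      · have e2 : ((n - k - m : ℕ) : ℝ) = (n : ℝ) - 1 - m - (k - 1) := by
          rw [Nat.cast_sub h, Nat.cast_sub hkn]
          ring
        rw [e2]
        have h2 := Real.add_one_le_exp (-(((k : ℝ) - 1) * (1 / (n - 1 - m))))
        have h3 := mul_le_mul_of_nonneg_left h2 hpos.le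
        refine le_trans (le_of_eq ?_) h3
        field_simp
        ring
      · have : n - k - m = 0 := by omega
        rw [this, Nat.cast_zero]
        positivity
    push_cast
    rw [e1]
    have e3 : Real.exp (-(((k : ℝ) - 1) * (∑ i ∈ Finset.range m, (1 : ℝ) / (n - 1 - i) + 1 / (n - 1 - m)))) =
        Real.exp (-(((k : ℝ) - 1) * ∑ i ∈ Finset.range m, (1 : ℝ) / (n - 1 - i))) *
        Real.exp (-(((k : ℝ) - 1) * (1 / (n - 1 - m)))) := by
      rw [← Real.exp_add]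
      congr 1
      ring
    rw [e3]
    calc ((n - k - m : ℕ) : ℝ) * ((n - k).descFactorial m : ℝ)
        ≤ (((n : ℝ) - 1 - m) * Real.exp (-(((k : ℝ) - 1) * (1 / (n - 1 - m))))) *
          ((n - 1).descFactorial m * Real.exp (-(((k : ℝ) - 1) * ∑ i ∈ Finset.range m, (1 : ℝ) / (n - 1 - i)))) :=
          mul_le_mul h1 ih' (by positivity) (by positivity)
      _ = _ := by ring

lemma sum_inv_ge (n m : ℕ) (hm : m < n) :
    (m : ℝ) / n + (m : ℝ) ^ 2 / (2 * n ^ 2) ≤ ∑ i ∈ Finset.range m, (1 : ℝ) / (n - 1 - i) := by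
  have hn : (0 : ℝ) < n := by exact_mod_cast (by omega : 0 < n)
  have h1 : ∀ i ∈ Finset.range m, (1 : ℝ) / n + ((i : ℝ) + 1) / n ^ 2 ≤ 1 / (n - 1 - i) := by
    intro i hi
    have him : i < m := Finset.mem_range.1 hi
    have hpos : (0 : ℝ) < (n : ℝ) - 1 - i := by
      have : ((i + 1 : ℕ) : ℝ) < n := by exact_mod_cast (by omega : i + 1 < n)
      push_cast at this
      linarith
    rw [div_add_div _ _ hn.ne' (by positivity), div_le_div_iff₀ (by positivity) hpos]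
    have hi0 : (0 : ℝ) ≤ i := by positivity
    nlinarith [mul_nonneg hn.le (sq_nonneg ((i : ℝ) + 1))]
  refine le_trans (le_of_eq_of_le ?_ (le_refl (∑ i ∈ Finset.range m, ((1 : ℝ) / n + (i : ℝ) / n ^ 2 + 1 / (2 * n ^ 2)))))
    (le_trans (Finset.sum_le_sum (fun i _ => ?_)) (Finset.sum_le_sum h1))
  · rw [Finset.sum_add_distrib, Finset.sum_add_distrib, Finset.sum_const, Finset.sum_const, Finset.card_range,
      nsmul_eq_mul, nsmul_eq_mul, ← Finset.sum_div]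
    have : (∑ i ∈ Finset.range m, (i : ℝ)) = (m : ℝ) * (m - 1) / 2 := by
      clear hm h1
      induction m with
      | zero => simp
      | succ j ih =>
        rw [Finset.sum_range_succ, ih]
        push_cast
        ring
    rw [this]
    field_simp
    ring
  · have : (i : ℝ) / n ^ 2 + 1 / (2 * n ^ 2) ≤ ((i : ℝ) + 1) / n ^ 2 := by
      rw [add_div]
      have : (1 : ℝ) / (2 * n ^ 2) ≤ 1 / n ^ 2 := by
        apply one_div_le_one_div_of_le (by positivity)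
        nlinarith [sq_nonneg (n : ℝ)]
      linarith
    linarith

lemma choose_le {n k m : ℕ} (hk : 1 ≤ k) (hkn : k ≤ n) (hm : m < n) :
    ((n - k).choose m : ℝ) ≤ (n - 1).choose m *
      Real.exp (-(((k : ℝ) - 1) * ((m : ℝ) / n + (m : ℝ) ^ 2 / (2 * n ^ 2)))) := by
  have h := desc_le n k hk hkn m hm
  rw [Nat.descFactorial_eq_factorial_mul_choose, Nat.descFactorial_eq_factorial_mul_choose] at h
  push_cast at h
  have hf : (0 : ℝ) < (m.factorial : ℝ) := by exact_mod_cast Nat.factorial_pos m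
  rw [mul_assoc] at h
  have h2 := le_of_mul_le_mul_left h hf
  refine le_trans h2 (mul_le_mul_of_nonneg_left ?_ (by positivity))
  apply Real.exp_le_exp.2
  have hk0 : (0 : ℝ) ≤ (k : ℝ) - 1 := by
    have : (1 : ℝ) ≤ k := by exact_mod_cast hk
    linarith
  have := mul_le_mul_of_nonneg_left (sum_inv_ge n m hm) hk0
  linarith

/-- `(1 - p)^(-j) ≤ exp (j (p + 2 p²))` -/
lemma inv_pow_le {p : ℝ} (h0 : 0 ≤ p) (h1 : p ≤ 1 / 2) (j : ℕ) :
    ((1 - p) ^ j)⁻¹ ≤ Real.exp (j * (p + 2 * p ^ 2)) := by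
  have hp : 0 < 1 - p := by linarith
  rw [← inv_pow, Real.exp_nat_mul]
  refine pow_le_pow_left₀ (inv_nonneg.2 hp.le) ?_ j
  have h2 := Real.add_one_le_exp (p / (1 - p))
  have e : p / (1 - p) + 1 = (1 - p)⁻¹ := by
    field_simp
    ring
  rw [e] at h2
  refine le_trans h2 (Real.exp_le_exp.2 ?_)
  rw [div_le_iff₀ hp]
  nlinarith [sq_nonneg p]

/-- facts on the edge probability for large `n` -/
lemma p_facts (lam : ℝ) : ∃ N : ℕ, ∀ n : ℕ, N ≤ n → 0 < n ∧ 0 ≤ pc lam n ∧ pc lam n ≤ 1 / 2 ∧ pc lam n ≤ 2 / n ∧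
    1 / (2 * n) ≤ pc lam n ∧ 3 ≤ n ∧ (8 : ℝ) ≤ (n : ℝ) ^ (2 / 3 : ℝ) := by
  have a1 := (tendsto_np lam).eventually (lt_mem_nhds (show (1 / 2 : ℝ) < 1 by norm_num))
  have a2 := (tendsto_np lam).eventually (gt_mem_nhds (show (1 : ℝ) < 2 by norm_num))
  have a3 := (tendsto_p lam).eventually (gt_mem_nhds (show (0 : ℝ) < 1 / 2 by norm_num))
  have a4 := (tendsto_rpow_nat (by norm_num : (0 : ℝ) < 2 / 3)).eventually_ge_atTop 8
  obtain ⟨N, hN⟩ := Filter.eventually_atTop.1 (a1.and (a2.and (a3.and (a4.and (eventually_ge_atTop 3)))))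
  refine ⟨N, fun n hn => ?_⟩
  obtain ⟨h1, h2, h3, h4, h5⟩ := hN n hn
  have hn0 : 0 < n := by omega
  have hn' : (0 : ℝ) < n := by exact_mod_cast hn0
  refine ⟨hn0, ?_, h3.le, ?_, ?_, h5, h4⟩
  · exact (pos_of_mul_pos_right (lt_trans (by norm_num) h1) hn'.le).le
  · rw [le_div_iff₀ hn']
    linarith
  · rw [div_le_iff₀ (by positivity)]
    linarith

lemma one_sub_exp_ge {z : ℝ} (hz : 0 ≤ z) : min z 1 ≤ 2 * (1 - Real.exp (-z)) := by
  have h1 : Real.exp (-z) ≤ 1 / (1 + z) := by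
    rw [Real.exp_neg, ← one_div]
    apply one_div_le_one_div_of_le (by linarith)
    linarith [Real.add_one_le_exp z]
  have h2 : 1 / (1 + z) ≤ 1 - min z 1 / 2 := by
    rw [div_le_iff₀ (by linarith)]
    rcases le_total z 1 with h | h
    · rw [min_eq_left h]
      nlinarith
    · rw [min_eq_right h]
      nlinarith
  linarith

/-- the ratio in the identity -/
noncomputable def sk (n m : ℕ) (p : ℝ) (k : ℕ) : ℝ :=
  ((n - k).choose m : ℝ) / ((n - 1).choose m * (1 - p) ^ (m * (k - 1)))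

lemma sum_sk {n : ℕ} {p : ℝ} {P : ℕ → ℝ} (h1 : p < 1) (hP : Law n p P) {m : ℕ} (hm : m < n) :
    ∑ k ∈ Finset.Icc 1 n, P k * (1 - sk n m p k) = 1 - (1 - p) ^ m := by
  have hc : (0 : ℝ) < ((n - 1).choose m : ℝ) := by exact_mod_cast Nat.choose_pos (by omega)
  have hp : (0 : ℝ) < (1 - p) := by linarith
  have e1 : ∀ k ∈ Finset.Icc 1 n, P k * (1 - sk n m p k) = P k -
      (P k * (((n - k).choose m : ℝ) / (1 - p) ^ (m * k))) * ((1 - p) ^ m / ((n - 1).choose m : ℝ)) := by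
    intro k hk
    have hk1 := (Finset.mem_Icc.1 hk).1
    have e2 : (1 - p) ^ (m * k) = (1 - p) ^ (m * (k - 1)) * (1 - p) ^ m := by
      rw [← pow_add]
      congr 1
      obtain ⟨j, rfl⟩ : ∃ j, k = j + 1 := ⟨k - 1, by omega⟩
      rw [Nat.add_sub_cancel]
      ring
    unfold sk
    rw [e2]
    have hp1 : (0 : ℝ) < (1 - p) ^ (m * (k - 1)) := pow_pos hp _
    have hp2 : (0 : ℝ) < (1 - p) ^ m := pow_pos hp _
    field_simp
  rw [Finset.sum_congr rfl e1, Finset.sum_sub_distrib, ← Finset.sum_mul, hP.2.1, hP.2.2 m hm]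
  field_simp

lemma sk_nonneg {n m : ℕ} {p : ℝ} (h1 : p < 1) (k : ℕ) : 0 ≤ sk n m p k := by
  unfold sk
  have : (0 : ℝ) < (1 - p) := by linarith
  positivity

lemma sk_le {lam : ℝ} {n m k : ℕ} (hk : 1 ≤ k) (hkn : k ≤ n) (hm : m < n) (h0 : 0 ≤ pc lam n)
    (h1 : pc lam n ≤ 1 / 2) (h2 : pc lam n ≤ 2 / n) (hml : 4 * |lam| * (n : ℝ) ^ (2 / 3 : ℝ) + 32 ≤ m) :
    sk n m (pc lam n) k ≤ Real.exp (-(((k : ℝ) - 1) * (m ^ 2 / (4 * n ^ 2)))) := by
  have hn : (0 : ℝ) < n := by exact_mod_cast (by omega : 0 < n)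
  set p := pc lam n with hp
  have hq : (0 : ℝ) < 1 - p := by linarith
  have hk0 : (0 : ℝ) ≤ (k : ℝ) - 1 := by
    have : (1 : ℝ) ≤ k := by exact_mod_cast hk
    linarith
  have hc : (0 : ℝ) < ((n - 1).choose m : ℝ) := by exact_mod_cast Nat.choose_pos (by omega)
  have s1 : sk n m p k ≤ Real.exp (-(((k : ℝ) - 1) * ((m : ℝ) / n + (m : ℝ) ^ 2 / (2 * n ^ 2)))) *
      Real.exp ((m * (k - 1) : ℕ) * (p + 2 * p ^ 2)) := by
    unfold sk
    have hA := choose_le hk hkn hm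
    have hB := inv_pow_le h0 h1 (m * (k - 1))
    have hpp : (0 : ℝ) < (1 - p) ^ (m * (k - 1)) := pow_pos hq _
    calc ((n - k).choose m : ℝ) / ((n - 1).choose m * (1 - p) ^ (m * (k - 1)))
        = (((n - k).choose m : ℝ) / (n - 1).choose m) * ((1 - p) ^ (m * (k - 1)))⁻¹ := by field_simp
      _ ≤ Real.exp (-(((k : ℝ) - 1) * ((m : ℝ) / n + (m : ℝ) ^ 2 / (2 * n ^ 2)))) *
          Real.exp ((m * (k - 1) : ℕ) * (p + 2 * p ^ 2)) := by
          refine mul_le_mul ?_ hB (by positivity) (by positivity)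
          rw [div_le_iff₀ hc]
          linarith
  refine le_trans s1 ?_
  rw [← Real.exp_add]
  apply Real.exp_le_exp.2
  have ek : ((m * (k - 1) : ℕ) : ℝ) = m * ((k : ℝ) - 1) := by
    rw [Nat.cast_mul, Nat.cast_sub hk]
    simp
  rw [ek]
  have ep : p = 1 / n + lam / (n : ℝ) ^ (4 / 3 : ℝ) := rfl
  have e43 : (n : ℝ) ^ (4 / 3 : ℝ) * (n : ℝ) ^ (2 / 3 : ℝ) = n ^ 2 := by
    rw [← Real.rpow_add hn, ← Real.rpow_natCast]
    norm_num
  have h23 : (0 : ℝ) < (n : ℝ) ^ (2 / 3 : ℝ) := Real.rpow_pos_of_pos hn _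
  have h43 : (0 : ℝ) < (n : ℝ) ^ (4 / 3 : ℝ) := Real.rpow_pos_of_pos hn _
  have b1 : lam / (n : ℝ) ^ (4 / 3 : ℝ) ≤ |lam| * (n : ℝ) ^ (2 / 3 : ℝ) / n ^ 2 := by
    rw [← e43]
    have : |lam| * (n : ℝ) ^ (2 / 3 : ℝ) / ((n : ℝ) ^ (4 / 3 : ℝ) * (n : ℝ) ^ (2 / 3 : ℝ)) =
        |lam| / (n : ℝ) ^ (4 / 3 : ℝ) := by field_simp
    rw [this]
    exact div_le_div_of_nonneg_right (le_abs_self _) h43.le
  have b2 : 2 * p ^ 2 ≤ 8 / n ^ 2 := by
    have := pow_le_pow_left₀ h0 h2 2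
    have e : (2 / (n : ℝ)) ^ 2 = 4 / n ^ 2 := by
      rw [div_pow]; norm_num
    rw [e] at this
    calc 2 * p ^ 2 ≤ 2 * (4 / (n : ℝ) ^ 2) := by linarith
      _ = 8 / (n : ℝ) ^ 2 := by ring
  have b3 : p + 2 * p ^ 2 + (m : ℝ) / (4 * n ^ 2) ≤ 1 / n + m / (2 * n ^ 2) := by
    rw [ep] at b2 ⊢
    have : |lam| * (n : ℝ) ^ (2 / 3 : ℝ) / n ^ 2 + 8 / n ^ 2 ≤ (m : ℝ) / (4 * n ^ 2) := by
      rw [← add_div, div_le_div_iff₀ (by positivity) (by positivity)]
      have hn2 : (0 : ℝ) < (n : ℝ) ^ 2 := by positivity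
      nlinarith
    have e2 : (m : ℝ) / (2 * n ^ 2) = m / (4 * n ^ 2) + m / (4 * n ^ 2) := by
      field_simp
      ring
    rw [e2]
    linarith
  have b4 := mul_le_mul_of_nonneg_left b3 (mul_nonneg (show (0 : ℝ) ≤ m by positivity) hk0)
  have e5 : (m : ℝ) * ((k : ℝ) - 1) * (1 / n + m / (2 * n ^ 2)) = ((k : ℝ) - 1) * ((m : ℝ) / n + (m : ℝ) ^ 2 / (2 * n ^ 2)) := by
    field_simp
  have e6 : (m : ℝ) * ((k : ℝ) - 1) * (p + 2 * p ^ 2 + (m : ℝ) / (4 * n ^ 2)) =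
      m * ((k : ℝ) - 1) * (p + 2 * p ^ 2) + ((k : ℝ) - 1) * (m ^ 2 / (4 * n ^ 2)) := by
    field_simp
  rw [e5, e6] at b4
  linarith

theorem t_TA : S_TA := by
  intro lam
  obtain ⟨N, hN⟩ := p_facts lam
  refine ⟨12, 1 / (4 * (|lam| + 1) ^ 2), by norm_num, by positivity, N, ?_⟩
  intro n hn P hP B hB1 hB2
  obtain ⟨hn0, h0, h1, h2, -, h3, h8⟩ := hN n hn
  have hn' : (0 : ℝ) < n := by exact_mod_cast hn0
  have hB0 : 0 < B := by linarith
  have hs : 0 < Real.sqrt B := Real.sqrt_pos.2 hB0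
  have hss : Real.sqrt B * Real.sqrt B = B := Real.mul_self_sqrt hB0.le
  rcases lt_or_ge B 16 with h16 | h16
  · have hs4 : Real.sqrt B ≤ 4 := by
      rw [show (4 : ℝ) = Real.sqrt 16 by
        rw [show (16 : ℝ) = 4 ^ 2 by norm_num, Real.sqrt_sq (by norm_num)]]
      exact Real.sqrt_le_sqrt h16.le
    calc ∑ k ∈ Finset.Icc 1 n, P k * min ((k : ℝ) - 1) B ≤ ∑ k ∈ Finset.Icc 1 n, P k * B :=
          Finset.sum_le_sum (fun k _ => mul_le_mul_of_nonneg_left (min_le_right _ _) (hP.1 k))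
      _ = B := by rw [← Finset.sum_mul, hP.2.1, one_mul]
      _ ≤ 12 * Real.sqrt B := by nlinarith
  · set m : ℕ := ⌈2 * (n : ℝ) / Real.sqrt B⌉₊ with hm
    have hm1 : 2 * (n : ℝ) / Real.sqrt B ≤ m := Nat.le_ceil _
    have hm2 : (m : ℝ) < 2 * (n : ℝ) / Real.sqrt B + 1 := Nat.ceil_lt_add_one (by positivity)
    have hs4 : 4 ≤ Real.sqrt B := by
      rw [show (4 : ℝ) = Real.sqrt 16 by
        rw [show (16 : ℝ) = 4 ^ 2 by norm_num, Real.sqrt_sq (by norm_num)]]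
      exact Real.sqrt_le_sqrt h16
    have h3' : (3 : ℝ) ≤ n := by exact_mod_cast h3
    have hmn : m < n := by
      have : 2 * (n : ℝ) / Real.sqrt B ≤ n / 2 := by
        rw [div_le_div_iff₀ hs (by norm_num)]
        nlinarith
      have : (m : ℝ) < n := by linarith
      exact_mod_cast this
    have hn23 : (0 : ℝ) < (n : ℝ) ^ (2 / 3 : ℝ) := Real.rpow_pos_of_pos hn' _
    have hn13 : (0 : ℝ) < (n : ℝ) ^ (1 / 3 : ℝ) := Real.rpow_pos_of_pos hn' _
    have e1 : (n : ℝ) = (n : ℝ) ^ (2 / 3 : ℝ) * (n : ℝ) ^ (1 / 3 : ℝ) := by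
      rw [← Real.rpow_add hn']; norm_num
    have e2 : (n : ℝ) ^ (2 / 3 : ℝ) = (n : ℝ) ^ (1 / 3 : ℝ) * (n : ℝ) ^ (1 / 3 : ℝ) := by
      rw [← Real.rpow_add hn']; norm_num
    -- `√B ≤ n^(1/3) / (2 (|lam| + 1))`
    have hsB : Real.sqrt B * (2 * (|lam| + 1)) ≤ (n : ℝ) ^ (1 / 3 : ℝ) := by
      have hl : 0 < 2 * (|lam| + 1) := by positivity
      apply le_of_sq_le_sq _ hn13.le |> fun h => h
      rw [mul_pow, Real.sq_sqrt hB0.le, sq ((n : ℝ) ^ (1 / 3 : ℝ)), ← e2]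
      calc B * (2 * (|lam| + 1)) ^ 2 ≤ (1 / (4 * (|lam| + 1) ^ 2) * (n : ℝ) ^ (2 / 3 : ℝ)) * (2 * (|lam| + 1)) ^ 2 :=
            mul_le_mul_of_nonneg_right hB2 (by positivity)
        _ = (n : ℝ) ^ (2 / 3 : ℝ) := by field_simp; ring
    have hml : 4 * |lam| * (n : ℝ) ^ (2 / 3 : ℝ) + 32 ≤ m := by
      refine le_trans ?_ hm1
      rw [le_div_iff₀ hs]
      have a1 : 4 * |lam| * (n : ℝ) ^ (2 / 3 : ℝ) + 32 ≤ 4 * (|lam| + 1) * (n : ℝ) ^ (2 / 3 : ℝ) := by nlinarith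
      have a2 : 4 * (|lam| + 1) * (n : ℝ) ^ (2 / 3 : ℝ) * Real.sqrt B ≤ 2 * n := by
        calc 4 * (|lam| + 1) * (n : ℝ) ^ (2 / 3 : ℝ) * Real.sqrt B
            = 2 * (n : ℝ) ^ (2 / 3 : ℝ) * (Real.sqrt B * (2 * (|lam| + 1))) := by ring
          _ ≤ 2 * (n : ℝ) ^ (2 / 3 : ℝ) * (n : ℝ) ^ (1 / 3 : ℝ) := mul_le_mul_of_nonneg_left hsB (by positivity)
          _ = 2 * n := by rw [mul_assoc, ← e1]
      exact le_trans (mul_le_mul_of_nonneg_right a1 hs.le) a2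
    have hmB : 1 / B ≤ (m : ℝ) ^ 2 / (4 * n ^ 2) := by
      rw [div_le_div_iff₀ hB0 (by positivity)]
      have a1 : 2 * (n : ℝ) ≤ m * Real.sqrt B := by
        rw [div_le_iff₀ hs] at hm1
        exact hm1
      have a2 := pow_le_pow_left₀ (by positivity) a1 2
      rw [mul_pow, mul_pow, Real.sq_sqrt hB0.le] at a2
      linarith
    -- the identity
    have hid := sum_sk (by linarith) hP hmn
    have hbern : 1 - (1 - pc lam n) ^ m ≤ m * pc lam n := by
      have := one_add_mul_le_pow (a := -pc lam n) (by linarith) m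
      rw [← sub_eq_add_neg] at this
      linarith
    have hup : 1 - (1 - pc lam n) ^ m ≤ 6 / Real.sqrt B := by
      refine le_trans hbern ?_
      have a1 : (m : ℝ) * pc lam n ≤ (2 * (n : ℝ) / Real.sqrt B + 1) * (2 / n) :=
        mul_le_mul hm2.le h2 h0 (by positivity)
      refine le_trans a1 ?_
      have a2 : Real.sqrt B ≤ n := by
        have hl : (1 : ℝ) ≤ 2 * (|lam| + 1) := by linarith [abs_nonneg lam]
        have b1 : Real.sqrt B ≤ (n : ℝ) ^ (1 / 3 : ℝ) := le_trans (le_mul_of_one_le_right hs.le hl) hsB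
        have b2 : (n : ℝ) ^ (1 / 3 : ℝ) ≤ n := by
          nth_rewrite 2 [e1]
          nlinarith
        linarith
      have a3 : (2 * (n : ℝ) / Real.sqrt B + 1) * (2 / n) = 4 / Real.sqrt B + 2 / n := by
        field_simp
        ring
      rw [a3]
      have a4 : 2 / (n : ℝ) ≤ 2 / Real.sqrt B := div_le_div_of_nonneg_left (by norm_num) hs a2
      have a5 : 4 / Real.sqrt B + 2 / Real.sqrt B = 6 / Real.sqrt B := by ring
      linarith
    have hterm : ∀ k ∈ Finset.Icc 1 n, P k * min ((k : ℝ) - 1) B ≤ (2 * B) * (P k * (1 - sk n m (pc lam n) k)) := by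
      intro k hk
      obtain ⟨hk1, hkn⟩ := Finset.mem_Icc.1 hk
      have hk0 : (0 : ℝ) ≤ (k : ℝ) - 1 := by
        have : (1 : ℝ) ≤ k := by exact_mod_cast hk1
        linarith
      have c1 := sk_le hk1 hkn hmn h0 h1 h2 hml
      have c2 : Real.exp (-(((k : ℝ) - 1) * (m ^ 2 / (4 * n ^ 2)))) ≤ Real.exp (-(((k : ℝ) - 1) / B)) := by
        apply Real.exp_le_exp.2
        have := mul_le_mul_of_nonneg_left hmB hk0
        rw [mul_one_div] at this
        linarith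
      have c3 := one_sub_exp_ge (z := ((k : ℝ) - 1) / B) (by positivity)
      have c4 : min ((k : ℝ) - 1) B = B * min (((k : ℝ) - 1) / B) 1 := by
        rw [mul_min_of_nonneg _ _ hB0.le, mul_one]
        congr 1
        field_simp
      rw [c4]
      have c5 : B * min (((k : ℝ) - 1) / B) 1 ≤ B * (2 * (1 - sk n m (pc lam n) k)) :=
        mul_le_mul_of_nonneg_left (by linarith) hB0.le
      have c6 := mul_le_mul_of_nonneg_left c5 (hP.1 k)
      linarith
    refine le_trans (Finset.sum_le_sum hterm) ?_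
    rw [← Finset.mul_sum, hid]
    calc 2 * B * (1 - (1 - pc lam n) ^ m) ≤ 2 * B * (6 / Real.sqrt B) :=
          mul_le_mul_of_nonneg_left hup (by positivity)
      _ = 12 * Real.sqrt B := by
          nth_rewrite 1 [← hss]
          field_simp
          norm_num

end Pool.Agent.H249.ER
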