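import Pool.Agent.H249.ER.Conn

/-! # Two disjoint balls -/

set_option autoImplicit false

open Finset BigOperators
open scoped Classical

namespace Pool.Agent.H249.ER

open Pool.Agent.Q287.SR (pairs erWeight Ex Ex_const Ex_add Ex_mul Ex_sum Ex_mono Ex_nonneg)

/-- the data of one ball -/
noncomputable def odat {n : ℕ} (v : Fin n) (r : ℕ) (G : SimpleGraph (Fin n)) : Finset (Fin n) × SimpleGraph (Fin n) :=
  (ball G v r, res (ball G v r) G)

lemma odat_eq {n : ℕ} {v : Fin n} {r : ℕ} {G G₀ : SimpleGraph (Fin n)} :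
    odat v r G = odat v r G₀ ↔ (ball G v r = ball G₀ v r ∧ res (ball G v r) G = res (ball G₀ v r) G₀) := by
  unfold odat
  rw [Prod.mk.injEq]

lemma ballIso_dat (hba2 : S_BA2) {n : ℕ} {G G₀ : SimpleGraph (Fin n)} {v : Fin n} {r m : ℕ} {F : SimpleGraph (Fin m)}
    {u : Fin m} (h : res (ball G v r) G = res (ball G₀ v r) G₀) : BallIso G v r F u ↔ BallIso G₀ v r F u := by
  rw [hba2 n G v r m F u, hba2 n G₀ v r m F u, h]

lemma Pr_one (hba2 : S_BA2) {n : ℕ} (p : ℝ) (v : Fin n) (r m : ℕ) (F : SimpleGraph (Fin m)) (u : Fin m) :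
    Pr n p (fun G => BallIso G v r F u) =
      ∑ d ∈ Finset.univ.image (odat v r), (if BallIso d.2 v r F u then 1 else 0) * Pr n p (fun G => odat v r G = d) := by
  have e1 : ∀ d ∈ Finset.univ.image (odat (n := n) v r),
      (if BallIso d.2 v r F u then (1 : ℝ) else 0) * Pr n p (fun G => odat v r G = d) =
      Ex n p (fun G => (if BallIso d.2 v r F u then (1 : ℝ) else 0) * (if odat v r G = d then 1 else 0)) := by
    intro d _
    rw [Pr_eq, Ex_mul]
  rw [Finset.sum_congr rfl e1, ← Ex_sum, Pr_eq]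
  congr 1
  funext G
  rw [Finset.sum_eq_single (odat v r G)]
  · rw [if_pos rfl, mul_one]
    show _ = (if BallIso (res (ball G v r) G) v r F u then (1 : ℝ) else 0)
    by_cases h : BallIso G v r F u
    · rw [if_pos h, if_pos ((hba2 n G v r m F u).1 h)]
    · rw [if_neg h, if_neg (fun h2 => h ((hba2 n G v r m F u).2 h2))]
  · intro d _ hd
    rw [if_neg (Ne.symm hd), mul_zero]
  · intro h
    exact absurd (Finset.mem_image_of_mem _ (Finset.mem_univ G)) h

/-- the pairs which belong to both sets of edges -/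
lemma inter_DB {n : ℕ} {G₀ : SimpleGraph (Fin n)} {v w : Fin n} {r : ℕ} (hdis : Disjoint (ball G₀ v r) (ball G₀ w r))
    {e : Sym2 (Fin n)} (he : e ∈ DB G₀ v r ∩ DB G₀ w r) :
    e ∈ between (ball G₀ v r) (ball G₀ w r) ∧ e ∉ G₀.edgeSet := by
  rw [Finset.mem_inter] at he
  obtain ⟨h1, h2⟩ := he
  unfold DB at h1 h2
  rw [Finset.mem_filter] at h1 h2
  have hd := Finset.disjoint_left.1 hdis
  rcases h1.2 with a | ⟨z, hz, hz2⟩
  · exfalso
    rcases h2.2 with b | ⟨z', hz', hz2'⟩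
    · induction e with
      | _ x y => exact hd (a x (by simp)) (b x (by simp))
    · exact hd (a z' hz') (mem_ball.2 hz2'.le)
  · rcases h2.2 with b | ⟨z', hz', hz2'⟩
    · exact absurd (b z hz) (hd (mem_ball.2 hz2.le))
    · have hzA : z ∈ ball G₀ v r := mem_ball.2 hz2.le
      have hzA' : z' ∈ ball G₀ w r := mem_ball.2 hz2'.le
      have hne : z ≠ z' := by
        rintro rfl
        exact hd hzA hzA'
      have he : e = s(z, z') := ((Sym2.mem_and_mem_iff hne).1 ⟨hz, hz'⟩)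
      rw [he]
      refine ⟨Finset.mem_image.2 ⟨(z, z'), Finset.mem_product.2 ⟨hzA, hzA'⟩, rfl⟩, ?_⟩
      intro h
      exact hd (ball_step hz2 h) hzA'

lemma DB_subset {n : ℕ} (G₀ : SimpleGraph (Fin n)) (v : Fin n) (r : ℕ) : DB G₀ v r ⊆ pairs n := by
  unfold DB
  exact Finset.filter_subset _ _

lemma two_term (hcyl : S_CYL) (hba3 : S_BA3) (hcyb : S_CYB) {n : ℕ} {p : ℝ} (h0 : 0 ≤ p) (h1 : p < 1) {v w : Fin n}
    {r m : ℕ} {F : SimpleGraph (Fin m)} {u : Fin m} {G₀ : SimpleGraph (Fin n)} (g1 : BallIso G₀ v r F u)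
    (g2 : BallIso G₀ w r F u) (hdis : Disjoint (ball G₀ v r) (ball G₀ w r)) :
    Pr n p (fun G => bdat v w r r G = bdat v w r r G₀) * (1 - p) ^ (m ^ 2) ≤
      Pr n p (fun G => odat v r G = odat v r G₀) * Pr n p (fun G => odat w r G = odat w r G₀) := by
  have hq : 0 ≤ 1 - p := by linarith
  have hq1 : 1 - p ≤ 1 := by linarith
  have cA := (hba3 n G₀ v r m F u g1).1
  have cB := (hba3 n G₀ w r m F u g2).1
  have e0 : Pr n p (fun G => bdat v w r r G = bdat v w r r G₀) =
      ∏ e ∈ DB G₀ v r ∪ DB G₀ w r, if e ∈ G₀.edgeSet then p else 1 - p := by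
    rw [← hcyl n p G₀ _ (Finset.union_subset (DB_subset G₀ v r) (DB_subset G₀ w r))]
    congr 1
    funext G
    apply propext
    rw [bdat_eq, cyl_union, hcyb, hcyb]
  have e1 : Pr n p (fun G => odat v r G = odat v r G₀) =
      ∏ e ∈ DB G₀ v r, if e ∈ G₀.edgeSet then p else 1 - p := by
    rw [← hcyl n p G₀ _ (DB_subset G₀ v r)]
    congr 1
    funext G
    apply propext
    rw [hcyb]
    exact odat_eq (G := G) (G₀ := G₀)
  have e2 : Pr n p (fun G => odat w r G = odat w r G₀) =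
      ∏ e ∈ DB G₀ w r, if e ∈ G₀.edgeSet then p else 1 - p := by
    rw [← hcyl n p G₀ _ (DB_subset G₀ w r)]
    congr 1
    funext G
    apply propext
    rw [hcyb]
    exact odat_eq (G := G) (G₀ := G₀)
  rw [e0, e1, e2, ← Finset.prod_union_inter]
  refine mul_le_mul_of_nonneg_left ?_ ?_
  · have e3 : ∏ e ∈ DB G₀ v r ∩ DB G₀ w r, (if e ∈ G₀.edgeSet then p else 1 - p) =
        (1 - p) ^ (DB G₀ v r ∩ DB G₀ w r).card := by
      rw [Finset.prod_congr rfl (fun e he => if_neg (inter_DB hdis he).2), Finset.prod_const]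
    rw [e3]
    refine pow_le_pow_of_le_one hq hq1 ?_
    have hsub2 : DB G₀ v r ∩ DB G₀ w r ⊆ between (ball G₀ v r) (ball G₀ w r) :=
      fun e he => (inter_DB hdis he).1
    refine le_trans (Finset.card_le_card hsub2) ?_
    rw [card_between hdis, cA, cB, sq]
  · refine Finset.prod_nonneg (fun e _ => ?_)
    split_ifs
    · exact h0
    · exact hq

/-- goodness of a class -/
def Gd {n : ℕ} (v w : Fin n) (r : ℕ) {m : ℕ} (F : SimpleGraph (Fin m)) (u : Fin m)
    (d : (Finset (Fin n) × SimpleGraph (Fin n)) × (Finset (Fin n) × SimpleGraph (Fin n))) : Prop :=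
  BallIso d.1.2 v r F u ∧ BallIso d.2.2 w r F u ∧ Disjoint d.1.1 d.2.1

lemma Gd_iff (hba2 : S_BA2) {n : ℕ} (v w : Fin n) (r : ℕ) {m : ℕ} (F : SimpleGraph (Fin m)) (u : Fin m)
    (G : SimpleGraph (Fin n)) : Gd v w r F u (bdat v w r r G) ↔
      (BallIso G v r F u ∧ BallIso G w r F u ∧ Disjoint (ball G v r) (ball G w r)) := by
  rw [hba2 n G v r m F u, hba2 n G w r m F u]
  exact Iff.rfl

lemma two_L (hba2 : S_BA2) {n : ℕ} (p : ℝ) (v w : Fin n) (r m : ℕ) (F : SimpleGraph (Fin m)) (u : Fin m) :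
    Pr n p (fun G => BallIso G v r F u ∧ BallIso G w r F u ∧ Disjoint (ball G v r) (ball G w r)) =
      ∑ d ∈ Finset.univ.image (bdat v w r r), (if Gd v w r F u d then 1 else 0) *
        Pr n p (fun G => bdat v w r r G = d) := by
  have e1 : ∀ d ∈ Finset.univ.image (bdat (n := n) v w r r),
      (if Gd v w r F u d then (1 : ℝ) else 0) * Pr n p (fun G => bdat v w r r G = d) =
      Ex n p (fun G => (if Gd v w r F u d then (1 : ℝ) else 0) * (if bdat v w r r G = d then 1 else 0)) := by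
    intro d _
    rw [Pr_eq, Ex_mul]
  rw [Finset.sum_congr rfl e1, ← Ex_sum, Pr_eq]
  congr 1
  funext G
  rw [Finset.sum_eq_single (bdat v w r r G)]
  · rw [if_pos rfl, mul_one]
    have e2 := Gd_iff hba2 v w r F u G
    by_cases h : BallIso G v r F u ∧ BallIso G w r F u ∧ Disjoint (ball G v r) (ball G w r)
    · rw [if_pos h, if_pos (e2.2 h)]
    · rw [if_neg h, if_neg (fun h2 => h (e2.1 h2))]
  · intro d _ hd
    rw [if_neg (Ne.symm hd), mul_zero]
  · intro h
    exact absurd (Finset.mem_image_of_mem _ (Finset.mem_univ G)) h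

/-- a term of the right side -/
noncomputable def tm {n : ℕ} (p : ℝ) (v : Fin n) (r : ℕ) {m : ℕ} (F : SimpleGraph (Fin m)) (u : Fin m)
    (d : Finset (Fin n) × SimpleGraph (Fin n)) : ℝ :=
  (if BallIso d.2 v r F u then 1 else 0) * Pr n p (fun G => odat v r G = d)

lemma tm_nonneg {n : ℕ} {p : ℝ} (h0 : 0 ≤ p) (h1 : p < 1) (v : Fin n) (r : ℕ) {m : ℕ} (F : SimpleGraph (Fin m))
    (u : Fin m) (d : Finset (Fin n) × SimpleGraph (Fin n)) : 0 ≤ tm p v r F u d := by
  unfold tm
  refine mul_nonneg ?_ (Pr_nonneg h0 h1.le _)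
  split_ifs <;> norm_num

lemma Pr_one' (hba2 : S_BA2) {n : ℕ} (p : ℝ) (v : Fin n) (r m : ℕ) (F : SimpleGraph (Fin m)) (u : Fin m) :
    Pr n p (fun G => BallIso G v r F u) = ∑ d ∈ Finset.univ.image (odat v r), tm p v r F u d :=
  Pr_one hba2 p v r m F u

theorem t_TWO (hcyl : S_CYL) (hba2 : S_BA2) (hba3 : S_BA3) (hcyb : S_CYB) : S_TWO := by
  intro n p h0 h1 v w r m F u
  rw [Pr_one' hba2, Pr_one' hba2, Finset.sum_mul_sum, ← Finset.sum_product', two_L hba2, Finset.sum_mul]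
  have hsub : Finset.univ.image (bdat (n := n) v w r r) ⊆
      (Finset.univ.image (odat v r)) ×ˢ (Finset.univ.image (odat w r)) := by
    intro d hd
    obtain ⟨G, _, rfl⟩ := Finset.mem_image.1 hd
    exact Finset.mem_product.2 ⟨Finset.mem_image_of_mem _ (Finset.mem_univ G),
      Finset.mem_image_of_mem _ (Finset.mem_univ G)⟩
  have hle : ∀ d ∈ Finset.univ.image (bdat (n := n) v w r r),
      (if Gd v w r F u d then (1 : ℝ) else 0) * Pr n p (fun G => bdat v w r r G = d) * (1 - p) ^ (m ^ 2) ≤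
        tm p v r F u d.1 * tm p w r F u d.2 := by
    intro d hd
    obtain ⟨G₀, _, rfl⟩ := Finset.mem_image.1 hd
    by_cases hgood : Gd v w r F u (bdat v w r r G₀)
    · rw [if_pos hgood, one_mul]
      obtain ⟨g1, g2, hdis⟩ := (Gd_iff hba2 v w r F u G₀).1 hgood
      have t1 : tm p v r F u (bdat v w r r G₀).1 = Pr n p (fun G => odat v r G = odat v r G₀) := by
        unfold tm
        rw [if_pos hgood.1, one_mul]
        rfl
      have t2 : tm p w r F u (bdat v w r r G₀).2 = Pr n p (fun G => odat w r G = odat w r G₀) := by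
        unfold tm
        rw [if_pos hgood.2.1, one_mul]
        rfl
      rw [t1, t2]
      exact two_term hcyl hba3 hcyb h0 h1 g1 g2 hdis
    · rw [if_neg hgood, zero_mul, zero_mul]
      exact mul_nonneg (tm_nonneg h0 h1 _ _ _ _ _) (tm_nonneg h0 h1 _ _ _ _ _)
  refine le_trans (Finset.sum_le_sum hle) (Finset.sum_le_sum_of_subset_of_nonneg hsub ?_)
  intro d _ _
  exact mul_nonneg (tm_nonneg h0 h1 _ _ _ _ _) (tm_nonneg h0 h1 _ _ _ _ _)

end Pool.Agent.H249.ER
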